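import Pool.Agent.H29.SH.AnRus

/-!
PROJECT LE (MP_0d9ad5_pr), block SH, Aizenman-Newman. The sum over all edges at the cluster.
-/

namespace SH

open H5DF H5CF H95LBD H95LBS MeasureTheory
open scoped ENNReal

variable {d : ℕ}

lemma AnSum_edge {a y : V d} {t s : Dir d} (h : edge a t = edge y s) :
    a = y ∨ a = y + step s := by
  obtain ⟨i, b⟩ := t
  obtain ⟨j, c⟩ := s
  have hs : ∀ k : Fin d, (step (k, false) : V d) = - step (k, true) := fun k => by
    have := step_opp (d := d) (k, true)
    simpa [opp] using this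
  have hs1 : ∀ k : Fin d, (step (k, true) : V d) = Pi.single k 1 := fun k => by simp [step]
  cases b <;> cases c <;> simp only [edge, Bool.false_eq_true, if_false, if_true,
    Prod.mk.injEq] at h <;> obtain ⟨h1, h2⟩ := h
  · subst h2
    left
    exact add_right_cancel h1
  · subst h2
    right
    rw [hs] at h1
    rw [← h1]
    abel
  · right
    exact h1
  · left
    exact h1

lemma AnSum_det (ω : Cfg d) (u : V d) (s : Dir d) (h : u ∈ cluster ω 0) :
    u ∈ Ct Set.univ (edge u s) ω 0 ∨
      (ω (edge u s) = true ∧ u + step s ∈ Ct Set.univ (edge u s) ω 0) := by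
  have key : ∀ y, Cn Set.univ ω 0 y → (y ∈ Ct Set.univ (edge u s) ω 0 ∨
      (ω (edge u s) = true ∧ (u ∈ Ct Set.univ (edge u s) ω 0 ∨
        u + step s ∈ Ct Set.univ (edge u s) ω 0))) := by
    intro y hy
    refine Cn.ind (fun y => y ∈ Ct Set.univ (edge u s) ω 0 ∨
      (ω (edge u s) = true ∧ (u ∈ Ct Set.univ (edge u s) ω 0 ∨
        u + step s ∈ Ct Set.univ (edge u s) ω 0))) (Or.inl (Cn.refl _ _ _)) ?_ hy
    intro z t _ hz _ _ ho
    rcases hz with hz | hz
    · by_cases he : edge z t = edge u s
      · right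
        refine ⟨he ▸ ho, ?_⟩
        rcases AnSum_edge he with h1 | h1
        · left
          rw [h1] at hz
          exact hz
        · right
          rw [h1] at hz
          exact hz
      · left
        refine Cn.trans hz (Cn.one ?_ (Set.mem_univ _) (Set.mem_univ _))
        rw [Function.update_of_ne he]
        exact ho
    · exact Or.inr hz
  rcases key u (Cn_univ.2 h) with h1 | ⟨h1, h2 | h2⟩
  · exact Or.inl h1
  · exact Or.inl h2
  · exact Or.inr ⟨h1, h2⟩

lemma AnSum_meas (e : Ed d) (v y : V d) :
    MeasurableSet {ω : Cfg d | y ∈ Ct Set.univ e ω v} := by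
  have h : {ω : Cfg d | y ∈ Ct Set.univ e ω v} =
      (fun ω : Cfg d => Function.update ω e false) ⁻¹' {ω | (G ω).Reachable v y} := by
    ext ω
    exact Cn_univ
  rw [h]
  exact measurable_upd e false (meas_reach v y)

lemma AnSum_le {p : ℝ} (u : V d) (s : Dir d) :
    tau d p u ≤ perc d p {ω | u ∈ Ct Set.univ (edge u s) ω 0} +
      perc d p {ω | u + step s ∈ Ct Set.univ (edge (u + step s) (opp s)) ω 0} := by
  rw [edge_opp]
  refine le_trans (measure_mono ?_) (measure_union_le _ _)
  intro ω hω
  rcases AnSum_det ω u s hω with h | h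
  · exact Or.inl h
  · exact Or.inr h.2

theorem an_sum {p : ℝ} (h0 : 0 ≤ p) (h1 : p ≤ 1) : (d : ℝ≥0∞) * chi d p ≤ YY d p := by
  set a : V d → Dir d → ℝ≥0∞ := fun u s => perc d p {ω | u ∈ Ct Set.univ (edge u s) ω 0} with ha
  have h2 : (2 * (d : ℝ≥0∞)) * chi d p ≤ 2 * YY d p := by
    calc (2 * (d : ℝ≥0∞)) * chi d p = ∑' u : V d, ∑ _s : Dir d, tau d p u := by
          unfold chi
          rw [← ENNReal.tsum_mul_left]
          refine tsum_congr fun u => ?_
          rw [Finset.sum_const, nsmul_eq_mul]
          congr 1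
          simp [Finset.card_univ, mul_comm]
      _ ≤ ∑' u : V d, ∑ s : Dir d, (a u s + a (u + step s) (opp s)) :=
          ENNReal.tsum_le_tsum fun u => Finset.sum_le_sum fun s _ => AnSum_le u s
      _ = YY d p + ∑' u : V d, ∑ s : Dir d, a (u + step s) (opp s) := by
          simp_rw [Finset.sum_add_distrib]
          rw [ENNReal.tsum_add]
          rfl
      _ = YY d p + ∑ s : Dir d, ∑' u : V d, a (u + step s) (opp s) := by
          rw [Summable.tsum_finsetSum fun s _ => ENNReal.summable]
      _ = YY d p + ∑ s : Dir d, ∑' u : V d, a u (opp s) := by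
          congr 1
          refine Finset.sum_congr rfl fun s _ => ?_
          exact (Equiv.addRight (step s)).tsum_eq fun u => a u (opp s)
      _ = YY d p + ∑ s : Dir d, ∑' u : V d, a u s := by
          congr 1
          let e : Dir d ≃ Dir d := ⟨opp, opp, fun s => by simp [opp], fun s => by simp [opp]⟩
          exact Equiv.sum_comp e fun s => ∑' u : V d, a u s
      _ = 2 * YY d p := by
          rw [← Summable.tsum_finsetSum fun s _ => ENNReal.summable, two_mul]
          rfl
  rw [mul_assoc] at h2
  exact (ENNReal.mul_le_mul_iff_right (by norm_num) (by norm_num)).1 h2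

end SH
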