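import Pool.Agent.H29.SH.ZerPos
import Pool.Agent.H95.LBD.LawA
import Pool.Agent.H95.LBD.RussoP
import Pool.Agent.H95.LBD.DecC

/-!
PROJECT LE (MP_0d9ad5_pr), block SH. Continuity of the two-point function below `pcc`.
-/

namespace SH

open H5DF H5CF H95LBD H95LBS MeasureTheory
open scoped ENNReal

variable {d : ℕ}

theorem tau_mono {p q : ℝ} (h0 : 0 ≤ p) (hpq : p ≤ q) (h1 : q ≤ 1) (x : V d) :
    tau d p x ≤ tau d q x := by
  have hP := isProb_perc (d := d) p h0 (hpq.trans h1)
  have hQ := isProb_perc (d := d) q (h0.trans hpq) h1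
  have hinc : Inc {ω : Cfg d | x ∈ cluster ω 0} := by
    intro ω ω' h hω
    have h1 : Cn Set.univ ω 0 x := Cn_univ.2 hω
    exact Cn_univ.1 (h1.mono (fun _ h => h) h)
  have h := perc_mono h0 hpq h1 hinc (meas_reach (0 : V d) x)
  unfold tau
  exact (ENNReal.toReal_le_toReal (measure_ne_top _ _) (measure_ne_top _ _)).1 h

lemma Cont_pr {ι : Type*} [Fintype ι] [DecidableEq ι] (S : (ι → Bool) → Prop) :
    Continuous fun q : ℝ => pr q S := by
  unfold pr wt
  refine continuous_finsetSum _ fun ω _ => ?_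
  refine Continuous.mul ?_ continuous_const
  refine continuous_finsetProd _ fun i _ => ?_
  split_ifs
  · exact continuous_id
  · exact continuous_const.sub continuous_id

/-- Finite volume version. -/
noncomputable def Cont_f (n : ℕ) (x : V d) (q : ℝ) : ℝ :=
  (perc d q).real {ω | Cn (Bx 0 n) ω 0 x}

lemma Cont_f_cont (n : ℕ) (x : V d) : ContinuousOn (Cont_f n x) (Set.Icc 0 1) := by
  classical
  have h : Set.EqOn (Cont_f n x) (fun q => pr q (fun a : EF d n → Bool =>
      RussoP_ext (EF d n) a ∈ {ω : Cfg d | Cn (Bx 0 n) ω 0 x})) (Set.Icc 0 1) := by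
    intro q hq
    refine RussoP_pr (EF d n) _ ?_ q hq.1 hq.2
    intro ω ω' he hω
    exact Cn.congr hω fun e h => he e (mem_EF.2 h)
  exact (Cont_pr _).continuousOn.congr h

lemma Cont_le {p : ℝ} (h0 : 0 ≤ p) (h1 : p ≤ 1) (n : ℕ) (x : V d) (hx : nm x ≤ n) :
    tau d p x ≤ perc d p {ω | Cn (Bx 0 n) ω 0 x} +
      ∑' z : V d, if nm z = n + 1 then tau d p z else 0 := by
  classical
  have hsub : {ω : Cfg d | x ∈ cluster ω 0} ⊆ {ω | Cn (Bx 0 n) ω 0 x} ∪
      ⋃ z : V d, {ω : Cfg d | nm z = n + 1 ∧ z ∈ cluster ω 0} := by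
    intro ω hω
    have h1 : ω ∈ SCn {(0 : V d)} Set.univ x := ⟨0, Finset.mem_singleton_self _, Cn_univ.2 hω⟩
    rcases box_dec n (0 : V d) x (by rw [nm_zero]; omega) hx h1 with h2 | h2
    · obtain ⟨u, hu, h3⟩ := h2
      rw [Finset.mem_singleton] at hu
      subst hu
      exact Or.inl h3
    · right
      simp only [Set.mem_iUnion, Set.mem_ofPred_eq] at h2
      obtain ⟨z, hz, c, h3, -⟩ := h2
      obtain ⟨u, hu, h4⟩ := h3
      rw [Finset.mem_singleton] at hu
      subst hu
      refine Set.mem_iUnion.2 ⟨z, hz, ?_⟩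
      have h5 : Cn Set.univ ω 0 z := h4.mono (fun _ h => h) (fun e he => by
        simp only [Bool.and_eq_true] at he
        exact he.1)
      exact Cn_univ.1 h5
  refine (measure_mono hsub).trans ((measure_union_le _ _).trans ?_)
  refine add_le_add le_rfl ((measure_iUnion_le _).trans ?_)
  refine ENNReal.tsum_le_tsum fun z => ?_
  split_ifs with hz
  · exact measure_mono fun ω hω => hω.2
  · have : {ω : Cfg d | nm z = n + 1 ∧ z ∈ cluster ω 0} = ∅ := by
      ext ω
      simp [hz]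
    rw [this, measure_empty]

/-- The error. -/
noncomputable def Cont_e (d : ℕ) (p : ℝ) (n : ℕ) : ℝ≥0∞ :=
  ∑' z : V d, if nm z = n + 1 then tau d p z else 0

lemma Cont_e_tendsto (hd : 1 ≤ d) {p : ℝ} (h0 : 0 ≤ p) (hp : p < pcc d) :
    Filter.Tendsto (Cont_e d p) Filter.atTop (nhds 0) := by
  refine ENNReal.tendsto_atTop_zero_of_tsum_ne_top (ne_top_of_le_ne_top (chi_fin hd h0 hp).ne ?_)
  unfold Cont_e chi
  rw [ENNReal.tsum_comm]
  refine ENNReal.tsum_le_tsum fun z => ?_
  rcases Nat.eq_zero_or_pos (nm z) with h | h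
  · have : ∀ n : ℕ, (if nm z = n + 1 then tau d p z else 0) = 0 := by
      intro n
      rw [if_neg]
      omega
    simp [this]
  · have : ∀ n : ℕ, (if nm z = n + 1 then tau d p z else 0) =
        if n = nm z - 1 then tau d p z else 0 := by
      intro n
      by_cases hn : nm z = n + 1
      · rw [if_pos hn, if_pos (by omega)]
      · rw [if_neg hn, if_neg (by omega)]
    simp_rw [this]
    rw [tsum_ite_eq]

lemma Cont_e_mono {p q : ℝ} (h0 : 0 ≤ p) (hpq : p ≤ q) (h1 : q ≤ 1) (n : ℕ) :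
    Cont_e d p n ≤ Cont_e d q n := by
  unfold Cont_e
  refine ENNReal.tsum_le_tsum fun z => ?_
  split_ifs
  · exact tau_mono h0 hpq h1 z
  · exact le_rfl

lemma Cont_e_ne (hd : 1 ≤ d) {p : ℝ} (h0 : 0 ≤ p) (hp : p < pcc d) (n : ℕ) :
    Cont_e d p n ≠ ⊤ := by
  refine ne_top_of_le_ne_top (chi_fin hd h0 hp).ne ?_
  unfold Cont_e chi
  refine ENNReal.tsum_le_tsum fun z => ?_
  split_ifs
  · exact le_rfl
  · exact zero_le

theorem tau_cont (hd : 1 ≤ d) (x : V d) :
    ContinuousOn (fun p => (tau d p x).toReal) (Set.Ico 0 (pcc d)) := by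
  have hone := pcc_le_one hd
  have key : ∀ p1 : ℝ, 0 ≤ p1 → p1 < pcc d →
      ContinuousOn (fun p => (tau d p x).toReal) (Set.Icc 0 p1) := by
    intro p1 hp0 hp1
    have hu : TendstoUniformlyOn (fun n : ℕ => Cont_f n x) (fun p => (tau d p x).toReal)
        Filter.atTop (Set.Icc 0 p1) := by
      rw [Metric.tendstoUniformlyOn_iff]
      intro ε hε
      have ht : Filter.Tendsto (fun n => (Cont_e d p1 n).toReal) Filter.atTop (nhds 0) := by
        have h9 := (ENNReal.tendsto_toReal ENNReal.zero_ne_top).comp (Cont_e_tendsto hd hp0 hp1)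
        rw [ENNReal.toReal_zero] at h9
        exact h9
      have hev := ht.eventually (gt_mem_nhds hε)
      filter_upwards [hev, Filter.eventually_ge_atTop (nm x)] with n hn hnx p hp
      have hp1' : p ≤ 1 := hp.2.trans (hp1.le.trans hone)
      have hP := isProb_perc (d := d) p hp.1 hp1'
      have hle := Cont_le hp.1 hp1' n x hnx
      have hle' : tau d p x ≤ perc d p {ω | Cn (Bx 0 n) ω 0 x} + Cont_e d p1 n :=
        hle.trans (add_le_add le_rfl (Cont_e_mono hp.1 hp.2 (hp1.le.trans hone) n))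
      have hge : perc d p {ω | Cn (Bx 0 n) ω 0 x} ≤ tau d p x :=
        measure_mono fun ω hω => Cn.cluster hω
      have hne : tau d p x ≠ ⊤ := measure_ne_top _ _
      have hr1 : Cont_f n x p ≤ (tau d p x).toReal := ENNReal.toReal_mono hne hge
      have hr2 : (tau d p x).toReal ≤ Cont_f n x p + (Cont_e d p1 n).toReal := by
        have := ENNReal.toReal_mono (ENNReal.add_ne_top.2 ⟨measure_ne_top _ _,
          Cont_e_ne hd hp0 hp1 n⟩) hle'
        rwa [ENNReal.toReal_add (measure_ne_top _ _) (Cont_e_ne hd hp0 hp1 n)] at this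
      rw [Real.dist_eq, abs_of_nonneg (by linarith)]
      linarith
    refine hu.continuousOn (Filter.Eventually.of_forall fun n => ?_).frequently
    exact (Cont_f_cont n x).mono (Set.Icc_subset_Icc le_rfl (hp1.le.trans hone))
  intro p hp
  have h1 : (p + pcc d) / 2 < pcc d := by linarith [hp.2]
  have h0 : 0 ≤ (p + pcc d) / 2 := by linarith [hp.1, hp.2]
  have hc := key _ h0 h1 p ⟨hp.1, by linarith [hp.2]⟩
  refine hc.mono_of_mem_nhdsWithin ?_
  rw [mem_nhdsWithin]
  refine ⟨Set.Iio ((p + pcc d) / 2), isOpen_Iio, by simp only [Set.mem_Iio]; linarith [hp.2], ?_⟩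
  rintro q ⟨hq1, hq2⟩
  exact ⟨hq2.1, hq1.le⟩

end SH
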