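import Pool.Agent.H29.SH.AnLim
import Pool.Agent.H29.SH.AnSum
import Pool.Agent.H29.SH.Cont
import Pool.Agent.H95.LBD.TauK

/-!
PROJECT LE (MP_0d9ad5_pr), block SH, Aizenman-Newman. The bound for `chi`.
-/

namespace SH

open H5DF H5CF H95LBD H95LBS MeasureTheory
open scoped ENNReal

variable {d : ℕ}

lemma AnDbl_step (x y D w : ℝ) (hD : 0 < D) (hx : 1 ≤ x) (hxy : x ≤ y)
    (h : x + w * (D * x ^ 2) ≤ y + w * (D / 8 * y ^ 2)) (hw : 0 < w)
    (hwx : 2 / (D * x) ≤ w) : 2 * x ≤ y := by
  by_contra hlt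
  push Not at hlt
  have hx0 : 0 < x := by linarith
  have hDx : 0 < D * x := mul_pos hD hx0
  have h2 : 2 ≤ w * (D * x) := by
    rw [div_le_iff₀ hDx] at hwx
    exact hwx
  have hy2 : y ^ 2 ≤ 4 * x ^ 2 := by nlinarith
  have h3 : w * (D / 8 * y ^ 2) ≤ w * (D / 8 * (4 * x ^ 2)) :=
    mul_le_mul_of_nonneg_left (mul_le_mul_of_nonneg_left hy2 (by positivity)) hw.le
  have h4 : w * (D * x ^ 2) = w * (D * x) * x := by ring
  have h5 : w * (D / 8 * (4 * x ^ 2)) = w * (D * x) * x / 2 := by ring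
  have h6 : 2 * x ≤ w * (D * x) * x := mul_le_mul_of_nonneg_right h2 hx0.le
  linarith

lemma an_dbl (f : ℝ → ℝ) (a b D : ℝ) (hD : 0 < D) (hf : ∀ p, a ≤ p → p < b → 1 ≤ f p)
    (hmono : ∀ p q, a ≤ p → p ≤ q → q < b → f p ≤ f q)
    (h : ∀ p q, a ≤ p → p < q → q < b →
      f p + (q - p) * (D * f p ^ 2) ≤ f q + (q - p) * (D / 8 * f q ^ 2))
    (p : ℝ) (hp : a ≤ p) (hpb : p < b) : f p ≤ 4 / (D * (b - p)) := by
  have hf0 : 1 ≤ f p := hf p hp hpb
  have hf0' : 0 < f p := by linarith
  have hbp : 0 < b - p := by linarith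
  have hDf : 0 < D * f p := mul_pos hD hf0'
  set c : ℝ := 4 / (D * f p) with hc
  have hc0 : 0 < c := div_pos (by norm_num) hDf
  have hb : b ≤ p + c := by
    by_contra hlt
    push Not at hlt
    have hk : ∀ k : ℕ, 2 ^ k * f p ≤ f (p + c * (1 - (1 / 2) ^ k)) := by
      intro k
      induction k with
      | zero => simp
      | succ k ih =>
        have hpow : (0 : ℝ) < (1 / 2) ^ k := by positivity
        have hpow1 : ((1 : ℝ) / 2) ^ k ≤ 1 := pow_le_one₀ (by norm_num) (by norm_num)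
        have hpow2 : (0 : ℝ) < (1 / 2) ^ (k + 1) := by positivity
        have hsucc : ((1 : ℝ) / 2) ^ (k + 1) = (1 / 2) ^ k / 2 := by
          rw [pow_succ]
          ring
        set u : ℝ := p + c * (1 - (1 / 2) ^ k) with hu
        set v : ℝ := p + c * (1 - (1 / 2) ^ (k + 1)) with hv
        have hvu : v - u = c * ((1 / 2) ^ k / 2) := by
          rw [hu, hv, hsucc]
          ring
        have hua : a ≤ u := by
          have : 0 ≤ c * (1 - (1 / 2) ^ k) := mul_nonneg hc0.le (by linarith)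
          linarith
        have huv : u < v := by
          have : 0 < c * ((1 / 2) ^ k / 2) := mul_pos hc0 (by linarith)
          linarith
        have hvb : v < b := by
          have : c * (1 - (1 / 2) ^ (k + 1)) ≤ c * 1 :=
            mul_le_mul_of_nonneg_left (by linarith) hc0.le
          rw [mul_one] at this
          linarith
        have hfu : 1 ≤ f u := hf u hua (huv.trans hvb)
        have hfu0 : 0 < f u := by linarith
        have h2 : 2 * f u ≤ f v := by
          refine AnDbl_step (f u) (f v) D (v - u) hD hfu (hmono u v hua huv.le hvb)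
            (h u v hua huv hvb) (by linarith) ?_
          rw [hvu, hc]
          have h4 : 4 / (D * f p) * ((1 / 2) ^ k / 2) = 2 / (D * (2 ^ k * f p)) := by
            rw [one_div, inv_pow]
            field_simp
            norm_num
          rw [h4]
          exact div_le_div_of_nonneg_left (by norm_num)
            (mul_pos hD (mul_pos (by positivity) hf0')) (mul_le_mul_of_nonneg_left ih hD.le)
        calc 2 ^ (k + 1) * f p = 2 * (2 ^ k * f p) := by ring
          _ ≤ 2 * f u := by linarith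
          _ ≤ f v := h2
    obtain ⟨k, hk1⟩ := pow_unbounded_of_one_lt (f (p + c)) (one_lt_two (α := ℝ))
    have h3 := hk k
    have hpow : (0 : ℝ) < (1 / 2) ^ k := by positivity
    have hpow1 : ((1 : ℝ) / 2) ^ k ≤ 1 := pow_le_one₀ (by norm_num) (by norm_num)
    have hle : p + c * (1 - (1 / 2) ^ k) ≤ p + c := by
      have : c * (1 - (1 / 2) ^ k) ≤ c * 1 :=
        mul_le_mul_of_nonneg_left (by linarith) hc0.le
      rw [mul_one] at this
      linarith
    have hge : a ≤ p + c * (1 - (1 / 2) ^ k) := by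
      have : 0 ≤ c * (1 - (1 / 2) ^ k) := mul_nonneg hc0.le (by linarith)
      linarith
    have h4 := hmono _ _ hge hle hlt
    have h5 : (2 : ℝ) ^ k * 1 ≤ 2 ^ k * f p := mul_le_mul_of_nonneg_left hf0 (by positivity)
    linarith
  have h1 : b - p ≤ 4 / (D * f p) := by linarith
  rw [le_div_iff₀ hDf] at h1
  rw [le_div_iff₀ (mul_pos hD hbp)]
  calc f p * (D * (b - p)) = (b - p) * (D * f p) := by ring
    _ ≤ 4 := h1

/-- The bound of Aizenman and Newman. -/
theorem an_bound (hd : 1 ≤ d)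
    (hT : ∀ p : ℝ, 1 / (4 * (d : ℝ)) ≤ p → p < pcc d → ∀ s : Dir d,
      T3 d p (step s) ≤ ENNReal.ofReal (1 / 16))
    (p : ℝ) (hp : 1 / (4 * (d : ℝ)) ≤ p) (hpc : p < pcc d) :
    chi d p ≤ ENNReal.ofReal (4 / (d * (pcc d - p))) := by
  have hd0 : (0 : ℝ) < d := by exact_mod_cast hd
  have hone := pcc_le_one hd
  have ha0 : (0 : ℝ) < 1 / (4 * (d : ℝ)) := by positivity
  have hfin : ∀ q : ℝ, 1 / (4 * (d : ℝ)) ≤ q → q < pcc d → chi d q ≠ ⊤ := fun q hq hqc =>
    (chi_fin hd (ha0.le.trans hq) hqc).ne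
  have hge : ∀ q : ℝ, 1 / (4 * (d : ℝ)) ≤ q → q < pcc d → (1 : ℝ≥0∞) ≤ chi d q := by
    intro q hq hqc
    unfold chi
    calc (1 : ℝ≥0∞) = tau d q 0 := (tau_zero q (ha0.le.trans hq) (hqc.le.trans hone)).symm
      _ ≤ ∑' x : V d, tau d q x := ENNReal.le_tsum 0
  have hmono : ∀ q r : ℝ, 1 / (4 * (d : ℝ)) ≤ q → q ≤ r → r < pcc d → chi d q ≤ chi d r := by
    intro q r hq hqr hr
    unfold chi
    exact ENNReal.tsum_le_tsum fun x => tau_mono (ha0.le.trans hq) hqr (hr.le.trans hone) x
  have hkey := an_dbl (fun q => (chi d q).toReal) (1 / (4 * (d : ℝ))) (pcc d) (d : ℝ) hd0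
    (fun q hq hqc => by
      have h1 := ENNReal.toReal_mono (hfin q hq hqc) (hge q hq hqc)
      rw [ENNReal.toReal_one] at h1
      exact h1)
    (fun q r hq hqr hr => ENNReal.toReal_mono (hfin r (hq.trans hqr) hr) (hmono q r hq hqr hr))
    (fun q r hq hqr hr => by
      have hr4 : 1 / (4 * (d : ℝ)) ≤ r := hq.trans hqr.le
      have hqc : q < pcc d := hqr.trans hr
      have hfq := hfin q hq hqc
      have hfr := hfin r hr4 hr
      have hlim := an_lim (d := d) (ha0.trans_le hq) hqr (lt_of_lt_of_le hr hone)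
      have hY := an_sum (d := d) (ha0.le.trans hq) (hqc.le.trans hone)
      have hS : ∑ s : Dir d, T3 d r (step s) ≤ ENNReal.ofReal ((d : ℝ) / 8) := by
        calc ∑ s : Dir d, T3 d r (step s) ≤ ∑ _s : Dir d, ENNReal.ofReal (1 / 16) :=
              Finset.sum_le_sum fun s _ => hT r hr4 hr s
          _ = ENNReal.ofReal ((d : ℝ) / 8) := by
              rw [Finset.sum_const, nsmul_eq_mul, ← ENNReal.ofReal_natCast,
                ← ENNReal.ofReal_mul (by positivity)]
              congr 1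
              simp [Finset.card_univ]
              ring
      have hw : 0 < r - q := by linarith
      have h1 : chi d q + ENNReal.ofReal (r - q) * ((d : ℝ≥0∞) * chi d q * chi d q) ≤
          chi d r + ENNReal.ofReal (r - q) * (chi d r ^ 2 * ENNReal.ofReal ((d : ℝ) / 8)) := by
        calc chi d q + ENNReal.ofReal (r - q) * ((d : ℝ≥0∞) * chi d q * chi d q)
            ≤ chi d q + ENNReal.ofReal (r - q) * (YY d q * chi d q) := by gcongr
          _ ≤ chi d r + ENNReal.ofReal (r - q) * (chi d r ^ 2 *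
                ∑ s : Dir d, T3 d r (step s)) := hlim
          _ ≤ _ := by gcongr
      have hne : chi d r + ENNReal.ofReal (r - q) * (chi d r ^ 2 *
          ENNReal.ofReal ((d : ℝ) / 8)) ≠ ⊤ :=
        ENNReal.add_ne_top.2 ⟨hfr, ENNReal.mul_ne_top ENNReal.ofReal_ne_top
          (ENNReal.mul_ne_top (ENNReal.pow_ne_top hfr) ENNReal.ofReal_ne_top)⟩
      have hne2 : ENNReal.ofReal (r - q) * ((d : ℝ≥0∞) * chi d q * chi d q) ≠ ⊤ :=
        ENNReal.mul_ne_top ENNReal.ofReal_ne_top
          (ENNReal.mul_ne_top (ENNReal.mul_ne_top (ENNReal.natCast_ne_top _) hfq) hfq)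
      have h2 := ENNReal.toReal_mono hne h1
      rw [ENNReal.toReal_add hfq hne2, ENNReal.toReal_add hfr (ENNReal.mul_ne_top
        ENNReal.ofReal_ne_top (ENNReal.mul_ne_top (ENNReal.pow_ne_top hfr)
        ENNReal.ofReal_ne_top))] at h2
      simp only [ENNReal.toReal_mul, ENNReal.toReal_pow, ENNReal.toReal_ofReal hw.le,
        ENNReal.toReal_natCast, ENNReal.toReal_ofReal (show (0 : ℝ) ≤ (d : ℝ) / 8 by positivity)]
        at h2
      have e1 : (r - q) * ((d : ℝ) * (chi d q).toReal * (chi d q).toReal) =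
          (r - q) * ((d : ℝ) * (chi d q).toReal ^ 2) := by ring
      have e2 : (r - q) * ((chi d r).toReal ^ 2 * ((d : ℝ) / 8)) =
          (r - q) * ((d : ℝ) / 8 * (chi d r).toReal ^ 2) := by ring
      rw [e1, e2] at h2
      exact h2)
    p hp hpc
  rw [← ENNReal.ofReal_toReal (hfin p hp hpc)]
  exact ENNReal.ofReal_le_ofReal hkey

end SH
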