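import Pool.Agent.H29.SH.AnFac
import Pool.Agent.H95.LBD.LawA

/-!
PROJECT LE (MP_0d9ad5_pr), block SH, Aizenman-Newman. The differential inequality in a box,
integrated.
-/

namespace SH

open H5DF H5CF H95LBD H95LBS MeasureTheory
open scoped ENNReal

variable {d : ℕ}

/-- Monotonicity in `p` of increasing events, in `ℝ≥0∞`. -/
lemma AnDer_mono {p p' : ℝ} (h0 : 0 ≤ p) (hpp : p ≤ p') (h1 : p' ≤ 1) {A : Set (Cfg d)}
    (hA : Inc A) (hm : MeasurableSet A) : perc d p A ≤ perc d p' A := by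
  have hb := isProb_bern h0 (hpp.trans h1)
  have hb' := isProb_bern (h0.trans hpp) h1
  have hP : IsProbabilityMeasure (perc d p) := by
    unfold perc
    infer_instance
  have hP' : IsProbabilityMeasure (perc d p') := by
    unfold perc
    infer_instance
  exact (ENNReal.toReal_le_toReal (measure_ne_top _ _) (measure_ne_top _ _)).1
    (perc_mono h0 hpp h1 hA hm)

lemma AnDer_inc_Cn (S : Set (V d)) (x y : V d) : Inc {ω : Cfg d | Cn S ω x y} :=
  fun _ _ h hω => Cn.mono hω (le_refl _) h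

lemma AnDer_inc_Ct (S : Set (V d)) (e : Ed d) (v y : V d) :
    Inc {ω : Cfg d | y ∈ Ct S e ω v} := by
  intro ω ω' h hω
  refine Cn.mono hω (le_refl _) fun e' he' => ?_
  by_cases hee : e' = e
  · rw [hee, Function.update_self] at he'
    exact absurd he' (by simp)
  · rw [Function.update_of_ne hee] at he' ⊢
    exact h e' he'

lemma AnDer_inc_cluster (x y : V d) : Inc {ω : Cfg d | y ∈ cluster ω x} := by
  intro ω ω' h hω
  exact Cn_univ.1 (Cn.mono (Cn_univ.2 hω) (le_refl _) h)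

lemma AnDer_meas_cluster (x y : V d) : MeasurableSet {ω : Cfg d | y ∈ cluster ω x} := by
  have h : {ω : Cfg d | y ∈ cluster ω x} = {ω : Cfg d | Cn Set.univ ω x y} := by
    ext ω
    exact Cn_univ.symm
  rw [h]
  exact meas_Cn _ _ _

lemma AnDer_tau {p p' : ℝ} (h0 : 0 ≤ p) (hpp : p ≤ p') (h1 : p' ≤ 1) (x : V d) :
    tau d p x ≤ tau d p' x :=
  AnDer_mono h0 hpp h1 (AnDer_inc_cluster 0 x) (AnDer_meas_cluster 0 x)

theorem an_der {p q : ℝ} (h0 : 0 < p) (hpq : p < q) (h1 : q < 1) (n : ℕ) (x : V d) :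
    perc d p {ω | Cn (Bx 0 n) ω 0 x} + ENNReal.ofReal (q - p) * ∑ b ∈ EP d n,
        perc d p {ω | b.1 ∈ Ct (Bx 0 n) (edge b.1 b.2) ω 0} *
          perc d p {ω | Cn (Bx 0 n) ω (b.1 + step b.2) x} ≤
      perc d q {ω | Cn (Bx 0 n) ω 0 x} + ENNReal.ofReal (q - p) * ∑ b ∈ EP d n, ∑' z : V d,
        perc d q {ω | b.1 ∈ cluster ω 0 ∧ z ∈ cluster ω 0} *
          (tau d q (z - (b.1 + step b.2)) * tau d q (x - z)) := by
  have hbp := isProb_bern h0.le (hpq.trans h1).le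
  have hbq := isProb_bern (h0.trans hpq).le h1.le
  have hPp : IsProbabilityMeasure (perc d p) := by
    unfold perc
    infer_instance
  have hPq : IsProbabilityMeasure (perc d q) := by
    unfold perc
    infer_instance
  have hder : ∀ r : ℝ, 0 < r → r < 1 →
      HasDerivAt (fun q => (perc d q).real {ω | Cn (Bx 0 n) ω 0 x})
        (deriv (fun q => (perc d q).real {ω | Cn (Bx 0 n) ω 0 x}) r) r ∧
      ∑ b ∈ EP d n, (perc d r).real (PV (Bx 0 n) b.1 b.2 x) ≤
        deriv (fun q => (perc d q).real {ω | Cn (Bx 0 n) ω 0 x}) r := by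
    intro r hr0 hr1
    obtain ⟨D, hD, hle⟩ := an_russo (d := d) hr0 hr1 n x
    rw [hD.deriv]
    exact ⟨hD, hle⟩
  obtain ⟨c, ⟨hpc, hcq⟩, hc⟩ := exists_hasDerivAt_eq_slope
    (fun q => (perc d q).real {ω | Cn (Bx 0 n) ω 0 x})
    (deriv (fun q => (perc d q).real {ω | Cn (Bx 0 n) ω 0 x})) hpq
    (fun r hr => (hder r (h0.trans_le hr.1) (hr.2.trans_lt h1)).1.continuousAt.continuousWithinAt)
    (fun r hr => (hder r (h0.trans hr.1) (hr.2.trans h1)).1)
  have hc0 : 0 < c := h0.trans hpc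
  have hc1 : c < 1 := hcq.trans h1
  have hbc := isProb_bern hc0.le hc1.le
  have hPc : IsProbabilityMeasure (perc d c) := by
    unfold perc
    infer_instance
  have hle := (hder c hc0 hc1).2
  rw [hc, le_div_iff₀ (sub_pos.2 hpq)] at hle
  -- the sum of the probabilities at `c`
  have hsum : ∑ b ∈ EP d n, perc d p {ω | b.1 ∈ Ct (Bx 0 n) (edge b.1 b.2) ω 0} *
        perc d p {ω | Cn (Bx 0 n) ω (b.1 + step b.2) x} ≤
      ∑ b ∈ EP d n, perc d c (PV (Bx 0 n) b.1 b.2 x) + ∑ b ∈ EP d n, ∑' z : V d,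
        perc d q {ω | b.1 ∈ cluster ω 0 ∧ z ∈ cluster ω 0} *
          (tau d q (z - (b.1 + step b.2)) * tau d q (x - z)) := by
    rw [← Finset.sum_add_distrib]
    refine Finset.sum_le_sum fun b _ => ?_
    refine (mul_le_mul' (AnDer_mono h0.le hpc.le hc1.le (AnDer_inc_Ct _ _ _ _)
      (meas_Ct_mem _ _ _ _)) (AnDer_mono h0.le hpc.le hc1.le (AnDer_inc_Cn _ _ _)
      (meas_Cn _ _ _))).trans ?_
    refine (an_fac hc0.le hc1.le n b.1 b.2 x).trans (add_le_add le_rfl ?_)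
    refine ENNReal.tsum_le_tsum fun z => mul_le_mul' ?_ (mul_le_mul' ?_ ?_)
    · refine AnDer_mono hc0.le hcq.le h1.le ?_ ?_
      · intro ω ω' h hω
        exact ⟨AnDer_inc_cluster _ _ ω ω' h hω.1, AnDer_inc_cluster _ _ ω ω' h hω.2⟩
      · exact (AnDer_meas_cluster 0 b.1).inter (AnDer_meas_cluster 0 z)
    · exact AnDer_tau hc0.le hcq.le h1.le _
    · exact AnDer_tau hc0.le hcq.le h1.le _
  have hfirst : perc d p {ω | Cn (Bx 0 n) ω 0 x} +
      ENNReal.ofReal (q - p) * ∑ b ∈ EP d n, perc d c (PV (Bx 0 n) b.1 b.2 x) ≤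
      perc d q {ω | Cn (Bx 0 n) ω 0 x} := by
    have e1 : ∑ b ∈ EP d n, perc d c (PV (Bx 0 n) b.1 b.2 x) =
        ENNReal.ofReal (∑ b ∈ EP d n, (perc d c).real (PV (Bx 0 n) b.1 b.2 x)) := by
      rw [ENNReal.ofReal_sum_of_nonneg fun b _ => measureReal_nonneg]
      exact Finset.sum_congr rfl fun b _ => (ofReal_measureReal (measure_ne_top _ _)).symm
    rw [e1, ← ofReal_measureReal (measure_ne_top (perc d p) {ω | Cn (Bx 0 n) ω 0 x}),
      ← ofReal_measureReal (measure_ne_top (perc d q) {ω | Cn (Bx 0 n) ω 0 x}),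
      ← ENNReal.ofReal_mul (sub_pos.2 hpq).le,
      ← ENNReal.ofReal_add measureReal_nonneg (mul_nonneg (sub_pos.2 hpq).le
        (Finset.sum_nonneg fun b _ => measureReal_nonneg))]
    refine ENNReal.ofReal_le_ofReal ?_
    have h3 := hle
    linarith
  calc perc d p {ω | Cn (Bx 0 n) ω 0 x} + ENNReal.ofReal (q - p) * ∑ b ∈ EP d n,
        perc d p {ω | b.1 ∈ Ct (Bx 0 n) (edge b.1 b.2) ω 0} *
          perc d p {ω | Cn (Bx 0 n) ω (b.1 + step b.2) x}
      ≤ perc d p {ω | Cn (Bx 0 n) ω 0 x} + ENNReal.ofReal (q - p) *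
        (∑ b ∈ EP d n, perc d c (PV (Bx 0 n) b.1 b.2 x) + ∑ b ∈ EP d n, ∑' z : V d,
        perc d q {ω | b.1 ∈ cluster ω 0 ∧ z ∈ cluster ω 0} *
          (tau d q (z - (b.1 + step b.2)) * tau d q (x - z))) :=
        add_le_add le_rfl (mul_le_mul' le_rfl hsum)
    _ = (perc d p {ω | Cn (Bx 0 n) ω 0 x} + ENNReal.ofReal (q - p) *
        ∑ b ∈ EP d n, perc d c (PV (Bx 0 n) b.1 b.2 x)) + ENNReal.ofReal (q - p) *
        ∑ b ∈ EP d n, ∑' z : V d,
        perc d q {ω | b.1 ∈ cluster ω 0 ∧ z ∈ cluster ω 0} *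
          (tau d q (z - (b.1 + step b.2)) * tau d q (x - z)) := by
        rw [mul_add, add_assoc]
    _ ≤ _ := add_le_add hfirst le_rfl

end SH
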