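import Pool.Agent.H29.SH.AnRus

/-!
PROJECT LE (MP_0d9ad5_pr), block SH, Aizenman-Newman. Lower bound for the pivotal probability.
-/

namespace SH

open H5DF H5CF H95LBD H95LBS MeasureTheory
open scoped ENNReal

variable {d : ℕ}

lemma AnFac_cut (L B : Set (V d)) (ω : Cfg d) : cut Bᶜ (cut L ω) = cut (L \ B) ω := by
  funext e
  apply Bool.eq_iff_iff.2
  rw [cut_true, cut_true, cut_true]
  constructor
  · rintro ⟨⟨h1, h2⟩, h3⟩
    exact ⟨h1, ⟨h2.1, h3.1⟩, ⟨h2.2, h3.2⟩⟩
  · rintro ⟨h1, h2⟩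
    exact ⟨⟨h1, h2.1.1, h2.2.1⟩, h2.1.2, h2.2.2⟩

/-- A connection inside `L` avoids `B` or passes through a point of `B`. -/
lemma AnFac_dec {p : ℝ} (h0 : 0 ≤ p) (h1 : p ≤ 1) (L : Set (V d)) (B : Finset (V d))
    (w x : V d) : perc d p {ω | Cn L ω w x} ≤ perc d p {ω | Cn (L \ (B : Set (V d))) ω w x} +
      ∑ z ∈ B, tau d p (z - w) * tau d p (x - z) := by
  have hsub : {ω : Cfg d | Cn L ω w x} ⊆ {ω | Cn (L \ (B : Set (V d))) ω w x} ∪
      ⋃ z ∈ B, disj (SCn {w} Set.univ z) (SCn {z} Set.univ x) := by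
    intro ω hω
    have h2 : x ∈ cluster (cut L ω) w := hω
    rcases off_dec B w x (cut L ω) h2 with h | ⟨z, hz, h⟩
    · left
      rw [AnFac_cut] at h
      exact h
    · right
      refine Set.mem_iUnion₂.2 ⟨z, hz, ?_⟩
      refine disj_inc (SCn_inc _ _ _) (SCn_inc _ _ _) _ _ (fun e he => ?_) h
      exact (cut_true.1 he).1
  refine (measure_mono hsub).trans ((measure_union_le _ _).trans (add_le_add le_rfl ?_))
  refine (measure_biUnion_finset_le _ _).trans ?_
  exact Finset.sum_le_sum fun z _ => bk_two h0 h1 w z x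

/-- The event that the cluster without the edge `e` equals `B` depends on the edges touching
`B`. -/
lemma AnFac_dep (L B : Set (V d)) (e : Ed d) (v : V d) (ω ω' : Cfg d)
    (h : ∀ e' ∈ touch B, ω e' = ω' e') (hω : Ct L e ω v = B) : Ct L e ω' v = B := by
  have hω2 : cluster (cut L (Function.update ω e false)) v = B := hω
  show cluster (cut L (Function.update ω' e false)) v = B
  refine cluster_congr hω2 fun a ha s => ?_
  have h2 := h _ (edge_mem_touch ha s)
  apply Bool.eq_iff_iff.2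
  rw [cut_edge, cut_edge]
  by_cases he : edge a s = e
  · rw [he, Function.update_self, Function.update_self]
  · rw [Function.update_of_ne he, Function.update_of_ne he, h2]

/-- The cluster without an edge is contained in the cluster. -/
lemma AnFac_sub (L : Set (V d)) (e : Ed d) (v : V d) (ω : Cfg d) :
    Ct L e ω v ⊆ cluster ω v := by
  intro y hy
  have h : Cn L (Function.update ω e false) v y := hy
  refine Cn_univ.1 (h.mono (Set.subset_univ _) fun e' he' => ?_)
  by_cases h2 : e' = e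
  · rw [h2, Function.update_self] at he'
    exact absurd he' (by simp)
  · rwa [Function.update_of_ne h2] at he'

theorem an_fac {p : ℝ} (h0 : 0 ≤ p) (h1 : p ≤ 1) (n : ℕ) (u : V d) (s : Dir d) (x : V d) :
    perc d p {ω | u ∈ Ct (Bx 0 n) (edge u s) ω 0} *
        perc d p {ω | Cn (Bx 0 n) ω (u + step s) x} ≤
      perc d p (PV (Bx 0 n) u s x) + ∑' z : V d,
        perc d p {ω | u ∈ cluster ω 0 ∧ z ∈ cluster ω 0} *
          (tau d p (z - (u + step s)) * tau d p (x - z)) := by
  classical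
  have hP := isProb_perc (d := d) p h0 h1
  set L : Set (V d) := Bx 0 n with hL
  set e : Ed d := edge u s with he
  set w : V d := u + step s with hw
  set f : V d → ℝ≥0∞ := fun z => tau d p (z - w) * tau d p (x - z) with hf
  set PP : Finset (Finset (V d)) := (Box d n).powerset.filter (fun B => u ∈ B) with hPP
  have h0L : (0 : V d) ∈ L := by
    rw [hL, mem_Bx, sub_self, nm_zero]
    exact Nat.zero_le _
  have hCtL : ∀ ω : Cfg d, Ct L e ω 0 ⊆ L := fun ω y hy => Cn.mem hy h0L
  -- decomposition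
  have hdec : perc d p {ω | u ∈ Ct L e ω 0} ≤
      ∑ B ∈ PP, perc d p {ω | Ct L e ω 0 = (B : Set (V d))} := by
    have hsub : {ω : Cfg d | u ∈ Ct L e ω 0} ⊆
        ⋃ B ∈ PP, {ω | Ct L e ω 0 = (B : Set (V d))} := by
      intro ω hω
      have hω' : u ∈ Ct L e ω 0 := hω
      refine Set.mem_iUnion₂.2 ⟨(Box d n).filter (fun y => y ∈ Ct L e ω 0), ?_, ?_⟩
      · rw [hPP, Finset.mem_filter, Finset.mem_powerset]
        refine ⟨Finset.filter_subset _ _, ?_⟩
        rw [Finset.mem_filter]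
        exact ⟨mem_Box'.2 (mem_Bx0.1 (hCtL ω hω')), hω'⟩
      · show Ct L e ω 0 = (((Box d n).filter (fun y => y ∈ Ct L e ω 0) : Finset (V d)) : Set (V d))
        ext y
        rw [Finset.mem_coe, Finset.mem_filter]
        exact ⟨fun hy => ⟨mem_Box'.2 (mem_Bx0.1 (hCtL ω hy)), hy⟩, fun hy => hy.2⟩
    exact (measure_mono hsub).trans (measure_biUnion_finset_le _ _)
  -- disjointness
  have hdisj : ∀ Q : Finset (Finset (V d)), ∀ A : Finset (V d) → Set (Cfg d),
      (∀ B, MeasurableSet (A B)) →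
      ∑ B ∈ Q, perc d p (A B ∩ {ω | Ct L e ω 0 = (B : Set (V d))}) =
        perc d p (⋃ B ∈ Q, A B ∩ {ω | Ct L e ω 0 = (B : Set (V d))}) := by
    intro Q A hA
    rw [measure_biUnion_finset]
    · intro B _ B' _ hBB
      refine Set.disjoint_left.2 fun ω h2 h3 => hBB ?_
      have h4 : Ct L e ω 0 = (B : Set (V d)) := h2.2
      have h5 : Ct L e ω 0 = (B' : Set (V d)) := h3.2
      exact Finset.coe_injective (h4.symm.trans h5)
    · intro B _
      exact (hA B).inter (meas_Ct L e 0 B)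
  -- independence
  have hind : ∀ B : Finset (V d),
      perc d p ({ω | Cn (L \ (B : Set (V d))) ω w x} ∩ {ω | Ct L e ω 0 = (B : Set (V d))}) =
        perc d p {ω | Cn (L \ (B : Set (V d))) ω w x} *
          perc d p {ω | Ct L e ω 0 = (B : Set (V d))} := by
    intro B
    refine indep_split (ι := Ed d) h0 h1 (touch (B : Set (V d))) _ _ (meas_Ct L e 0 B)
      (meas_Cn _ _ _) (fun ω ω' h hω => AnFac_dep L B e 0 ω ω' h hω) ?_
    intro ω ω' h hω
    refine Cn.congr hω fun e' he' => h e' ?_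
    rintro (h2 | h2)
    · exact he'.1.2 h2
    · exact he'.2.2 h2
  -- one set
  have hone : ∀ B ∈ PP, perc d p {ω | Ct L e ω 0 = (B : Set (V d))} *
      perc d p {ω | Cn L ω w x} ≤ (if w ∈ B then 0 else
        perc d p ({ω | Cn (L \ (B : Set (V d))) ω w x} ∩
          {ω | Ct L e ω 0 = (B : Set (V d))})) +
        perc d p {ω | Ct L e ω 0 = (B : Set (V d))} * ∑ z ∈ B, f z := by
    intro B _
    by_cases hwB : w ∈ B
    · rw [if_pos hwB, zero_add]
      refine mul_le_mul' le_rfl ?_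
      have h2 : perc d p {ω | Cn L ω w x} ≤ f w := by
        have h3 : perc d p {ω | Cn L ω w x} ≤ tau d p (x - w) := by
          rw [← prob_cluster_mem p h0 h1 w x]
          exact measure_mono fun ω hω => Cn.cluster hω
        have h4 : tau d p (0 : V d) = 1 := by
          have h5 : {ω : Cfg d | (0 : V d) ∈ cluster ω 0} = Set.univ :=
            Set.eq_univ_of_forall fun ω => mem_cluster_self ω 0
          unfold tau
          rw [h5]
          exact measure_univ
        rw [hf]
        simp only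
        rw [sub_self, h4, one_mul]
        exact h3
      exact h2.trans (Finset.single_le_sum (f := f) (fun _ _ => zero_le) hwB)
    · rw [if_neg hwB, hind B, mul_comm (perc d p {ω | Cn (L \ (B : Set (V d))) ω w x}), ← mul_add]
      exact mul_le_mul' le_rfl (AnFac_dec h0 h1 L B w x)
  -- first sum
  have hfirst : ∑ B ∈ PP, (if w ∈ B then 0 else
        perc d p ({ω | Cn (L \ (B : Set (V d))) ω w x} ∩
          {ω | Ct L e ω 0 = (B : Set (V d))})) ≤ perc d p (PV L u s x) := by
    have h2 : ∑ B ∈ PP, (if w ∈ B then 0 else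
        perc d p ({ω | Cn (L \ (B : Set (V d))) ω w x} ∩
          {ω | Ct L e ω 0 = (B : Set (V d))})) =
        ∑ B ∈ PP.filter (fun B => w ∉ B),
          perc d p ({ω | Cn (L \ (B : Set (V d))) ω w x} ∩
            {ω | Ct L e ω 0 = (B : Set (V d))}) := by
      refine Eq.trans ?_ (Finset.sum_filter (s := PP) (fun B => w ∉ B) (fun B =>
        perc d p ({ω | Cn (L \ (B : Set (V d))) ω w x} ∩
          {ω | Ct L e ω 0 = (B : Set (V d))}))).symm
      refine Finset.sum_congr rfl fun B _ => ?_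
      by_cases h : w ∈ B
      · simp [h]
      · simp [h]
    rw [h2, hdisj _ (fun B => {ω | Cn (L \ (B : Set (V d))) ω w x}) (fun B => meas_Cn _ _ _)]
    refine measure_mono ?_
    intro ω hω
    obtain ⟨B, hB, h3, h4⟩ := Set.mem_iUnion₂.1 hω
    rw [Finset.mem_filter, hPP, Finset.mem_filter] at hB
    have h4' : Ct L e ω 0 = (B : Set (V d)) := h4
    have h3' : Cn (L \ (B : Set (V d))) ω w x := h3
    show u ∈ Ct L (edge u s) ω 0 ∧ u + step s ∉ Ct L (edge u s) ω 0 ∧
      Cn (L \ Ct L (edge u s) ω 0) ω (u + step s) x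
    rw [← he, ← hw, h4']
    exact ⟨Finset.mem_coe.2 hB.1.2, fun h => hB.2 (Finset.mem_coe.1 h), h3'⟩
  -- second sum
  have hsecond : ∑ B ∈ PP, perc d p {ω | Ct L e ω 0 = (B : Set (V d))} * ∑ z ∈ B, f z ≤
      ∑' z : V d, perc d p {ω | u ∈ cluster ω 0 ∧ z ∈ cluster ω 0} * f z := by
    have h2 : ∀ B ∈ PP, perc d p {ω | Ct L e ω 0 = (B : Set (V d))} * ∑ z ∈ B, f z =
        ∑ z ∈ Box d n, (if z ∈ B then perc d p {ω | Ct L e ω 0 = (B : Set (V d))} else 0) *
          f z := by
      intro B hB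
      rw [hPP, Finset.mem_filter, Finset.mem_powerset] at hB
      rw [Finset.mul_sum, ← Finset.sum_subset hB.1]
      · refine Finset.sum_congr rfl fun z hz => ?_
        rw [if_pos hz]
      · intro z _ hz
        rw [if_neg hz, zero_mul]
    rw [Finset.sum_congr rfl h2, Finset.sum_comm]
    refine le_trans (Finset.sum_le_sum fun z _ => ?_) (ENNReal.sum_le_tsum (Box d n))
    rw [← Finset.sum_mul]
    refine mul_le_mul' ?_ le_rfl
    have h3 : ∑ B ∈ PP, (if z ∈ B then perc d p {ω | Ct L e ω 0 = (B : Set (V d))} else 0) =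
        ∑ B ∈ PP.filter (fun B => z ∈ B),
          perc d p (Set.univ ∩ {ω | Ct L e ω 0 = (B : Set (V d))}) := by
      refine Eq.trans ?_ (Finset.sum_filter (s := PP) (fun B => z ∈ B) (fun B =>
        perc d p (Set.univ ∩ {ω | Ct L e ω 0 = (B : Set (V d))}))).symm
      refine Finset.sum_congr rfl fun B _ => ?_
      rw [Set.univ_inter]
    rw [h3, hdisj _ (fun _ => Set.univ) (fun _ => MeasurableSet.univ)]
    refine measure_mono ?_
    intro ω hω
    obtain ⟨B, hB, -, h4⟩ := Set.mem_iUnion₂.1 hω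
    rw [Finset.mem_filter, hPP, Finset.mem_filter] at hB
    have h4' : Ct L e ω 0 = (B : Set (V d)) := h4
    have h5 : (B : Set (V d)) ⊆ cluster ω 0 := by
      rw [← h4']
      exact AnFac_sub L e 0 ω
    exact ⟨h5 (Finset.mem_coe.2 hB.1.2), h5 (Finset.mem_coe.2 hB.2)⟩
  calc perc d p {ω | u ∈ Ct L e ω 0} * perc d p {ω | Cn L ω w x}
      ≤ (∑ B ∈ PP, perc d p {ω | Ct L e ω 0 = (B : Set (V d))}) *
        perc d p {ω | Cn L ω w x} := mul_le_mul' hdec le_rfl
    _ = ∑ B ∈ PP, perc d p {ω | Ct L e ω 0 = (B : Set (V d))} *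
        perc d p {ω | Cn L ω w x} := Finset.sum_mul _ _ _
    _ ≤ ∑ B ∈ PP, ((if w ∈ B then 0 else
        perc d p ({ω | Cn (L \ (B : Set (V d))) ω w x} ∩
          {ω | Ct L e ω 0 = (B : Set (V d))})) +
        perc d p {ω | Ct L e ω 0 = (B : Set (V d))} * ∑ z ∈ B, f z) := Finset.sum_le_sum hone
    _ = (∑ B ∈ PP, (if w ∈ B then 0 else
        perc d p ({ω | Cn (L \ (B : Set (V d))) ω w x} ∩
          {ω | Ct L e ω 0 = (B : Set (V d))}))) +
        ∑ B ∈ PP, perc d p {ω | Ct L e ω 0 = (B : Set (V d))} * ∑ z ∈ B, f z :=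
        Finset.sum_add_distrib
    _ ≤ _ := add_le_add hfirst hsecond

end SH
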