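import Pool.Agent.H29.SH.AnDer
import Pool.Agent.H29.CF.Thin

/-!
PROJECT LE (MP_0d9ad5_pr), block SH, Aizenman-Newman. The limit of large boxes.
-/

namespace SH

open H5DF H5CF H95LBD H95LBS MeasureTheory
open scoped ENNReal

variable {d : ℕ}

/-- The triangle sum: with a tree for `u, z` and a line from `u + y` to `z`. -/
lemma sum_tri {p : ℝ} (h0 : 0 ≤ p) (h1 : p ≤ 1) (f : V d → ℝ≥0∞) (y : V d) :
    ∑' u : V d, ∑' z : V d, (∑' a : V d, f a * (tau d p (u - a) * tau d p (z - a))) *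
      tau d p (z - (u + y)) = (∑' a : V d, f a) * T3 d p y := by
  have e1 : ∀ u z : V d, (∑' a : V d, f a * (tau d p (u - a) * tau d p (z - a))) *
      tau d p (z - (u + y)) =
      ∑' a : V d, f a * (tau d p (u - a) * tau d p (z - a) * tau d p (z - (u + y))) := by
    intro u z
    rw [← ENNReal.tsum_mul_right]
    exact tsum_congr fun a => by ring
  have e2 : ∀ u : V d, ∑' z : V d, (∑' a : V d, f a * (tau d p (u - a) * tau d p (z - a))) *
      tau d p (z - (u + y)) =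
      ∑' a : V d, ∑' z : V d,
        f a * (tau d p (u - a) * tau d p (z - a) * tau d p (z - (u + y))) := by
    intro u
    rw [tsum_congr (e1 u), ENNReal.tsum_comm]
  rw [tsum_congr e2, ENNReal.tsum_comm, ← ENNReal.tsum_mul_right]
  refine tsum_congr fun a => ?_
  rw [T3, ← ENNReal.tsum_mul_left, ← (Equiv.subLeft a).tsum_eq]
  refine tsum_congr fun a' => ?_
  rw [← ENNReal.tsum_mul_left, Equiv.subLeft_apply, ← (Equiv.addLeft (a - a')).tsum_eq]
  refine tsum_congr fun b => ?_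
  rw [Equiv.coe_addLeft]
  have e3 : a - a' - a = -a' := by abel
  have e4 : a - a' + b - a = b - a' := by abel
  have e5 : a - a' + b - (a - a' + y) = -(y - b) := by abel
  rw [e3, e4, e5, tau_neg p h0 h1, tau_neg p h0 h1]

/-- Monotone limits in an inequality with a series. -/
lemma AnLim_sup {ι : Type*} (a : ℕ → ℝ≥0∞) (g : ℕ → ι → ℝ≥0∞) (ha : Monotone a)
    (hg : ∀ b, Monotone fun n => g n b) (c R : ℝ≥0∞) (h : ∀ n, a n + c * ∑' b, g n b ≤ R) :
    (⨆ n, a n) + c * ∑' b, ⨆ n, g n b ≤ R := by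
  classical
  rw [ENNReal.tsum_eq_iSup_sum, ENNReal.mul_iSup, ENNReal.add_iSup]
  refine iSup_le fun s => ?_
  rw [ENNReal.finsetSum_iSup_of_monotone (fun b => hg b), ENNReal.mul_iSup,
    ENNReal.iSup_add_iSup_of_monotone ha]
  · refine iSup_le fun n => ?_
    exact (add_le_add le_rfl (mul_le_mul' le_rfl (ENNReal.sum_le_tsum s))).trans (h n)
  · intro n m hnm
    exact mul_le_mul' le_rfl (Finset.sum_le_sum fun b _ => hg b hnm)

lemma AnLim_mul (f g : ℕ → ℝ≥0∞) (hf : Monotone f) (hg : Monotone g) :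
    (⨆ n, f n) * (⨆ n, g n) = ⨆ n, f n * g n := by
  refine le_antisymm ?_ ?_
  · rw [ENNReal.iSup_mul]
    refine iSup_le fun n => ?_
    rw [ENNReal.mul_iSup]
    refine iSup_le fun m => ?_
    exact (mul_le_mul' (hf (le_max_left n m)) (hg (le_max_right n m))).trans
      (le_iSup (fun k => f k * g k) (max n m))
  · exact iSup_le fun n => mul_le_mul' (le_iSup f n) (le_iSup g n)

/-- Connections in large boxes. -/
lemma AnLim_Cn {ω : Cfg d} {x y : V d} (h : Cn Set.univ ω x y) : ∃ n, Cn (Bx 0 n) ω x y := by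
  have h2 : ω ∈ SCn ({x} : Finset (V d)) Set.univ y := ⟨x, Finset.mem_singleton_self _, h⟩
  obtain ⟨n, hn⟩ := SCn_fw _ _ _ ω h2
  obtain ⟨u, hu, hn⟩ := hn
  rw [Finset.mem_singleton] at hu
  subst hu
  exact ⟨n, Cn_univ.1 hn⟩

lemma AnLim_Bx {n m : ℕ} (h : n ≤ m) : Bx (0 : V d) n ⊆ Bx 0 m := fun _ hy => le_trans hy h

lemma AnLim_mono_Cn (p : ℝ) (x y : V d) :
    Monotone fun n : ℕ => perc d p {ω | Cn (Bx 0 n) ω x y} := by
  intro n m h
  exact measure_mono fun ω hω => Cn.mono hω (AnLim_Bx h) fun _ h => h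

lemma AnLim_iSup_Cn {p : ℝ} (h0 : 0 ≤ p) (h1 : p ≤ 1) (x y : V d) :
    ⨆ n : ℕ, perc d p {ω | Cn (Bx 0 n) ω x y} = tau d p (y - x) := by
  rw [← prob_cluster_mem p h0 h1 x y]
  have e1 : {ω : Cfg d | y ∈ cluster ω x} = ⋃ n : ℕ, {ω | Cn (Bx 0 n) ω x y} := by
    ext ω
    rw [Set.mem_iUnion]
    constructor
    · intro h
      exact AnLim_Cn (Cn_univ.2 h)
    · rintro ⟨n, hn⟩
      exact Cn.cluster hn
  have e2 : Monotone fun n : ℕ => {ω : Cfg d | Cn (Bx 0 n) ω x y} :=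
    fun n m h ω hω => Cn.mono hω (AnLim_Bx h) fun _ h => h
  rw [e1, e2.measure_iUnion]

lemma AnLim_mono_Ct (p : ℝ) (e : Ed d) (y : V d) :
    Monotone fun n : ℕ => perc d p {ω | y ∈ Ct (Bx 0 n) e ω 0} := by
  intro n m h
  exact measure_mono fun ω hω => Cn.mono hω (AnLim_Bx h) fun _ h => h

lemma AnLim_iSup_Ct (p : ℝ) (e : Ed d) (y : V d) :
    ⨆ n : ℕ, perc d p {ω | y ∈ Ct (Bx 0 n) e ω 0} = perc d p {ω | y ∈ Ct Set.univ e ω 0} := by
  have e1 : {ω : Cfg d | y ∈ Ct Set.univ e ω 0} = ⋃ n : ℕ, {ω | y ∈ Ct (Bx 0 n) e ω 0} := by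
    ext ω
    rw [Set.mem_iUnion]
    constructor
    · intro h
      exact AnLim_Cn h
    · rintro ⟨n, hn⟩
      exact Cn.mono hn (Set.subset_univ _) fun _ h => h
  have e2 : Monotone fun n : ℕ => {ω : Cfg d | y ∈ Ct (Bx 0 n) e ω 0} :=
    fun n m h ω hω => Cn.mono hω (AnLim_Bx h) fun _ h => h
  rw [e1, e2.measure_iUnion]

lemma AnLim_mem_EP {b : V d × Dir d} {n m : ℕ} (h : n ≤ m) (hb : b ∈ EP d n) : b ∈ EP d m := by
  unfold EP at hb ⊢
  simp only [Finset.mem_filter, Finset.mem_product, Finset.mem_univ, and_true, mem_Box'] at hb ⊢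
  exact ⟨hb.1.trans h, hb.2.trans h⟩

lemma AnLim_ex_EP (b : V d × Dir d) : ∃ n, b ∈ EP d n := by
  refine ⟨max (nm b.1) (nm (b.1 + step b.2)), ?_⟩
  unfold EP
  simp only [Finset.mem_filter, Finset.mem_product, Finset.mem_univ, and_true, mem_Box']
  exact ⟨le_max_left _ _, le_max_right _ _⟩

/-- The inequality for a fixed end point. -/
lemma AnLim_pt {p q : ℝ} (h0 : 0 < p) (hpq : p < q) (h1 : q < 1) (x : V d) :
    tau d p x + ENNReal.ofReal (q - p) * ∑' b : V d × Dir d,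
        perc d p {ω | b.1 ∈ Ct Set.univ (edge b.1 b.2) ω 0} * tau d p (x - (b.1 + step b.2)) ≤
      tau d q x + ENNReal.ofReal (q - p) * ∑' b : V d × Dir d, ∑' z : V d,
        perc d q {ω | b.1 ∈ cluster ω 0 ∧ z ∈ cluster ω 0} *
          (tau d q (z - (b.1 + step b.2)) * tau d q (x - z)) := by
  classical
  have hp1 : p ≤ 1 := (hpq.trans h1).le
  set a : ℕ → ℝ≥0∞ := fun n => perc d p {ω | Cn (Bx 0 n) ω 0 x} with ha
  set g : ℕ → V d × Dir d → ℝ≥0∞ := fun n b => if b ∈ EP d n then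
    perc d p {ω | b.1 ∈ Ct (Bx 0 n) (edge b.1 b.2) ω 0} *
      perc d p {ω | Cn (Bx 0 n) ω (b.1 + step b.2) x} else 0 with hg
  have hga : ∀ b, Monotone fun n => g n b := by
    intro b n m h
    simp only [hg]
    by_cases hb : b ∈ EP d n
    · rw [if_pos hb, if_pos (AnLim_mem_EP h hb)]
      exact mul_le_mul' (AnLim_mono_Ct p _ _ h) (AnLim_mono_Cn p _ _ h)
    · rw [if_neg hb]
      exact zero_le
  have hsup : ∀ b, ⨆ n, g n b = perc d p {ω | b.1 ∈ Ct Set.univ (edge b.1 b.2) ω 0} *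
      tau d p (x - (b.1 + step b.2)) := by
    intro b
    rw [← AnLim_iSup_Ct, ← AnLim_iSup_Cn h0.le hp1,
      AnLim_mul _ _ (AnLim_mono_Ct p _ _) (AnLim_mono_Cn p _ _)]
    obtain ⟨n0, hn0⟩ := AnLim_ex_EP b
    refine le_antisymm (iSup_mono fun n => ?_) (iSup_le fun n => ?_)
    · simp only [hg]
      split_ifs
      · exact le_rfl
      · exact zero_le
    · refine le_trans ?_ (le_iSup _ (max n n0))
      simp only [hg]
      rw [if_pos (AnLim_mem_EP (le_max_right _ _) hn0)]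
      exact mul_le_mul' (AnLim_mono_Ct p _ _ (le_max_left _ _))
        (AnLim_mono_Cn p _ _ (le_max_left _ _))
  have key := AnLim_sup a g (AnLim_mono_Cn p 0 x) hga (ENNReal.ofReal (q - p))
    (tau d q x + ENNReal.ofReal (q - p) * ∑' b : V d × Dir d, ∑' z : V d,
        perc d q {ω | b.1 ∈ cluster ω 0 ∧ z ∈ cluster ω 0} *
          (tau d q (z - (b.1 + step b.2)) * tau d q (x - z))) ?_
  · rw [ha, AnLim_iSup_Cn h0.le hp1, sub_zero, tsum_congr hsup] at key
    exact key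
  · intro n
    have e1 : ∑' b, g n b = ∑ b ∈ EP d n,
        perc d p {ω | b.1 ∈ Ct (Bx 0 n) (edge b.1 b.2) ω 0} *
          perc d p {ω | Cn (Bx 0 n) ω (b.1 + step b.2) x} := by
      rw [tsum_eq_sum (s := EP d n) fun b hb => if_neg hb]
      exact Finset.sum_congr rfl fun b hb => if_pos hb
    rw [e1]
    refine (an_der h0 hpq h1 n x).trans (add_le_add ?_ (mul_le_mul' le_rfl ?_))
    · exact measure_mono fun ω hω => Cn.cluster hω
    · exact ENNReal.sum_le_tsum _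

/-- Sum over a translate. -/
lemma AnLim_shift (p : ℝ) (w : V d) : ∑' x : V d, tau d p (x - w) = chi d p :=
  (Equiv.subRight w).tsum_eq (tau d p)

lemma AnLim_tree {p : ℝ} (h0 : 0 ≤ p) (h1 : p ≤ 1) (u z : V d) :
    perc d p {ω | u ∈ cluster ω 0 ∧ z ∈ cluster ω 0} ≤
      ∑' a : V d, tau d p a * (tau d p (u - a) * tau d p (z - a)) := by
  have h := off_tree h0 h1 (∅ : Finset (V d)) 0 u z
  have e : ∀ ζ : Cfg d, cut (((∅ : Finset (V d)) : Set (V d))ᶜ) ζ = ζ := by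
    intro ζ
    funext e
    simp [cut]
  simp only [e, off_empty h0 h1, sub_zero] at h
  exact h

theorem an_lim {p q : ℝ} (h0 : 0 < p) (hpq : p < q) (h1 : q < 1) :
    chi d p + ENNReal.ofReal (q - p) * (YY d p * chi d p) ≤
      chi d q + ENNReal.ofReal (q - p) * (chi d q ^ 2 * ∑ s : Dir d, T3 d q (step s)) := by
  have hq0 : 0 ≤ q := (h0.trans hpq).le
  have h := ENNReal.tsum_le_tsum fun x : V d => AnLim_pt h0 hpq h1 x
  rw [ENNReal.tsum_add, ENNReal.tsum_add, ENNReal.tsum_mul_left, ENNReal.tsum_mul_left] at h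
  have e1 : ∑' x : V d, ∑' b : V d × Dir d,
      perc d p {ω | b.1 ∈ Ct Set.univ (edge b.1 b.2) ω 0} * tau d p (x - (b.1 + step b.2)) =
      YY d p * chi d p := by
    rw [ENNReal.tsum_comm]
    simp only [ENNReal.tsum_mul_left, AnLim_shift]
    rw [ENNReal.tsum_mul_right, ENNReal.tsum_prod' (f := fun b : V d × Dir d =>
      perc d p {ω | b.1 ∈ Ct Set.univ (edge b.1 b.2) ω 0})]
    congr 1
    unfold YY
    exact tsum_congr fun u => tsum_fintype _
  have e2 : ∑' x : V d, ∑' b : V d × Dir d, ∑' z : V d,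
      perc d q {ω | b.1 ∈ cluster ω 0 ∧ z ∈ cluster ω 0} *
        (tau d q (z - (b.1 + step b.2)) * tau d q (x - z)) =
      (∑' b : V d × Dir d, ∑' z : V d, perc d q {ω | b.1 ∈ cluster ω 0 ∧ z ∈ cluster ω 0} *
        tau d q (z - (b.1 + step b.2))) * chi d q := by
    rw [ENNReal.tsum_comm, ← ENNReal.tsum_mul_right]
    refine tsum_congr fun b => ?_
    rw [ENNReal.tsum_comm, ← ENNReal.tsum_mul_right]
    refine tsum_congr fun z => ?_
    rw [ENNReal.tsum_mul_left, ENNReal.tsum_mul_left, AnLim_shift, mul_assoc]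
  rw [e1, e2] at h
  refine h.trans (add_le_add le_rfl (mul_le_mul' le_rfl ?_))
  have e3 : ∑' b : V d × Dir d, ∑' z : V d, perc d q {ω | b.1 ∈ cluster ω 0 ∧ z ∈ cluster ω 0} *
      tau d q (z - (b.1 + step b.2)) ≤ ∑ s : Dir d, chi d q * T3 d q (step s) := by
    rw [ENNReal.tsum_prod' (f := fun b : V d × Dir d => ∑' z : V d,
      perc d q {ω | b.1 ∈ cluster ω 0 ∧ z ∈ cluster ω 0} * tau d q (z - (b.1 + step b.2))),
      ENNReal.tsum_comm, tsum_fintype]
    refine Finset.sum_le_sum fun s _ => ?_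
    have e4 := sum_tri hq0 h1.le (tau d q) (step s)
    rw [chi, ← e4]
    refine ENNReal.tsum_le_tsum fun u => ENNReal.tsum_le_tsum fun z => ?_
    exact mul_le_mul' (AnLim_tree hq0 h1.le u z) le_rfl
  refine (mul_le_mul' e3 le_rfl).trans (le_of_eq ?_)
  rw [← Finset.mul_sum]
  ring

end SH
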