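import Pool.Agent.H29.SH.Defs

/-!
PROJECT LE (MP_0d9ad5_pr), block SH, Aizenman-Newman. Russo's formula in a box.
-/

namespace SH

open H5DF H5CF H95LBD H95LBS MeasureTheory
open scoped ENNReal

variable {d : ℕ}

lemma AnRus_measurable_cu (S : Set (V d)) (e : Ed d) :
    Measurable (fun ω : Cfg d => cut S (Function.update ω e false)) :=
  (measurable_cut S).comp (measurable_upd e false)

lemma meas_Ct (S : Set (V d)) (e : Ed d) (v : V d) (B : Set (V d)) :
    MeasurableSet {ω : Cfg d | Ct S e ω v = B} :=
  AnRus_measurable_cu S e (meas_cluster_eq v B)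

lemma meas_Ct_mem (S : Set (V d)) (e : Ed d) (v y : V d) :
    MeasurableSet {ω : Cfg d | y ∈ Ct S e ω v} :=
  AnRus_measurable_cu S e (meas_reach v y)

lemma AnRus_Ct_subset (S : Set (V d)) (e : Ed d) (ω : Cfg d) (v : V d) :
    Ct S e ω v ⊆ insert v S := by
  intro y hy
  refine Cn.ind (fun y => y ∈ insert v S) (Set.mem_insert _ _) ?_ hy
  intro y s _ _ _ hs _
  exact Set.mem_insert_of_mem _ hs

lemma meas_PV (S : Finset (V d)) (u : V d) (s : Dir d) (x : V d) :
    MeasurableSet (PV (S : Set (V d)) u s x) := by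
  classical
  have h : PV (S : Set (V d)) u s x = ⋃ B ∈ (insert (0 : V d) S).powerset,
      ({ω : Cfg d | Ct (S : Set (V d)) (edge u s) ω 0 = (B : Set (V d))} ∩
        ({ω : Cfg d | u ∈ B ∧ u + step s ∉ B} ∩
          {ω : Cfg d | Cn ((S : Set (V d)) \ (B : Set (V d))) ω (u + step s) x})) := by
    ext ω
    simp only [PV, Set.mem_iUnion, Set.mem_inter_iff, Set.mem_ofPred_eq, Finset.mem_powerset,
      exists_prop]
    constructor
    · rintro ⟨h1, h2, h3⟩
      have hsub := AnRus_Ct_subset (S : Set (V d)) (edge u s) ω 0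
      have hfin : (Ct (S : Set (V d)) (edge u s) ω 0).Finite :=
        ((S.finite_toSet).insert (0 : V d)).subset hsub
      refine ⟨hfin.toFinset, ?_, ?_, ⟨?_, ?_⟩, ?_⟩
      · intro y hy
        have h4 := hsub (hfin.mem_toFinset.1 hy)
        rw [Finset.mem_insert]
        rcases h4 with h4 | h4
        · exact Or.inl h4
        · exact Or.inr (Finset.mem_coe.1 h4)
      · rw [hfin.coe_toFinset]
      · exact hfin.mem_toFinset.2 h1
      · intro h4
        exact h2 (hfin.mem_toFinset.1 h4)
      · rw [hfin.coe_toFinset]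
        exact h3
    · rintro ⟨B, -, h1, ⟨h2, h3⟩, h4⟩
      rw [h1]
      exact ⟨h2, h3, h4⟩
  rw [h]
  refine Finset.measurableSet_biUnion _ fun B _ => ?_
  exact (meas_Ct _ _ _ _).inter ((MeasurableSet.const _).inter (meas_Cn _ _ _))

lemma AnRus_Box_eq (n : ℕ) : Bx (0 : V d) n = (Box d n : Set (V d)) := by
  ext y
  rw [mem_Bx0, Finset.mem_coe, mem_Box']

lemma AnRus_meas_PV (n : ℕ) (u : V d) (s : Dir d) (x : V d) :
    MeasurableSet (PV (Bx (0 : V d) n) u s x) := by
  rw [AnRus_Box_eq]
  exact meas_PV _ _ _ _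

lemma AnRus_piv {S : Set (V d)} {u : V d} {s : Dir d} {x : V d} {ω : Cfg d}
    (hu : u ∈ S) (hw : u + step s ∈ S) (h : ω ∈ PV S u s x) :
    Cn S (Function.update ω (edge u s) true) 0 x ∧
      ¬ Cn S (Function.update ω (edge u s) false) 0 x := by
  obtain ⟨h1, h2, h3⟩ := h
  constructor
  · have h4 : Cn S (Function.update ω (edge u s) true) 0 u := by
      refine Cn.mono h1 (Set.Subset.refl _) ?_
      intro e he
      by_cases hee : e = edge u s
      · subst hee
        simp at he
      · rw [Function.update_of_ne hee] at he ⊢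
        exact he
    have h5 : Cn S (Function.update ω (edge u s) true) u (u + step s) :=
      Cn.one (by simp) hu hw
    have h6 : Cn S (Function.update ω (edge u s) true) (u + step s) x := by
      refine Cn.mono h3 Set.sdiff_subset ?_
      intro e he
      by_cases hee : e = edge u s
      · subst hee
        simp
      · rw [Function.update_of_ne hee]
        exact he
    exact (h4.trans h5).trans h6
  · intro h4
    have h5 := Cn.mem h3 ⟨hw, h2⟩
    exact h5.2 h4

lemma AnRus_disj (S : Set (V d)) (u : V d) (s : Dir d) (x : V d) :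
    Disjoint (PV S u s x) (PV S (u + step s) (opp s) x) := by
  rw [Set.disjoint_left]
  intro ω h1 h2
  have h3 := h2.1
  rw [edge_opp] at h3
  exact h1.2.1 h3

lemma AnRus_upd_mono (S : Set (V d)) (e : Ed d) (ω : Cfg d) (x : V d)
    (h : Cn S (Function.update ω e false) 0 x) : Cn S (Function.update ω e true) 0 x := by
  refine Cn.mono h (Set.Subset.refl _) ?_
  intro e' he
  by_cases hee : e' = e
  · subst hee
    simp
  · rw [Function.update_of_ne hee] at he ⊢
    exact he

lemma AnRus_pair {p : ℝ} (h0 : 0 < p) (h1 : p < 1) (S : Finset (V d)) (u : V d) (s : Dir d)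
    (x : V d) (hu : u ∈ S) (hw : u + step s ∈ S) :
    (perc d p).real (PV (S : Set (V d)) u s x) +
      (perc d p).real (PV (S : Set (V d)) (u + step s) (opp s) x) ≤
      (perc d p).real {ω | Cn (S : Set (V d)) (Function.update ω (edge u s) true) 0 x} -
        (perc d p).real {ω | Cn (S : Set (V d)) (Function.update ω (edge u s) false) 0 x} := by
  have hpr := isProb_perc (d := d) p h0.le h1.le
  rw [← measureReal_union (AnRus_disj _ _ _ _) (meas_PV _ _ _ _)]
  have hmf : MeasurableSet
      {ω : Cfg d | Cn (S : Set (V d)) (Function.update ω (edge u s) false) 0 x} :=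
    measurable_upd (edge u s) false (meas_Cn _ _ _)
  have hsub : {ω : Cfg d | Cn (S : Set (V d)) (Function.update ω (edge u s) false) 0 x} ⊆
      {ω : Cfg d | Cn (S : Set (V d)) (Function.update ω (edge u s) true) 0 x} :=
    fun ω hω => AnRus_upd_mono _ _ _ _ hω
  rw [← measureReal_sdiff hsub hmf]
  refine measureReal_mono ?_
  rintro ω (h | h)
  · exact AnRus_piv (Finset.mem_coe.2 hu) (Finset.mem_coe.2 hw) h
  · have h2 : u + step s + step (opp s) = u := by
      rw [step_opp]
      abel
    have h3 := AnRus_piv (Finset.mem_coe.2 hw) (by rw [h2]; exact Finset.mem_coe.2 hu) h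
    rw [edge_opp] at h3
    exact h3

lemma AnRus_fiber {u : V d} {s : Dir d} {e : Ed d} (h : edge u s = e) :
    (u, s) = (e.1, ((e.2, true) : Dir d)) ∨
      (u, s) = (e.1 + step (e.2, true), opp ((e.2, true) : Dir d)) := by
  obtain ⟨i, b⟩ := s
  cases b
  · right
    have h1 : (step (i, false) : V d) = - step (i, true) := by
      rw [← step_opp]
      rfl
    subst h
    simp only [edge, opp, Bool.false_eq_true, if_false, Bool.not_true, Prod.mk.injEq, and_true]
    rw [h1]
    abel
  · left
    subst h
    simp [edge]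

/-- The derivative of the connection probability in the box is at least the sum of the
probabilities that a directed edge is pivotal. -/
theorem an_russo {p : ℝ} (h0 : 0 < p) (h1 : p < 1) (n : ℕ) (x : V d) :
    ∃ D : ℝ, HasDerivAt (fun q => (perc d q).real {ω | Cn (Bx 0 n) ω 0 x}) D p ∧
      ∑ b ∈ EP d n, (perc d p).real (PV (Bx 0 n) b.1 b.2 x) ≤ D := by
  classical
  refine ⟨_, russo_perc (EF d n) {ω | Cn (Bx 0 n) ω 0 x} ?_ p h0 h1, ?_⟩
  · intro ω ω' h hω
    exact Cn.congr hω fun e he => h e (mem_EF.2 he)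
  · have hmaps : ∀ b ∈ EP d n, edge b.1 b.2 ∈ EF d n := by
      intro b hb
      simp only [EP, Finset.mem_filter, Finset.mem_product, Finset.mem_univ, and_true] at hb
      rw [mem_EF, edge_mem_ins, AnRus_Box_eq]
      exact ⟨Finset.mem_coe.2 hb.1, Finset.mem_coe.2 hb.2⟩
    rw [← Finset.sum_fiberwise_of_maps_to hmaps]
    refine Finset.sum_le_sum fun e he => ?_
    rw [mem_EF, AnRus_Box_eq] at he
    have hu : e.1 ∈ Box d n := Finset.mem_coe.1 he.1
    have hst : (step ((e.2, true) : Dir d) : V d) = Pi.single e.2 1 := by simp [step]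
    have hw : e.1 + step ((e.2, true) : Dir d) ∈ Box d n := by
      rw [hst]
      exact Finset.mem_coe.1 he.2
    have hed : edge e.1 ((e.2, true) : Dir d) = e := by simp [edge]
    have hp := AnRus_pair h0 h1 (Box d n) e.1 ((e.2, true) : Dir d) x hu hw
    rw [hed] at hp
    rw [AnRus_Box_eq]
    refine le_trans ?_ hp
    have hne : ((e.1, ((e.2, true) : Dir d)) : V d × Dir d) ≠
        (e.1 + step (e.2, true), opp ((e.2, true) : Dir d)) := by
      intro h
      have h2 := congrArg Prod.fst h
      exact step_ne_zero ((e.2, true) : Dir d) (by simpa using h2)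
    rw [← Finset.sum_pair (f := fun b : V d × Dir d =>
      (perc d p).real (PV (Box d n : Set (V d)) b.1 b.2 x)) hne]
    refine Finset.sum_le_sum_of_subset_of_nonneg ?_ fun _ _ _ => measureReal_nonneg
    intro b hb
    rw [Finset.mem_filter] at hb
    rw [Finset.mem_insert, Finset.mem_singleton]
    exact AnRus_fiber hb.2

end SH
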