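import Pool.Agent.H5.DF.BK

/-!
PROJECT LE (MP_0d9ad5_pr), block SH. The BK inequality with a decreasing event, finite product
(proof by helper1).
-/

namespace SH

open H5DF MeasureTheory

/-- BK with a decreasing event for monotone relations, `Fin n` coordinates. -/
theorem bkd_fin {p : ℝ} (h0 : 0 ≤ p) (h1 : p ≤ 1) : ∀ (n : ℕ)
    (z : (Fin n → Bool) → (Fin n → Bool) → Prop) (D : (Fin n → Bool) → Prop), MonoR z →
    (∀ a b : Fin n → Bool, (∀ i, a i = true → b i = true) → D b → D a) →
    pr p (fun ω => Dj z ω ∧ D ω) ≤ pr2 p (fun a b => z a b ∧ D a) := by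
  intro n
  induction n with
  | zero =>
    intro z D hz hD
    have hu : ∀ a b : Fin 0 → Bool, a = b := fun a b => Subsingleton.elim a b
    unfold pr pr2
    have hw : ∀ x : Fin 0 → Bool, wt p x = 1 := fun x => by simp [wt]
    have key : ∀ x y w : Fin 0 → Bool,
        wt p x * ind (Dj z x ∧ D x) ≤ wt p y * wt p w * ind (z y w ∧ D y) := by
      intro x y w
      rw [hw, hw, hw, one_mul, one_mul, one_mul]
      by_cases h : Dj z x ∧ D x
      · have h2 : z y w ∧ D y := by
          obtain ⟨⟨c, hc⟩, hd⟩ := h
          refine ⟨?_, ?_⟩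
          · rwa [hu (fun i => x i && c i) y, hu (fun i => x i && !c i) w] at hc
          · rwa [hu y x]
        rw [ind_t h, ind_t h2]
      · rw [ind_f h]; exact ind_nonneg _
    rw [Fintype.sum_unique, Fintype.sum_unique, Fintype.sum_unique]
    exact key _ _ _
  | succ n ih =>
    intro z D hz hD
    set z00 : (Fin n → Bool) → (Fin n → Bool) → Prop :=
      fun a b => z (Fin.cons false a) (Fin.cons false b) with hz00
    set z10 : (Fin n → Bool) → (Fin n → Bool) → Prop :=
      fun a b => z (Fin.cons true a) (Fin.cons false b) with hz10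
    set z01 : (Fin n → Bool) → (Fin n → Bool) → Prop :=
      fun a b => z (Fin.cons false a) (Fin.cons true b) with hz01
    set z11 : (Fin n → Bool) → (Fin n → Bool) → Prop :=
      fun a b => z (Fin.cons true a) (Fin.cons true b) with hz11
    set D0 : (Fin n → Bool) → Prop := fun a => D (Fin.cons false a) with hD0
    set D1 : (Fin n → Bool) → Prop := fun a => D (Fin.cons true a) with hD1
    have hmono : ∀ u v : Bool, MonoR (fun a b : Fin n → Bool => z (Fin.cons u a) (Fin.cons v b)) := by
      intro u v a b a' b' ha hb h
      refine hz _ _ _ _ ?_ ?_ h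
      · intro i; refine Fin.cases ?_ (fun j => ?_) i
        · simp
        · simpa using ha j
      · intro i; refine Fin.cases ?_ (fun j => ?_) i
        · simp
        · simpa using hb j
    have hdec : ∀ u : Bool, ∀ a b : Fin n → Bool, (∀ i, a i = true → b i = true) →
        D (Fin.cons u b) → D (Fin.cons u a) := by
      intro u a b hab h
      refine hD _ _ ?_ h
      intro i; refine Fin.cases ?_ (fun j => ?_) i
      · simp
      · simpa using hab j
    have hor : MonoR (fun a b : Fin n → Bool => z10 a b ∨ z01 a b) := by
      intro a b a' b' ha hb h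
      rcases h with h | h
      · exact Or.inl (hmono true false a b a' b' ha hb h)
      · exact Or.inr (hmono false true a b a' b' ha hb h)
    have hL : pr p (fun ω => Dj z ω ∧ D ω) =
        p * pr p (fun ω => Dj (fun a b => z10 a b ∨ z01 a b) ω ∧ D1 ω) +
        (1 - p) * pr p (fun ω => Dj z00 ω ∧ D0 ω) := by
      unfold pr
      rw [sum_cons, Finset.mul_sum, Finset.mul_sum]
      congr 1
      · refine Finset.sum_congr rfl fun x _ => ?_
        beta_reduce
        rw [wt_cons, dj_cons_true]
        simp only [if_true]
        ring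
      · refine Finset.sum_congr rfl fun x _ => ?_
        beta_reduce
        rw [wt_cons, dj_cons_false]
        simp only [Bool.false_eq_true, if_false]
        ring
    have hR : pr2 p (fun a b => z a b ∧ D a) = ∑ x : Fin n → Bool, ∑ y : Fin n → Bool,
        wt p x * wt p y * (p * p * ind (z11 x y ∧ D1 x) +
          p * (1 - p) * ind (z10 x y ∧ D1 x) + (1 - p) * p * ind (z01 x y ∧ D0 x) +
          (1 - p) * (1 - p) * ind (z00 x y ∧ D0 x)) := by
      unfold pr2
      rw [sum_cons, ← Finset.sum_add_distrib]
      refine Finset.sum_congr rfl fun x _ => ?_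
      rw [sum_cons, sum_cons, ← Finset.sum_add_distrib, ← Finset.sum_add_distrib,
        ← Finset.sum_add_distrib]
      refine Finset.sum_congr rfl fun y _ => ?_
      simp only [wt_cons, if_true, Bool.false_eq_true, if_false, hz11, hz10, hz01, hz00, hD0, hD1]
      ring
    calc pr p (fun ω => Dj z ω ∧ D ω) =
        p * pr p (fun ω => Dj (fun a b => z10 a b ∨ z01 a b) ω ∧ D1 ω) +
        (1 - p) * pr p (fun ω => Dj z00 ω ∧ D0 ω) := hL
      _ ≤ p * pr2 p (fun a b => (z10 a b ∨ z01 a b) ∧ D1 a) +
          (1 - p) * pr2 p (fun a b => z00 a b ∧ D0 a) := by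
          have i1 := ih (fun a b => z10 a b ∨ z01 a b) D1 hor (hdec true)
          have i2 := ih z00 D0 (hmono false false) (hdec false)
          have := mul_le_mul_of_nonneg_left i1 h0
          have := mul_le_mul_of_nonneg_left i2 (show (0:ℝ) ≤ 1 - p by linarith)
          linarith
      _ ≤ pr2 p (fun a b => z a b ∧ D a) := by
          rw [hR]
          unfold pr2
          rw [Finset.mul_sum, Finset.mul_sum, ← Finset.sum_add_distrib]
          refine Finset.sum_le_sum fun x _ => ?_
          rw [Finset.mul_sum, Finset.mul_sum, ← Finset.sum_add_distrib]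
          refine Finset.sum_le_sum fun y _ => ?_
          have hw : 0 ≤ wt p x * wt p y := mul_nonneg (wt_nonneg h0 h1 x) (wt_nonneg h0 h1 y)
          have m1 : z00 x y → z10 x y := fun h => hz _ _ _ _ (by
            intro i; refine Fin.cases ?_ (fun j => ?_) i <;> simp) (by simp) h
          have m2 : z00 x y → z01 x y := fun h => hz _ _ _ _ (by simp) (by
            intro i; refine Fin.cases ?_ (fun j => ?_) i <;> simp) h
          have m3 : z10 x y → z11 x y := fun h => hz _ _ _ _ (by simp) (by
            intro i; refine Fin.cases ?_ (fun j => ?_) i <;> simp) h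
          have m4 : z01 x y → z11 x y := fun h => hz _ _ _ _ (by
            intro i; refine Fin.cases ?_ (fun j => ?_) i <;> simp) (by simp) h
          have m5 : D1 x → D0 x := fun h => hD _ _ (by
            intro i; refine Fin.cases ?_ (fun j => ?_) i <;> simp) h
          have hp : 0 ≤ p * (1 - p) := mul_nonneg h0 (by linarith)
          have key : p * ind ((z10 x y ∨ z01 x y) ∧ D1 x) + (1 - p) * ind (z00 x y ∧ D0 x) ≤
              p * p * ind (z11 x y ∧ D1 x) + p * (1 - p) * ind (z10 x y ∧ D1 x) +
              (1 - p) * p * ind (z01 x y ∧ D0 x) + (1 - p) * (1 - p) * ind (z00 x y ∧ D0 x) := by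
            by_cases d0 : D0 x
            · by_cases d1 : D1 x
              · simp only [d0, d1, and_true]
                by_cases c00 : z00 x y
                · rw [ind_t c00, ind_t (m1 c00), ind_t (m2 c00), ind_t (m3 (m1 c00)),
                    ind_t (Or.inl (m1 c00))]
                  nlinarith
                · rw [ind_f c00]
                  by_cases c10 : z10 x y
                  · rw [ind_t c10, ind_t (m3 c10), ind_t (Or.inl c10)]
                    have := mul_nonneg hp (ind_nonneg (z01 x y))
                    nlinarith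
                  · by_cases c01 : z01 x y
                    · rw [ind_f c10, ind_t c01, ind_t (m4 c01), ind_t (Or.inr c01)]
                      nlinarith
                    · rw [ind_f c10, ind_f c01, ind_f (not_or.mpr ⟨c10, c01⟩)]
                      have := mul_nonneg (mul_nonneg h0 h0) (ind_nonneg (z11 x y))
                      nlinarith
              · simp only [d0, d1, and_true, and_false]
                rw [ind_f not_false]
                by_cases c00 : z00 x y
                · rw [ind_t c00, ind_t (m2 c00)]
                  nlinarith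
                · rw [ind_f c00]
                  have := mul_nonneg hp (ind_nonneg (z01 x y))
                  nlinarith
            · have d1 : ¬ D1 x := fun h => d0 (m5 h)
              simp only [d0, d1, and_false]
              rw [ind_f not_false]
              nlinarith
          have := mul_le_mul_of_nonneg_left key hw
          linarith

theorem bkd_pr {ι : Type*} [Fintype ι] [DecidableEq ι] {p : ℝ} (h0 : 0 ≤ p) (h1 : p ≤ 1)
    (A B D : Set (ι → Bool))
    (hA : ∀ a b : ι → Bool, (∀ i, a i = true → b i = true) → a ∈ A → b ∈ A)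
    (hB : ∀ a b : ι → Bool, (∀ i, a i = true → b i = true) → a ∈ B → b ∈ B)
    (hD : ∀ a b : ι → Bool, (∀ i, a i = true → b i = true) → b ∈ D → a ∈ D) :
    pr p (fun ω => (∃ c : ι → Bool, (fun i => ω i && c i) ∈ A ∧ (fun i => ω i && !c i) ∈ B) ∧
      ω ∈ D) ≤ pr p (fun ω => ω ∈ A ∧ ω ∈ D) * pr p (fun ω => ω ∈ B) := by
  classical
  set e := Fintype.equivFin ι
  rw [pr_equiv e, pr_equiv e p (fun ω => ω ∈ A ∧ ω ∈ D), pr_equiv e p (fun ω => ω ∈ B)]
  set z : (Fin (Fintype.card ι) → Bool) → (Fin (Fintype.card ι) → Bool) → Prop :=
    fun a b => (fun i => a (e i)) ∈ A ∧ (fun i => b (e i)) ∈ B with hzdef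
  have hz : MonoR z := by
    intro a b a' b' ha hb h
    exact ⟨hA _ _ (fun i => ha (e i)) h.1, hB _ _ (fun i => hb (e i)) h.2⟩
  have h := bkd_fin h0 h1 _ z (fun a => (fun i => a (e i)) ∈ D) hz
    (fun a b hab hb => hD _ _ (fun i => hab (e i)) hb)
  have hl : (fun ω : Fin (Fintype.card ι) → Bool => (∃ c : ι → Bool,
      (fun i => ω (e i) && c i) ∈ A ∧ (fun i => ω (e i) && !c i) ∈ B) ∧
        (fun i => ω (e i)) ∈ D) = fun ω => Dj z ω ∧ (fun i => ω (e i)) ∈ D := by
    funext ω
    apply propext
    refine and_congr_left fun _ => ?_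
    constructor
    · rintro ⟨c, hc⟩
      refine ⟨fun i => c (e.symm i), ?_⟩
      simpa [hzdef] using hc
    · rintro ⟨c, hc⟩
      exact ⟨fun i => c (e i), hc⟩
  rw [hl]
  refine h.trans (le_of_eq ?_)
  unfold pr2 pr
  rw [Finset.sum_mul_sum]
  refine Finset.sum_congr rfl fun x _ => Finset.sum_congr rfl fun y _ => ?_
  by_cases hx : (fun i => x (e i)) ∈ A <;> by_cases hy : (fun i => y (e i)) ∈ B <;>
    by_cases hd : (fun i => x (e i)) ∈ D <;> simp [hzdef, hx, hy, hd, ind]

end SH
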