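import Pool.Agent.H5.CF.ClB
import Pool.Agent.H95.LBS.HubX
import Pool.Agent.H95.LBD.HoleB

/-!
PROJECT LE (MP_0d9ad5_pr, notes 2738 and 2741), block SH. Definitions.
-/

namespace SH

open H5DF H5CF H95LBD H95LBS MeasureTheory
open scoped ENNReal

variable {d : ℕ}

/-- The mean size of the cluster of the origin. -/
noncomputable def chi (d : ℕ) (p : ℝ) : ℝ≥0∞ := ∑' x : V d, tau d p x

/-- The triangle `tau * tau * tau` at `y`. -/
noncomputable def T3 (d : ℕ) (p : ℝ) (y : V d) : ℝ≥0∞ :=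
  ∑' a : V d, ∑' b : V d, tau d p a * tau d p (b - a) * tau d p (y - b)

/-- The parameters with `p * phi p S ≥ 1` for every finite set `S` containing the origin
(Duminil-Copin and Tassion). -/
def Sp (d : ℕ) : Set ℝ :=
  {p | 0 ≤ p ∧ p ≤ 1 ∧ ∀ S : Finset (V d), (0 : V d) ∈ S → 1 ≤ p * phi p 0 S}

/-- The critical point. -/
noncomputable def pcc (d : ℕ) : ℝ := sInf (Sp d)

/-- The cluster of `v` inside `S` when the edge `e` is closed. -/
def Ct (S : Set (V d)) (e : Ed d) (ω : Cfg d) (v : V d) : Set (V d) :=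
  {y | Cn S (Function.update ω e false) v y}

/-- The edge `(u, u + step s)` is pivotal (directed) for the connection of `0` to `x` in `S`. -/
def PV (S : Set (V d)) (u : V d) (s : Dir d) (x : V d) : Set (Cfg d) :=
  {ω | u ∈ Ct S (edge u s) ω 0 ∧ u + step s ∉ Ct S (edge u s) ω 0 ∧
    Cn (S \ Ct S (edge u s) ω 0) ω (u + step s) x}

/-- The directed edges inside the box of radius `n`. -/
noncomputable def EP (d n : ℕ) : Finset (V d × Dir d) :=
  ((Box d n) ×ˢ (Finset.univ : Finset (Dir d))).filter fun b => b.1 + step b.2 ∈ Box d n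

/-- The expected number of pairs (vertex of the cluster, edge at this vertex), where the edge is
not used. -/
noncomputable def YY (d : ℕ) (p : ℝ) : ℝ≥0∞ :=
  ∑' u : V d, ∑ s : Dir d, perc d p {ω | u ∈ Ct Set.univ (edge u s) ω 0}

/-- The law of the green vertices: every vertex is green with probability `1 - ρ`. -/
noncomputable def gr (d : ℕ) (ρ : ℝ) : Measure (V d → Bool) :=
  Measure.infinitePi fun _ : V d => bern (1 - ρ)

/-- The joint law of the edges and the green vertices. -/
noncomputable def mu (d : ℕ) (p ρ : ℝ) : Measure (Cfg d × (V d → Bool)) :=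
  (perc d p).prod (gr d ρ)

/-- The cluster of `y` off `S` has a green vertex. -/
def hitE (S : Set (V d)) (y : V d) : Set (Cfg d × (V d → Bool)) :=
  {q | ∃ x ∈ cluster (cut Sᶜ q.1) y, q.2 x = true}

/-- The probability that the cluster of `y` off `S` has a green vertex. -/
noncomputable def MG (p ρ : ℝ) (S : Finset (V d)) (y : V d) : ℝ≥0∞ :=
  mu d p ρ (hitE (S : Set (V d)) y)

/-- The magnetisation. -/
noncomputable def Mz (d : ℕ) (p ρ : ℝ) : ℝ≥0∞ := MG p ρ (∅ : Finset (V d)) 0

open Classical in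
/-- `E (u, z in C, rho^|C|)` for the cluster `C` of `0` off `S`. -/
noncomputable def W (p ρ : ℝ) (S : Finset (V d)) (u z : V d) : ℝ≥0∞ :=
  ∑' B : Finset (V d), CF.cl p S 0 B *
    (if u ∈ B ∧ z ∈ B then ENNReal.ofReal (ρ ^ B.card) else 0)

/-- `E (|C| rho^|C|)`. -/
noncomputable def M1 (d : ℕ) (p ρ : ℝ) : ℝ≥0∞ := ∑' a : V d, W p ρ ∅ a a

open Classical in
/-- The sum over `v` of the probabilities that `v + step s` is in the cluster of `0` off `v` and
this cluster has no green vertex. -/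
noncomputable def XS (d : ℕ) (p ρ : ℝ) (s : Dir d) : ℝ≥0∞ :=
  ∑' v : V d, if v = 0 then 0 else W p ρ {v} (v + step s) (v + step s)

/-- The probability that the clusters of `y1`, `y2` off `S` are disjoint and both have a green
vertex. -/
noncomputable def QQ (p ρ : ℝ) (S : Finset (V d)) (y1 y2 : V d) : ℝ≥0∞ :=
  mu d p ρ {q | y2 ∉ cluster (cut ((S : Set (V d))ᶜ) q.1) y1 ∧ q ∈ hitE (S : Set (V d)) y1 ∧
    q ∈ hitE (S : Set (V d)) y2}

/-- The event that `v` is a cut vertex between `0` and the green vertices, in a strong sense. -/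
def FF (v : V d) (s s1 s2 : Dir d) : Set (Cfg d × (V d → Bool)) :=
  {q | v + step s ∈ cluster (cut ({v} : Set (V d))ᶜ q.1) 0 ∧
    q.1 (edge v s) = true ∧ q.1 (edge v s1) = true ∧ q.1 (edge v s2) = true ∧
    q ∉ hitE {v} 0 ∧
    v + step s1 ∉ cluster (cut ({v} : Set (V d))ᶜ q.1) 0 ∧
    v + step s2 ∉ cluster (cut ({v} : Set (V d))ᶜ q.1) 0 ∧
    v + step s2 ∉ cluster (cut ({v} : Set (V d))ᶜ q.1) (v + step s1) ∧
    q ∈ hitE {v} (v + step s1) ∧ q ∈ hitE {v} (v + step s2)}

end SH
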