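import Pool.Agent.H29.SH.BkdF
import Pool.Agent.H29.SH.Defs

/-!
PROJECT LE (MP_0d9ad5_pr), block SH. The BK inequality with a decreasing event.
-/

namespace SH

open H5DF H5CF H95LBD H95LBS MeasureTheory
open scoped ENNReal

variable {d : ℕ}

/-- `bkd_pr` for the product measure. -/
lemma BkdI_bern {ι : Type*} [Fintype ι] (p : ℝ) (h0 : 0 ≤ p) (h1 : p ≤ 1) (A B D : Set (ι → Bool))
    (hA : ∀ a b : ι → Bool, (∀ i, a i = true → b i = true) → a ∈ A → b ∈ A)
    (hB : ∀ a b : ι → Bool, (∀ i, a i = true → b i = true) → a ∈ B → b ∈ B)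
    (hD : ∀ a b : ι → Bool, (∀ i, a i = true → b i = true) → b ∈ D → a ∈ D) :
    (Measure.infinitePi fun _ : ι => bern p)
        {ω | (∃ c : ι → Bool, (fun i => ω i && c i) ∈ A ∧ (fun i => ω i && !c i) ∈ B) ∧ ω ∈ D} ≤
      (Measure.infinitePi fun _ : ι => bern p) (A ∩ D) *
        (Measure.infinitePi fun _ : ι => bern p) B := by
  classical
  have hnn : 0 ≤ pr p (fun ω => ω ∈ A ∩ D) :=
    Finset.sum_nonneg fun ω _ => mul_nonneg (wt_nonneg h0 h1 ω) (ind_nonneg _)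
  rw [bern_pi_eq h0 h1, bern_pi_eq h0 h1, bern_pi_eq h0 h1, ← ENNReal.ofReal_mul hnn]
  exact ENNReal.ofReal_le_ofReal (bkd_pr h0 h1 A B D hA hB hD)

/-- The trace of an event on the configurations of the finite box. -/
def BkdI_tr (n : ℕ) (C : Set (Cfg d)) : Set (EBox d n → Bool) :=
  {a | cut (Bx 0 n) (exE n a) ∈ C}

lemma BkdI_pre (n : ℕ) (C : Set (Cfg d)) :
    BkB_loc n C = (EBox d n).domRestrict ⁻¹' BkdI_tr n C := by
  ext ω
  simp only [Set.mem_preimage, BkdI_tr, Set.mem_ofPred_eq, BkB_loc, BkB_cut_restrict]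

lemma BkdI_restr (n : ℕ) :
    Measurable ((EBox d n).domRestrict : Cfg d → (EBox d n → Bool)) :=
  Set.measurable_restrict _

lemma BkdI_loc_meas (n : ℕ) (C : Set (Cfg d)) : MeasurableSet (BkB_loc n C) := by
  rw [BkdI_pre]
  exact BkdI_restr n (BkdI_tr n C).toFinite.measurableSet

lemma BkdI_tr_mono (n : ℕ) {C : Set (Cfg d)} (hC : Inc C) (a b : EBox d n → Bool)
    (hab : ∀ i, a i = true → b i = true) (ha : a ∈ BkdI_tr n C) : b ∈ BkdI_tr n C := by
  refine hC _ _ (fun e he => BkB_cut_mono le_rfl ?_ e he) ha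
  intro e he
  by_cases h : e ∈ EBox d n
  · simp only [exE, h, dif_pos] at he ⊢
    exact hab _ he
  · simp [exE, h] at he

lemma BkdI_map (p : ℝ) (h0 : 0 ≤ p) (h1 : p ≤ 1) (n : ℕ) (S : Set (EBox d n → Bool)) :
    perc d p ((EBox d n).domRestrict ⁻¹' S) =
      (Measure.infinitePi fun _ : EBox d n => bern p) S := by
  classical
  have hbp := isProb_bern h0 h1
  have hmap := Measure.infinitePi_map_restrict' (μ := fun _ : Ed d => bern p) (I := EBox d n)
  rw [← hmap, Measure.map_apply (BkdI_restr n) S.toFinite.measurableSet]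
  rfl

/-- The inequality in a finite box. -/
lemma BkdI_fin (p : ℝ) (h0 : 0 ≤ p) (h1 : p ≤ 1) (A B N : Set (Cfg d)) (hA : Inc A) (hB : Inc B)
    (hN : Inc N) (n : ℕ) :
    perc d p (disj (BkB_loc n A) (BkB_loc n B) ∩ (BkB_loc n N)ᶜ) ≤
      perc d p (BkB_loc n A ∩ (BkB_loc n N)ᶜ) * perc d p (BkB_loc n B) := by
  classical
  have hbk := BkdI_bern p h0 h1 (BkdI_tr n A) (BkdI_tr n B) (BkdI_tr n N)ᶜ
    (BkdI_tr_mono n hA) (BkdI_tr_mono n hB)
    (fun a b hab hb ha => hb (BkdI_tr_mono n hN a b hab ha))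
  have e1 : BkB_loc n A ∩ (BkB_loc n N)ᶜ =
      (EBox d n).domRestrict ⁻¹' (BkdI_tr n A ∩ (BkdI_tr n N)ᶜ) := by
    rw [BkdI_pre, BkdI_pre]
    rfl
  rw [e1, BkdI_pre n B, BkdI_map p h0 h1, BkdI_map p h0 h1]
  refine le_trans ?_ hbk
  rw [← BkdI_map p h0 h1]
  refine measure_mono ?_
  rintro ω ⟨⟨c, hc1, hc2⟩, hc3⟩
  refine ⟨⟨(EBox d n).domRestrict c, ?_, ?_⟩, ?_⟩
  · have h := BkB_cut_restrict n (fun e => ω e && c e)
    have hc1' : cut (Bx 0 n) (fun e => ω e && c e) ∈ A := hc1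
    rw [← h] at hc1'
    exact hc1'
  · exact hc2
  · intro hn
    apply hc3
    rw [BkdI_pre]
    exact hn

/-- An increasing finitely witnessed event is the union of its local versions. -/
lemma BkdI_union {A : Set (Cfg d)} (hA : Inc A) (fA : Fw A) : ⋃ n, BkB_loc n A = A := by
  apply Set.Subset.antisymm
  · exact Set.iUnion_subset fun n => BkB_loc_sub n hA
  · intro ω hω
    obtain ⟨n, hn⟩ := fA ω hω
    exact Set.mem_iUnion.2 ⟨n, hn⟩

lemma BkdI_meas {A : Set (Cfg d)} (hA : Inc A) (fA : Fw A) : MeasurableSet A := by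
  rw [← BkdI_union hA fA]
  exact MeasurableSet.iUnion fun n => BkdI_loc_meas n A

theorem bkd_inf (p : ℝ) (h0 : 0 ≤ p) (h1 : p ≤ 1) (A B N : Set (Cfg d)) (hA : Inc A) (hB : Inc B)
    (hN : Inc N) (fA : Fw A) (fB : Fw B) (fN : Fw N) :
    perc d p (disj A B ∩ Nᶜ) ≤ perc d p (A ∩ Nᶜ) * perc d p B := by
  have hpr := isProb_perc (d := d) p h0 h1
  -- the union of the disjoint occurrences
  have hU : disj A B ∩ Nᶜ ⊆ ⋃ n, (disj (BkB_loc n A) (BkB_loc n B) ∩ Nᶜ) := by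
    rintro ω ⟨⟨c, h2, h3⟩, h4⟩
    obtain ⟨n, hn⟩ := fA _ h2
    obtain ⟨m, hm⟩ := fB _ h3
    refine Set.mem_iUnion.2 ⟨max n m, ⟨c, ?_, ?_⟩, h4⟩
    · exact BkB_loc_mono hA (le_max_left n m) hn
    · exact BkB_loc_mono hB (le_max_right n m) hm
  have hmono : Monotone fun n : ℕ => disj (BkB_loc n A) (BkB_loc n B) ∩ Nᶜ := fun n m h =>
    Set.inter_subset_inter_left _
      (BkB_disj_mono (BkB_loc_mono hA h) (BkB_loc_mono hB h))
  -- the bound with two levels
  have hnm : ∀ n m : ℕ, perc d p (disj (BkB_loc n A) (BkB_loc n B) ∩ Nᶜ) ≤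
      perc d p (A ∩ (BkB_loc m N)ᶜ) * perc d p B := by
    intro n m
    have s1 : disj (BkB_loc n A) (BkB_loc n B) ∩ Nᶜ ⊆
        disj (BkB_loc (max n m) A) (BkB_loc (max n m) B) ∩ (BkB_loc (max n m) N)ᶜ :=
      Set.inter_subset_inter
        (BkB_disj_mono (BkB_loc_mono hA (le_max_left n m)) (BkB_loc_mono hB (le_max_left n m)))
        (Set.compl_subset_compl.2 (BkB_loc_sub _ hN))
    refine (measure_mono s1).trans ((BkdI_fin p h0 h1 A B N hA hB hN (max n m)).trans ?_)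
    refine mul_le_mul' (measure_mono ?_) (measure_mono (BkB_loc_sub _ hB))
    exact Set.inter_subset_inter (BkB_loc_sub _ hA)
      (Set.compl_subset_compl.2 (BkB_loc_mono hN (le_max_right n m)))
  -- the limit
  have hanti : Antitone fun m : ℕ => A ∩ (BkB_loc m N)ᶜ := fun m m' h =>
    Set.inter_subset_inter_right _ (Set.compl_subset_compl.2 (BkB_loc_mono hN h))
  have hI : ⋂ m, (A ∩ (BkB_loc m N)ᶜ) = A ∩ Nᶜ := by
    rw [← Set.inter_iInter, ← Set.compl_iUnion, BkdI_union hN fN]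
  have hmA := BkdI_meas hA fA
  have hlim : Filter.Tendsto (fun m : ℕ => perc d p (A ∩ (BkB_loc m N)ᶜ)) Filter.atTop
      (nhds (perc d p (A ∩ Nᶜ))) := by
    rw [← hI]
    exact tendsto_measure_iInter_atTop
      (fun m => (hmA.inter (BkdI_loc_meas m N).compl).nullMeasurableSet) hanti
      ⟨0, measure_ne_top _ _⟩
  have hlim2 : Filter.Tendsto (fun m : ℕ => perc d p (A ∩ (BkB_loc m N)ᶜ) * perc d p B)
      Filter.atTop (nhds (perc d p (A ∩ Nᶜ) * perc d p B)) :=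
    ENNReal.Tendsto.mul_const hlim (Or.inr (measure_ne_top _ _))
  refine (measure_mono hU).trans ?_
  rw [hmono.measure_iUnion]
  exact iSup_le fun n => ge_of_tendsto' hlim2 fun m => hnm n m

end SH
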