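import Pool.Agent.H29.SH.ExpD
import Pool.Agent.H29.CF.Thin

/-!
PROJECT LE (MP_0d9ad5_pr), block SH. Lower bound for `chi` below `pcc`.
-/

namespace SH

open H5DF H5CF H95LBD H95LBS MeasureTheory
open scoped ENNReal

variable {d : ℕ}

lemma ChiLow_fin {p s : ℝ} (h0 : 0 ≤ p) (h1 : p ≤ 1) (hs0 : 0 ≤ s) (hs1 : s ≤ 1)
    (S : Finset (V d)) (v x : V d) (hv : v ∈ S) :
    (perc d (pn p s)).real {ω | Cn (S : Set (V d)) ω v x} ≤
      (perc d p).real {ω | Cn (S : Set (V d)) ω v x} +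
      ∑ a ∈ S, ∑ σ : Dir d, (perc d p).real {ω | Cn (S : Set (V d)) ω v a} * s *
        (perc d (pn p s)).real {ω | Cn (S : Set (V d)) ω (a + step σ) x} := by
  have hprob := isProb_perc (d := d) p h0 h1
  have hP := isProb_PP (d := d) h0 h1 hs0 hs1
  have e1 : (perc d (pn p s)).real {ω | Cn (S : Set (V d)) ω v x} =
      (PP d p s).real {q | Cn (S : Set (V d)) (un q.1 q.2) v x} := by
    rw [← map_un h0 h1 hs0 hs1,
      map_measureReal_apply measurable_un (meas_Cn _ _ _)]
    rfl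
  set B : V d → Dir d → Set (Cfg d) := fun a σ => {ω | Cn (S : Set (V d)) ω (a + step σ) x} with hB
  have h2 := explore_le h0 h1 hs0 hs1 S v hv B
    (fun a σ => meas_Cn _ _ _) (fun a σ ω ω' h hc => Cn.mono hc (fun _ h => h) h)
  have e2 : (PP d p s).real {q | Cn (S : Set (V d)) q.1 v x} =
      (perc d p).real {ω | Cn (S : Set (V d)) ω v x} := by
    have hs' := isProb_perc (d := d) s hs0 hs1
    have e3 : {q : Cfg d × Cfg d | Cn (S : Set (V d)) q.1 v x} =
        {ω : Cfg d | Cn (S : Set (V d)) ω v x} ×ˢ Set.univ := by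
      ext q
      simp
    rw [e3, PP, measureReal_prod_prod, probReal_univ, mul_one]
  rw [e1, ← e2]
  have hsub : {q : Cfg d × Cfg d | Cn (S : Set (V d)) (un q.1 q.2) v x} ⊆
      {q | Cn (S : Set (V d)) q.1 v x} ∪ {q | ∃ a σ, a ∈ hub (S : Set (V d)) q.1 v ∧
        a + step σ ∉ hub (S : Set (V d)) q.1 v ∧ q.2 (edge a σ) = true ∧
        cut (hub (S : Set (V d)) q.1 v)ᶜ (un q.1 q.2) ∈ B a σ} := by
    intro q hq
    exact CF.Thin_dec hq
  exact (measureReal_mono hsub (measure_ne_top _ _)).trans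
    ((measureReal_union_le _ _).trans (add_le_add le_rfl h2))

/-- The sum over the box at the larger density. -/
lemma ChiLow_box {p s c : ℝ} (h0 : 0 ≤ p) (h1 : p ≤ 1) (hs0 : 0 ≤ s) (hs1 : s ≤ 1)
    (hc : chi d p ≤ ENNReal.ofReal c) (hc0 : 0 ≤ c) (hsc : 2 * (d : ℝ) * s * c < 1)
    (S : Finset (V d)) (v : V d) (hv : v ∈ S) :
    ∑ x ∈ S, (perc d (pn p s)).real {ω | Cn (S : Set (V d)) ω v x} ≤
      c / (1 - 2 * (d : ℝ) * s * c) := by
  have hprob := isProb_perc (d := d) p h0 h1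
  have hq0 : 0 ≤ pn p s := h0.trans (pn_ge h1 hs0)
  have hq1 : pn p s ≤ 1 := pn_le h1 hs1
  have hprob' := isProb_perc (d := d) (pn p s) hq0 hq1
  have hsum : ∀ v : V d, ∑ x ∈ S, (perc d p).real {ω | Cn (S : Set (V d)) ω v x} ≤ c := by
    intro v
    have h2 : ENNReal.ofReal (∑ x ∈ S, (perc d p).real {ω | Cn (S : Set (V d)) ω v x}) ≤
        ENNReal.ofReal c := by
      rw [ENNReal.ofReal_sum_of_nonneg (fun _ _ => measureReal_nonneg)]
      calc ∑ x ∈ S, ENNReal.ofReal ((perc d p).real {ω | Cn (S : Set (V d)) ω v x})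
          ≤ ∑ x ∈ S, tau d p (x - v) := by
            refine Finset.sum_le_sum fun x _ => ?_
            rw [ofReal_measureReal, ← prob_cluster_mem p h0 h1]
            exact measure_mono fun ω h => Cn.cluster h
        _ ≤ ∑' x : V d, tau d p (x - v) := ENNReal.sum_le_tsum S
        _ = chi d p := (Equiv.subRight v).tsum_eq (fun x => tau d p x)
        _ ≤ ENNReal.ofReal c := hc
    exact (ENNReal.ofReal_le_ofReal_iff hc0).1 h2
  obtain ⟨w, hw, hmax⟩ := S.exists_max_image
    (fun v => ∑ x ∈ S, (perc d (pn p s)).real {ω | Cn (S : Set (V d)) ω v x}) ⟨v, hv⟩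
  set m := ∑ x ∈ S, (perc d (pn p s)).real {ω | Cn (S : Set (V d)) ω w x} with hm
  have hm0 : 0 ≤ m := Finset.sum_nonneg fun _ _ => measureReal_nonneg
  have hall : ∀ y : V d, ∑ x ∈ S, (perc d (pn p s)).real {ω | Cn (S : Set (V d)) ω y x} ≤ m := by
    intro y
    by_cases hy : y ∈ S
    · exact hmax y hy
    · have : ∑ x ∈ S, (perc d (pn p s)).real {ω | Cn (S : Set (V d)) ω y x} = 0 := by
        refine Finset.sum_eq_zero fun x hx => ?_
        have h3 : {ω : Cfg d | Cn (S : Set (V d)) ω y x} = ∅ := by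
          ext ω
          simp only [Set.mem_ofPred_eq, Set.mem_empty_iff_false, iff_false]
          intro h
          exact hy (by exact_mod_cast Cn.mem h.symm (by exact_mod_cast hx))
        rw [h3, measureReal_empty]
      rw [this]
      exact hm0
  have key : m ≤ c + 2 * (d : ℝ) * s * c * m := by
    calc m ≤ ∑ x ∈ S, ((perc d p).real {ω | Cn (S : Set (V d)) ω w x} +
          ∑ a ∈ S, ∑ σ : Dir d, (perc d p).real {ω | Cn (S : Set (V d)) ω w a} * s *
            (perc d (pn p s)).real {ω | Cn (S : Set (V d)) ω (a + step σ) x}) :=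
          Finset.sum_le_sum fun x _ => ChiLow_fin h0 h1 hs0 hs1 S w x hw
      _ = ∑ x ∈ S, (perc d p).real {ω | Cn (S : Set (V d)) ω w x} +
          ∑ a ∈ S, ∑ σ : Dir d, (perc d p).real {ω | Cn (S : Set (V d)) ω w a} * s *
            ∑ x ∈ S, (perc d (pn p s)).real {ω | Cn (S : Set (V d)) ω (a + step σ) x} := by
          rw [Finset.sum_add_distrib, Finset.sum_comm]
          congr 1
          refine Finset.sum_congr rfl fun a _ => ?_
          rw [Finset.sum_comm]
          refine Finset.sum_congr rfl fun σ _ => ?_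
          rw [Finset.mul_sum]
      _ ≤ c + ∑ a ∈ S, ∑ σ : Dir d, (perc d p).real {ω | Cn (S : Set (V d)) ω w a} * s * m := by
          refine add_le_add (hsum w) (Finset.sum_le_sum fun a _ => Finset.sum_le_sum fun σ _ => ?_)
          exact mul_le_mul_of_nonneg_left (hall _) (by positivity)
      _ = c + 2 * (d : ℝ) * s * m *
            ∑ a ∈ S, (perc d p).real {ω | Cn (S : Set (V d)) ω w a} := by
          congr 1
          rw [Finset.mul_sum]
          refine Finset.sum_congr rfl fun a _ => ?_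
          rw [Finset.sum_const, Finset.card_univ, Fintype.card_prod, Fintype.card_fin,
            Fintype.card_bool, nsmul_eq_mul]
          push_cast
          ring
      _ ≤ c + 2 * (d : ℝ) * s * m * c :=
          add_le_add le_rfl (mul_le_mul_of_nonneg_left (hsum w) (by positivity))
      _ = c + 2 * (d : ℝ) * s * c * m := by ring
  refine (hall v).trans ?_
  rw [le_div_iff₀ (by linarith)]
  nlinarith

lemma ChiLow_chi {p s c : ℝ} (h0 : 0 ≤ p) (h1 : p ≤ 1) (hs0 : 0 ≤ s) (hs1 : s ≤ 1)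
    (hc : chi d p ≤ ENNReal.ofReal c) (hc0 : 0 ≤ c) (hsc : 2 * (d : ℝ) * s * c < 1) :
    chi d (pn p s) ≤ ENNReal.ofReal (c / (1 - 2 * (d : ℝ) * s * c)) := by
  have hq0 : 0 ≤ pn p s := h0.trans (pn_ge h1 hs0)
  have hq1 : pn p s ≤ 1 := pn_le h1 hs1
  have hprob' := isProb_perc (d := d) (pn p s) hq0 hq1
  unfold chi
  rw [ENNReal.tsum_eq_iSup_sum]
  refine iSup_le fun T => ?_
  have h2 : ∀ x : V d, tau d (pn p s) x = ⨆ r : ℕ, perc d (pn p s) {ω | Cn (Bx 0 r) ω 0 x} :=
    fun x => CF.Thin_lim (pn p s) x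
  have hmono : ∀ x : V d, Monotone fun r : ℕ => perc d (pn p s) {ω | Cn (Bx 0 r) ω 0 x} := by
    intro x r r' h
    exact measure_mono fun ω hω => Cn.mono hω (fun y hy => le_trans hy h) (fun _ h => h)
  rw [Finset.sum_congr rfl fun x _ => h2 x, ENNReal.finsetSum_iSup_of_monotone hmono]
  refine iSup_le fun r => ?_
  obtain ⟨r', hr', hT⟩ : ∃ r' : ℕ, r ≤ r' ∧ T ⊆ Box d r' := by
    refine ⟨r + T.sup nm, by omega, fun x hx => ?_⟩
    rw [mem_Box']
    exact (Finset.le_sup (f := nm) hx).trans (by omega)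
  calc ∑ x ∈ T, perc d (pn p s) {ω | Cn (Bx 0 r) ω 0 x}
      ≤ ∑ x ∈ T, perc d (pn p s) {ω | Cn (Bx 0 r') ω 0 x} :=
        Finset.sum_le_sum fun x _ => hmono x hr'
    _ ≤ ∑ x ∈ Box d r', perc d (pn p s) {ω | Cn (Bx 0 r') ω 0 x} :=
        Finset.sum_le_sum_of_subset hT
    _ = ENNReal.ofReal (∑ x ∈ Box d r', (perc d (pn p s)).real {ω | Cn (Bx 0 r') ω 0 x}) := by
        rw [ENNReal.ofReal_sum_of_nonneg (fun _ _ => measureReal_nonneg)]
        refine Finset.sum_congr rfl fun x _ => ?_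
        rw [ofReal_measureReal]
    _ ≤ _ := by
        refine ENNReal.ofReal_le_ofReal ?_
        have h3 := ChiLow_box h0 h1 hs0 hs1 hc hc0 hsc (Box d r') 0
          (by rw [mem_Box', nm_zero]; omega)
        have h4 : ((Box d r' : Finset (V d)) : Set (V d)) = Bx 0 r' := by
          ext x
          rw [Finset.mem_coe, mem_Box', mem_Bx0]
        rw [h4] at h3
        exact h3

/-- If `chi` is finite then some ball has a small sum `phi`. -/
theorem le_pcc_of_chi (hd : 1 ≤ d) {q : ℝ} (h0 : 0 ≤ q) (h1 : q ≤ 1) (h : chi d q ≠ ⊤) :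
    q ≤ pcc d := by
  by_contra hcon
  push Not at hcon
  have hprob := isProb_perc (d := d) q h0 h1
  have hS := mem_Sp_of_gt hd hcon h1
  have hphi : ∀ n : ℕ, 1 ≤ phi q 0 (Box d n) := by
    intro n
    have h2 := hS.2.2 (Box d n) (by rw [mem_Box', nm_zero]; omega)
    have h3 := phi_nonneg q (Box d n)
    nlinarith
  have hup : ∀ n : ℕ, ENNReal.ofReal (phi q 0 (Box d n)) ≤
      2 * (d : ℝ≥0∞) * ∑' x : V d, (if nm x = n then tau d q x else 0) := by
    intro n
    unfold phi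
    rw [ENNReal.ofReal_sum_of_nonneg (fun _ _ => measureReal_nonneg)]
    have hb : ∀ b ∈ bd (Box d n), nm b.1 = n := by
      intro b hb
      unfold bd at hb
      rw [Finset.mem_filter, Finset.mem_product, mem_Box', mem_Box'] at hb
      have := nm_add_step b.1 b.2
      omega
    calc ∑ b ∈ bd (Box d n), ENNReal.ofReal ((perc d q).real
          (SCn (Box d 0) ((Box d n : Finset (V d)) : Set (V d)) b.1))
        ≤ ∑ b ∈ bd (Box d n), (if nm b.1 = n then tau d q b.1 else 0) := by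
          refine Finset.sum_le_sum fun b hb' => ?_
          rw [if_pos (hb b hb'), ofReal_measureReal]
          refine measure_mono ?_
          rintro ω ⟨u, hu, hc⟩
          rw [mem_Box', Nat.le_zero, nm_eq_zero] at hu
          subst hu
          exact hc.cluster
      _ ≤ ∑ b ∈ (Box d n) ×ˢ (Finset.univ : Finset (Dir d)),
            (if nm b.1 = n then tau d q b.1 else 0) :=
          Finset.sum_le_sum_of_subset (Finset.filter_subset _ _)
      _ = ∑ x ∈ Box d n, ∑ _σ : Dir d, (if nm x = n then tau d q x else 0) :=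
          Finset.sum_product _ _ _
      _ = 2 * (d : ℝ≥0∞) * ∑ x ∈ Box d n, (if nm x = n then tau d q x else 0) := by
          rw [Finset.mul_sum]
          refine Finset.sum_congr rfl fun x _ => ?_
          rw [Finset.sum_const, Finset.card_univ, Fintype.card_prod, Fintype.card_fin,
            Fintype.card_bool, nsmul_eq_mul]
          push_cast
          ring
      _ ≤ _ := mul_le_mul' le_rfl (ENNReal.sum_le_tsum _)
  have htot : ∑' n : ℕ, ENNReal.ofReal (phi q 0 (Box d n)) ≤ 2 * (d : ℝ≥0∞) * chi d q := by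
    refine (ENNReal.tsum_le_tsum hup).trans ?_
    rw [ENNReal.tsum_mul_left, ENNReal.tsum_comm]
    refine mul_le_mul' le_rfl (ENNReal.tsum_le_tsum fun x => le_of_eq ?_)
    rw [tsum_eq_single (nm x) (fun n hn => if_neg (Ne.symm hn)), if_pos rfl]
  have hinf : ∑' n : ℕ, ENNReal.ofReal (phi q 0 (Box d n)) = ⊤ := by
    rw [eq_top_iff]
    have h5 : (⊤ : ℝ≥0∞) = ∑' _n : ℕ, (1 : ℝ≥0∞) := by
      rw [ENNReal.tsum_const_eq_top_of_ne_zero one_ne_zero]
    rw [h5]
    refine ENNReal.tsum_le_tsum fun n => ?_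
    rw [← ENNReal.ofReal_one]
    exact ENNReal.ofReal_le_ofReal (hphi n)
  rw [hinf, top_le_iff] at htot
  exact ENNReal.mul_ne_top (ENNReal.mul_ne_top (by norm_num) (ENNReal.natCast_ne_top d)) h htot

/-- `chi` is at least of order `1 / (pcc - p)`. -/
theorem chi_low (hd : 1 ≤ d) {p : ℝ} (h0 : 0 ≤ p) (hp : p < pcc d) (hpc : pcc d < 1) :
    ENNReal.ofReal ((1 - p) / (2 * (d : ℝ) * (pcc d - p))) ≤ chi d p := by
  by_contra hcon
  push Not at hcon
  have h1 : p ≤ 1 := (hp.trans hpc).le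
  have hd0 : (0 : ℝ) < d := by exact_mod_cast hd
  have hfin : chi d p ≠ ⊤ := (hcon.trans_le le_top).ne
  set c := (chi d p).toReal with hc
  have hc0 : 0 ≤ c := ENNReal.toReal_nonneg
  have hcc : chi d p ≤ ENNReal.ofReal c := by rw [hc, ENNReal.ofReal_toReal hfin]
  have hpp : 0 < pcc d - p := by linarith
  have hq : 0 < 1 - p := by linarith
  have hlt : c < (1 - p) / (2 * (d : ℝ) * (pcc d - p)) := by
    have h2 := hcon
    rw [← ENNReal.ofReal_toReal hfin, ENNReal.ofReal_lt_ofReal_iff (by positivity)] at h2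
    exact h2
  rw [lt_div_iff₀ (by positivity)] at hlt
  -- choose `s`
  have hs0 : (pcc d - p) / (1 - p) < 1 := by
    rw [div_lt_one hq]
    linarith
  obtain ⟨s, hs1, hs2, hs3⟩ : ∃ s : ℝ, (pcc d - p) / (1 - p) < s ∧ s ≤ 1 ∧
      2 * (d : ℝ) * s * c < 1 := by
    have h3 : 2 * (d : ℝ) * ((pcc d - p) / (1 - p)) * c < 1 := by
      have : 2 * (d : ℝ) * ((pcc d - p) / (1 - p)) * c =
          c * (2 * (d : ℝ) * (pcc d - p)) / (1 - p) := by
        field_simp
      rw [this, div_lt_one hq]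
      exact hlt
    have h4 : ContinuousAt (fun s : ℝ => 2 * (d : ℝ) * s * c) ((pcc d - p) / (1 - p)) := by
      fun_prop
    have h5 : ∀ᶠ s in nhds ((pcc d - p) / (1 - p)), 2 * (d : ℝ) * s * c < 1 :=
      h4.eventually (gt_mem_nhds h3)
    have h6 : ∀ᶠ s in nhds ((pcc d - p) / (1 - p)), s < 1 := gt_mem_nhds hs0
    obtain ⟨s, ⟨h7, h8⟩, h9⟩ := ((h5.and h6).filter_mono nhdsWithin_le_nhds |>.and
      (self_mem_nhdsWithin : Set.Ioi ((pcc d - p) / (1 - p)) ∈ nhdsWithin _ _)).exists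
    exact ⟨s, h9, h8.le, h7⟩
  have hs4 : 0 ≤ s := (div_nonneg hpp.le hq.le).trans hs1.le
  have h10 := ChiLow_chi h0 h1 hs4 hs2 hcc hc0 hs3
  have hq0 : 0 ≤ pn p s := h0.trans (pn_ge h1 hs4)
  have hq1 : pn p s ≤ 1 := pn_le h1 hs2
  have h11 := le_pcc_of_chi hd hq0 hq1 (h10.trans_lt ENNReal.ofReal_lt_top).ne
  have h12 : pcc d < pn p s := by
    rw [div_lt_iff₀ hq] at hs1
    unfold pn
    nlinarith
  linarith

end SH
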