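import Pool.Agent.H29.SH.Gre

/-!
PROJECT LE (MP_0d9ad5_pr), block SH, Barsky-Aizenman. The events `FF v` are incompatible.
-/

namespace SH

open H5DF H5CF H95LBD H95LBS MeasureTheory
open scoped ENNReal

variable {d : ℕ}

/-- A cluster off `v` that does not contain `w` is connected off `w`. -/
lemma DisjV_off {v w y x : V d} {ω : Cfg d} (hw : w ∉ cluster (cut ({v} : Set (V d))ᶜ ω) y)
    (hx : x ∈ cluster (cut ({v} : Set (V d))ᶜ ω) y) :
    x ∈ cluster (cut ({w} : Set (V d))ᶜ ω) y := by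
  have hx' : Cn ({v} : Set (V d))ᶜ ω y x := hx
  refine Cn.ind (fun x => Cn ({w} : Set (V d))ᶜ ω y x) (Cn.refl _ _ _) ?_ hx'
  intro z t hz ih hzv htv ho
  have h1 : z ∈ ({w} : Set (V d))ᶜ := by
    rintro rfl
    exact hw hz
  have h2 : z + step t ∈ ({w} : Set (V d))ᶜ := by
    intro h
    have h3 : z + step t = w := h
    have h4 : Cn ({v} : Set (V d))ᶜ ω y (z + step t) := hz.trans (Cn.one ho hzv htv)
    rw [h3] at h4
    exact hw h4
  exact ih.trans (Cn.one ho h1 h2)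

lemma DisjV_one {v w : V d} (hvw : v ≠ w) {q : Cfg d × (V d → Bool)} {s : Dir d}
    (h0 : v ∈ cluster (cut ({w} : Set (V d))ᶜ q.1) 0) (ho : q.1 (edge v s) = true)
    (hw : w ∉ cluster (cut ({v} : Set (V d))ᶜ q.1) (v + step s))
    (h1 : q ∈ hitE {v} (v + step s)) : q ∈ hitE {w} 0 := by
  obtain ⟨x, hx, hg⟩ := h1
  have h2 : v + step s ∈ ({w} : Set (V d))ᶜ := by
    intro h
    have h3 : v + step s = w := h
    refine hw ?_
    rw [h3]
    exact Cn.refl _ _ _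
  have h3 : Cn ({w} : Set (V d))ᶜ q.1 0 v := h0
  have h4 : Cn ({w} : Set (V d))ᶜ q.1 v (v + step s) := Cn.one ho hvw h2
  have h5 : Cn ({w} : Set (V d))ᶜ q.1 (v + step s) x := DisjV_off hw hx
  exact ⟨x, (h3.trans h4).trans h5, hg⟩

lemma DisjV_key {v w : V d} (hvw : v ≠ w) {q : Cfg d × (V d → Bool)} {s1 s2 : Dir d}
    (h0 : v ∈ cluster (cut ({w} : Set (V d))ᶜ q.1) 0) (ho1 : q.1 (edge v s1) = true)
    (ho2 : q.1 (edge v s2) = true)
    (hd : v + step s2 ∉ cluster (cut ({v} : Set (V d))ᶜ q.1) (v + step s1))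
    (h1 : q ∈ hitE {v} (v + step s1)) (h2 : q ∈ hitE {v} (v + step s2)) : q ∈ hitE {w} 0 := by
  by_cases hw : w ∈ cluster (cut ({v} : Set (V d))ᶜ q.1) (v + step s1)
  · refine DisjV_one hvw h0 ho2 ?_ h2
    intro hw2
    have h3 : Cn ({v} : Set (V d))ᶜ q.1 (v + step s1) w := hw
    have h4 : Cn ({v} : Set (V d))ᶜ q.1 (v + step s2) w := hw2
    exact hd (h3.trans h4.symm)
  · exact DisjV_one hvw h0 ho1 hw h1

lemma DisjV_step {v : V d} {s : Dir d} {S : Set (V d)} {ω : Cfg d} (ho : ω (edge v s) = true)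
    (h1 : v + step s ∈ S) (h2 : v ∈ S) : Cn S ω (v + step s) v :=
  (Cn.one ho h2 h1).symm

lemma ff_disj {v v' : V d} (h : v ≠ v') (s s1 s2 : Dir d) : Disjoint (FF v s s1 s2) (FF v' s s1 s2) := by
  refine Set.disjoint_left.2 ?_
  rintro q ⟨a1, a2, a3, a4, a5, a6, a7, a8, a9, a10⟩ ⟨b1, b2, b3, b4, b5, b6, b7, b8, b9, b10⟩
  by_cases hv : v' ∈ cluster (cut ({v} : Set (V d))ᶜ q.1) 0
  · exact a5 (DisjV_key h.symm hv b3 b4 b8 b9 b10)
  · have h1 : Cn ({v'} : Set (V d))ᶜ q.1 0 (v + step s) := DisjV_off hv a1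
    have h2 : v + step s ∈ ({v'} : Set (V d))ᶜ := by
      intro h3
      have h4 : v + step s = v' := h3
      rw [h4] at a1
      exact hv a1
    have h5 : Cn ({v'} : Set (V d))ᶜ q.1 0 v := h1.trans (DisjV_step a2 h2 h)
    exact b5 (DisjV_key h h5 a3 a4 a8 a9 a10)

lemma ff_sub (v : V d) (s s1 s2 : Dir d) : FF v s s1 s2 ⊆ hitE ∅ 0 := by
  rintro q ⟨a1, a2, a3, -, -, -, -, -, ⟨x, hx, hg⟩, -⟩
  have hS : ∀ y : V d, y ∈ (∅ : Set (V d))ᶜ := fun y h => h
  have h1 : Cn ({v} : Set (V d))ᶜ q.1 0 (v + step s) := a1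
  have h2 : Cn ({v} : Set (V d))ᶜ q.1 (v + step s1) x := hx
  have h3 : Cn (∅ : Set (V d))ᶜ q.1 0 (v + step s) := h1.mono (fun y _ => hS y) fun _ h => h
  have h4 : Cn (∅ : Set (V d))ᶜ q.1 (v + step s1) x := h2.mono (fun y _ => hS y) fun _ h => h
  have h5 : Cn (∅ : Set (V d))ᶜ q.1 (v + step s) v := DisjV_step a2 (hS _) (hS _)
  have h6 : Cn (∅ : Set (V d))ᶜ q.1 v (v + step s1) := Cn.one a3 (hS _) (hS _)
  exact ⟨x, ((h3.trans h5).trans h6).trans h4, hg⟩

lemma DisjV_meas_off (S : Set (V d)) (y x : V d) :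
    MeasurableSet {q : Cfg d × (V d → Bool) | x ∈ cluster (cut S q.1) y} :=
  measurable_fst (meas_off S y x)

lemma DisjV_meas_open (e : Ed d) : MeasurableSet {q : Cfg d × (V d → Bool) | q.1 e = true} := by
  have h : Measurable fun q : Cfg d × (V d → Bool) => q.1 e :=
    (measurable_pi_apply e).comp measurable_fst
  exact h (MeasurableSet.of_discrete (s := ({true} : Set Bool)))

lemma meas_FF (v : V d) (s s1 s2 : Dir d) : MeasurableSet (FF v s s1 s2) := by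
  refine (DisjV_meas_off _ _ _).inter ((DisjV_meas_open _).inter ((DisjV_meas_open _).inter
    ((DisjV_meas_open _).inter ((meas_hitE _ _).compl.inter ((DisjV_meas_off _ _ _).compl.inter
    ((DisjV_meas_off _ _ _).compl.inter ((DisjV_meas_off _ _ _).compl.inter
    ((meas_hitE _ _).inter (meas_hitE _ _)))))))))

theorem ff_sum (p ρ : ℝ) (s s1 s2 : Dir d) : ∑' v : V d, mu d p ρ (FF v s s1 s2) ≤ Mz d p ρ := by
  have h1 : mu d p ρ (⋃ v : V d, FF v s s1 s2) = ∑' v : V d, mu d p ρ (FF v s s1 s2) :=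
    measure_iUnion (fun v v' h => ff_disj h s s1 s2) fun v => meas_FF v s s1 s2
  rw [← h1, Mz, MG, Finset.coe_empty]
  exact measure_mono (Set.iUnion_subset fun v => ff_sub v s s1 s2)

end SH
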