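import Pool.Agent.H29.SH.Defs
import Pool.Agent.H95.LBD.PhiLow

/-!
PROJECT LE (MP_0d9ad5_pr), block SH. The inequality of Simon and Lieb.
-/

namespace SH

open H5DF H5CF H95LBD H95LBS MeasureTheory
open scoped ENNReal

variable {d : ℕ}

lemma Lieb_exit {ω : Cfg d} {S : Set (V d)} {u w : V d} (P : (G ω).Walk u w)
    (hP : P.IsTrail) (hu : u ∈ S) (hw : w ∉ S) :
    ∃ b : V d × Dir d, b.1 ∈ S ∧ b.1 + step b.2 ∉ S ∧ ω (edge b.1 b.2) = true ∧
      ∃ (P1 : (G ω).Walk u b.1) (P2 : (G ω).Walk (b.1 + step b.2) w),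
        (∀ z ∈ P1.support, z ∈ S) ∧ (∀ e ∈ P1.edges, e ∉ P2.edges) ∧
        s(b.1, b.1 + step b.2) ∉ P2.edges ∧
        (∀ e ∈ P1.edges, e ∈ P.edges) ∧ ∀ e ∈ P2.edges, e ∈ P.edges := by
  induction P with
  | nil => exact absurd hu hw
  | @cons x z y h P' ih =>
    rw [SimpleGraph.Walk.isTrail_cons] at hP
    by_cases hz : z ∈ S
    · obtain ⟨b, hb1, hb2, hb3, P1, P2, h1, h2, h5, h3, h4⟩ := ih hP.1 hz hw
      refine ⟨b, hb1, hb2, hb3, SimpleGraph.Walk.cons h P1, P2, ?_, ?_, h5, ?_, ?_⟩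
      · intro v hv
        rw [SimpleGraph.Walk.support_cons, List.mem_cons] at hv
        rcases hv with rfl | hv
        · exact hu
        · exact h1 v hv
      · intro e he
        rw [SimpleGraph.Walk.edges_cons, List.mem_cons] at he
        rcases he with rfl | he
        · exact fun h5 => hP.2 (h4 _ h5)
        · exact h2 e he
      · intro e he
        rw [SimpleGraph.Walk.edges_cons, List.mem_cons] at he ⊢
        rcases he with rfl | he
        · exact Or.inl rfl
        · exact Or.inr (h3 e he)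
      · intro e he
        rw [SimpleGraph.Walk.edges_cons, List.mem_cons]
        exact Or.inr (h4 e he)
    · obtain ⟨s, rfl, hs⟩ := h
      refine ⟨(x, s), hu, hz, hs, SimpleGraph.Walk.nil, P', ?_, ?_, hP.2, ?_, ?_⟩
      · intro v hv
        rw [SimpleGraph.Walk.support_nil, List.mem_singleton] at hv
        rw [hv]
        exact hu
      · intro e he
        simp at he
      · intro e he
        simp at he
      · intro e he
        rw [SimpleGraph.Walk.edges_cons, List.mem_cons]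
        exact Or.inr he

lemma Lieb_dec (S : Finset (V d)) (hS : (0 : V d) ∈ S) (x : V d) (hx : x ∉ S) :
    SCn {(0 : V d)} Set.univ x ⊆ ⋃ b ∈ bd S,
      disj (disj (SCn (Box d 0) (S : Set (V d)) b.1) {ω : Cfg d | ω (edge b.1 b.2) = true})
        (SCn {b.1 + step b.2} Set.univ x) := by
  classical
  rintro ω ⟨u, hu0, hu⟩
  rw [Finset.mem_singleton] at hu0
  subst hu0
  have hr : (G ω).Reachable 0 x := Cn_univ.1 hu
  obtain ⟨P, hP⟩ := hr.exists_isPath
  obtain ⟨b, hb1, hb2, hb3, P1, P2, h1, h2, h5, -, -⟩ := Lieb_exit (S := (S : Set (V d))) P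
    hP.isTrail (Finset.mem_coe.2 hS) (fun h => hx (Finset.mem_coe.1 h))
  have hbS : b ∈ bd S := by
    rw [bd, Finset.mem_filter, Finset.mem_product]
    exact ⟨⟨Finset.mem_coe.1 hb1, Finset.mem_univ _⟩, fun h => hb2 (Finset.mem_coe.2 h)⟩
  have h6 : s(b.1, b.1 + step b.2) ∉ P1.edges := fun h =>
    hb2 (h1 _ (SimpleGraph.Walk.snd_mem_support_of_mem_edges P1 h))
  refine Set.mem_biUnion (Finset.mem_coe.2 hbS) ?_
  refine ⟨fun e => decide (decA_sym e ∈ P1.edges ∨ decA_sym e = s(b.1, b.1 + step b.2)),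
    ⟨fun e => decide (decA_sym e ∈ P1.edges), ⟨0, ?_, ?_⟩, ?_⟩,
    ⟨b.1 + step b.2, Finset.mem_singleton_self _, ?_⟩⟩
  · rw [mem_Box', nm_zero]
  · rw [Cn_iff_walk (Finset.mem_coe.2 hS)]
    refine ⟨P1.transfer _ ?_, ?_⟩
    · intro e he
      have hG := P1.edges_subset_edgeSet he
      induction e with
      | h y z =>
        rw [SimpleGraph.mem_edgeSet] at hG ⊢
        obtain ⟨v, hv1, hv2⟩ := hG
        refine ⟨v, hv1, ?_⟩
        have h7 : decA_sym (edge y v) ∈ P1.edges := by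
          rw [decA_sym, sym_edge, ← hv1]
          exact he
        simp [hv2, h7]
    · intro z hz
      rw [SimpleGraph.Walk.support_transfer] at hz
      exact h1 z hz
  · have h7 : decA_sym (edge b.1 b.2) = s(b.1, b.1 + step b.2) := by
      rw [decA_sym, sym_edge]
    have h8 : decA_sym (edge b.1 b.2) ∉ P1.edges := by
      rw [h7]
      exact h6
    simp [hb3, h7, h6]
  · rw [Cn_univ]
    refine decA_tr P2 ?_
    intro e h7 h8
    have h9 : decA_sym e ∉ P1.edges := fun h => h2 _ h h8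
    have h10 : decA_sym e ≠ s(b.1, b.1 + step b.2) := by
      intro h
      rw [h] at h8
      exact h5 h8
    simp [h7, h9, h10]

lemma Lieb_inc (e : Ed d) : Inc {ω : Cfg d | ω e = true} := by
  intro ω ω' h h1
  exact h e h1

lemma Lieb_fw (x : V d) (s : Dir d) : Fw {ω : Cfg d | ω (edge x s) = true} := by
  intro ω h
  refine ⟨max (nm x) (nm (x + step s)), ?_⟩
  change cut _ ω (edge x s) = true
  rw [cut_edge]
  exact ⟨h, mem_Bx0.2 (le_max_left _ _), mem_Bx0.2 (le_max_right _ _)⟩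

open Classical in
theorem lieb {p : ℝ} (h0 : 0 ≤ p) (h1 : p ≤ 1) (S : Finset (V d)) (hS : (0 : V d) ∈ S) (x : V d) :
    tau d p x ≤ (if x ∈ S then 1 else 0) + ∑ b ∈ bd S,
      ENNReal.ofReal (p * (perc d p).real (SCn (Box d 0) (S : Set (V d)) b.1)) *
        tau d p (x - (b.1 + step b.2)) := by
  have hpr := isProb_perc (d := d) p h0 h1
  by_cases hx : x ∈ S
  · rw [if_pos hx]
    refine le_trans ?_ le_self_add
    exact prob_le_one
  · rw [if_neg hx, zero_add]
    have e1 : tau d p x = perc d p (SCn {(0 : V d)} Set.univ x) := by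
      rw [perc_conn p h0 h1, sub_zero]
    rw [e1]
    refine (measure_mono (Lieb_dec S hS x hx)).trans ((measure_biUnion_finset_le _ _).trans ?_)
    refine Finset.sum_le_sum fun b _ => ?_
    refine (bk_inf p h0 h1 _ _ (disj_inc (SCn_inc _ _ _) (Lieb_inc _)) (SCn_inc _ _ _)
      (disj_fw (SCn_inc _ _ _) (Lieb_inc _) (SCn_fw _ _ _) (Lieb_fw _ _))
      (SCn_fw _ _ _)).trans ?_
    rw [perc_conn p h0 h1]
    refine mul_le_mul' ?_ le_rfl
    refine (bk_inf p h0 h1 _ _ (SCn_inc _ _ _) (Lieb_inc _) (SCn_fw _ _ _)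
      (Lieb_fw _ _)).trans (le_of_eq ?_)
    have h := bern_coord h0 h1 (edge b.1 b.2) true
    rw [bern_true] at h
    have h2 : perc d p {ω : Cfg d | ω (edge b.1 b.2) = true} = ENNReal.ofReal p := h
    rw [h2, ENNReal.ofReal_mul h0, mul_comm]
    congr 1
    rw [Measure.real, ENNReal.ofReal_toReal (measure_ne_top _ _)]

end SH
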