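import Pool.Agent.H29.SH.Pc
import Pool.Agent.H29.SH.Lieb
import Pool.Agent.H70.CF.KerS
import Pool.Agent.H95.LE.Def

/-!
PROJECT LE (MP_0d9ad5_pr), block SH. Exponential decay below `pcc`.
-/

namespace SH

open H5DF H5CF H95LBD H95LBS MeasureTheory
open scoped ENNReal

variable {d : ℕ}

lemma expD_bd {S : Finset (V d)} {b : V d × Dir d} (hb : b ∈ bd S) : b.1 ∈ S := by
  unfold bd at hb
  rw [Finset.mem_filter, Finset.mem_product] at hb
  exact hb.1.1

/-- Geometric decay in the scale given by `S`. -/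
lemma expD_geo {p : ℝ} (h0 : 0 ≤ p) (h1 : p ≤ 1) {S : Finset (V d)} (hS : (0 : V d) ∈ S)
    (k : ℕ) (x : V d) (hx : k * (S.sup nm + 2) ≤ nm x) :
    tau d p x ≤ ENNReal.ofReal ((p * phi p 0 S) ^ k) := by
  classical
  induction k generalizing x with
  | zero =>
    rw [pow_zero, ENNReal.ofReal_one]
    have := isProb_perc (d := d) p h0 h1
    exact prob_le_one
  | succ k ih =>
    set R := S.sup nm + 2 with hR
    have hxS : x ∉ S := by
      intro h
      have h2 : nm x ≤ S.sup nm := Finset.le_sup (f := nm) h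
      have h3 : R ≤ (k + 1) * R := Nat.le_mul_of_pos_left _ (by omega)
      omega
    refine (lieb h0 h1 S hS x).trans ?_
    rw [if_neg hxS, zero_add]
    have e1 : ∀ b ∈ bd S,
        ENNReal.ofReal (p * (perc d p).real (SCn (Box d 0) (S : Set (V d)) b.1)) *
          tau d p (x - (b.1 + step b.2)) ≤
        ENNReal.ofReal (p * (perc d p).real (SCn (Box d 0) (S : Set (V d)) b.1) *
          (p * phi p 0 S) ^ k) := by
      intro b hb
      rw [ENNReal.ofReal_mul (q := (p * phi p 0 S) ^ k)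
        (mul_nonneg h0 (measureReal_nonneg))]
      refine mul_le_mul' le_rfl (ih _ ?_)
      have h2 : nm b.1 ≤ S.sup nm := Finset.le_sup (f := nm) (expD_bd hb)
      have h3 := nm_add_step b.1 b.2
      have h4 := nm_le_add x (b.1 + step b.2)
      have h5 : (k + 1) * R = k * R + R := by ring
      omega
    refine (Finset.sum_le_sum e1).trans ?_
    rw [← ENNReal.ofReal_sum_of_nonneg]
    · refine ENNReal.ofReal_le_ofReal (le_of_eq ?_)
      rw [← Finset.sum_mul, ← Finset.mul_sum, pow_succ']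
      rfl
    · intro b _
      have := phi_nonneg p S
      positivity

theorem tau_exp (hd : 1 ≤ d) {p : ℝ} (h0 : 0 ≤ p) (hp : p < pcc d) :
    ∃ C c : ℝ, 0 < C ∧ 0 < c ∧ ∀ x : V d, tau d p x ≤ ENNReal.ofReal (C * Real.exp (-(c * nm x))) := by
  have h1 : p ≤ 1 := hp.le.trans (pcc_le_one hd)
  obtain ⟨S, hS, hphi⟩ := small_of_lt hd h0 hp
  set φ := p * phi p 0 S with hφ
  have hφ0 : 0 ≤ φ := mul_nonneg h0 (phi_nonneg p S)
  set R := S.sup nm + 2 with hR
  have hR0 : 0 < R := by omega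
  have hRr : (0 : ℝ) < R := by exact_mod_cast hR0
  set ψ := max φ (1 / 2) with hψ
  have hψ0 : 0 < ψ := lt_of_lt_of_le (by norm_num) (le_max_right _ _)
  have hψ1 : ψ < 1 := max_lt hphi (by norm_num)
  have hlog : Real.log ψ < 0 := Real.log_neg hψ0 hψ1
  refine ⟨1 / ψ, -Real.log ψ / R, by positivity, div_pos (by linarith) hRr, ?_⟩
  intro x
  have hk1 : nm x / R * R ≤ nm x := Nat.div_mul_le_self _ _
  refine (expD_geo h0 h1 hS (nm x / R) x hk1).trans ?_
  refine ENNReal.ofReal_le_ofReal ?_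
  have hk2 : (nm x : ℝ) ≤ ((nm x / R : ℕ) + 1 : ℝ) * R := by
    have h2 : nm x < (nm x / R + 1) * R := by
      have := Nat.lt_div_mul_add hR0 (a := nm x)
      have h3 : (nm x / R + 1) * R = nm x / R * R + R := by ring
      omega
    have h4 : ((nm x : ℕ) : ℝ) ≤ (((nm x / R + 1) * R : ℕ) : ℝ) := by exact_mod_cast h2.le
    push_cast at h4
    exact h4
  set k := nm x / R with hk
  have e1 : Real.log ψ * ((k : ℝ) + 1) ≤ -(-Real.log ψ / R * (nm x : ℝ)) := by
    have e2 : -(-Real.log ψ / R * (nm x : ℝ)) = Real.log ψ * ((nm x : ℝ) / R) := by ring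
    rw [e2]
    have e3 : (nm x : ℝ) / R ≤ (k : ℝ) + 1 := by
      rw [div_le_iff₀ hRr]
      exact hk2
    exact mul_le_mul_of_nonpos_left e3 hlog.le
  have e4 : ψ ^ (k + 1) ≤ Real.exp (-(-Real.log ψ / R * (nm x : ℝ))) := by
    calc ψ ^ (k + 1) = Real.exp (Real.log ψ * ((k : ℝ) + 1)) := by
          rw [← Real.rpow_natCast, Real.rpow_def_of_pos hψ0]
          push_cast
          rfl
      _ ≤ _ := Real.exp_le_exp.2 e1
  calc φ ^ k ≤ ψ ^ k := pow_le_pow_left₀ hφ0 (le_max_left _ _) k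
    _ = 1 / ψ * ψ ^ (k + 1) := by
      rw [pow_succ']
      field_simp
    _ ≤ _ := mul_le_mul_of_nonneg_left e4 (by positivity)

theorem mom_fin (hd : 1 ≤ d) {p : ℝ} (h0 : 0 ≤ p) (hp : p < pcc d) (m : ℕ) :
    ∑' x : V d, ENNReal.ofReal ((1 + (nm x : ℝ)) ^ m) * tau d p x < ⊤ := by
  obtain ⟨C, c, hC, hc, h⟩ := tau_exp hd h0 hp
  obtain ⟨K, hK, hK2⟩ := CF.KerS_le (d := d) hd
  set t := min c 1 with ht
  have ht0 : 0 < t := lt_min hc one_pos
  have ht1 : t ≤ 1 := min_le_right _ _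
  have htc : t ≤ c := min_le_left _ _
  have e1 : ∀ x : V d, ENNReal.ofReal ((1 + (nm x : ℝ)) ^ m) * tau d p x ≤
      ENNReal.ofReal ((fun k : ℕ => (1 + (k : ℝ)) ^ m * (C * Real.exp (-(t * k)))) (nm x)) := by
    intro x
    rw [ENNReal.ofReal_mul (by positivity)]
    refine mul_le_mul' le_rfl ((h x).trans (ENNReal.ofReal_le_ofReal ?_))
    refine mul_le_mul_of_nonneg_left (Real.exp_le_exp.2 ?_) hC.le
    have : t * (nm x : ℝ) ≤ c * nm x := mul_le_mul_of_nonneg_right htc (Nat.cast_nonneg _)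
    linarith
  refine lt_of_le_of_lt (ENNReal.tsum_le_tsum e1) ?_
  set M := (2 / t) ^ (d - 1 + m) * ((d - 1 + m).factorial : ℝ) * Real.exp (t / 2) with hM
  have hM0 : 0 ≤ M := by positivity
  refine lt_of_le_of_lt (hK2 (fun k : ℕ => (1 + (k : ℝ)) ^ m * (C * Real.exp (-(t * k))))
    (C * (M * (4 / t))) (fun k => by positivity) ?_) ENNReal.ofReal_lt_top
  intro N
  calc ∑ k ∈ Finset.range N, (1 + (k : ℝ)) ^ (d - 1) *
        ((1 + (k : ℝ)) ^ m * (C * Real.exp (-(t * k))))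
      = ∑ k ∈ Finset.range N, C * ((1 + (k : ℝ)) ^ (d - 1 + m) * Real.exp (-(t * k))) := by
        refine Finset.sum_congr rfl fun k _ => ?_
        rw [pow_add]
        ring
    _ ≤ ∑ k ∈ Finset.range N, C * (M * Real.exp (-(t / 2)) ^ k) := by
        refine Finset.sum_le_sum fun k _ => mul_le_mul_of_nonneg_left ?_ hC.le
        exact CF.KerS_pt (d - 1 + m) ht0 k
    _ = C * (M * ∑ k ∈ Finset.range N, Real.exp (-(t / 2)) ^ k) := by
        rw [Finset.mul_sum, Finset.mul_sum]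
    _ ≤ C * (M * (4 / t)) :=
        mul_le_mul_of_nonneg_left (mul_le_mul_of_nonneg_left (CF.KerS_geom ht0 ht1 N) hM0) hC.le

theorem chi_fin (hd : 1 ≤ d) {p : ℝ} (h0 : 0 ≤ p) (hp : p < pcc d) : chi d p < ⊤ := by
  have h := mom_fin hd h0 hp 0
  simp only [pow_zero, ENNReal.ofReal_one, one_mul] at h
  exact h

lemma expD_w2 (x : V d) : (H95LE.w2 x : ℝ≥0∞) ≤
    ENNReal.ofReal (1 + (d : ℝ)) * ENNReal.ofReal ((1 + (nm x : ℝ)) ^ 2) := by
  rw [← ENNReal.ofReal_mul (by positivity)]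
  have e1 : (H95LE.w2 x : ℝ) ≤ (1 + (d : ℝ)) * (1 + (nm x : ℝ)) ^ 2 := by
    unfold H95LE.w2
    push_cast
    have e2 : ∑ i, ((x i).natAbs : ℝ) ^ 2 ≤ ∑ _i : Fin d, (nm x : ℝ) ^ 2 := by
      refine Finset.sum_le_sum fun i _ => ?_
      have : ((x i).natAbs : ℝ) ≤ nm x := by exact_mod_cast natAbs_le_nm x i
      exact pow_le_pow_left₀ (Nat.cast_nonneg _) this 2
    rw [Finset.sum_const, Finset.card_univ, Fintype.card_fin, nsmul_eq_mul] at e2
    have e3 : (0 : ℝ) ≤ nm x := Nat.cast_nonneg _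
    have e4 : (0 : ℝ) ≤ d := Nat.cast_nonneg _
    nlinarith [mul_nonneg e4 e3, sq_nonneg (nm x : ℝ)]
  calc (H95LE.w2 x : ℝ≥0∞) = ENNReal.ofReal (H95LE.w2 x : ℝ) := by
        rw [ENNReal.ofReal_natCast]
    _ ≤ _ := ENNReal.ofReal_le_ofReal e1

theorem gt_fin (hd : 1 ≤ d) {p : ℝ} (h0 : 0 ≤ p) (hp : p < pcc d) :
    ∑' x : V d, H95LE.gt d p x < ⊤ := by
  have e1 : ∀ x : V d, H95LE.gt d p x ≤ ENNReal.ofReal (1 + (d : ℝ)) *
      (ENNReal.ofReal ((1 + (nm x : ℝ)) ^ 2) * tau d p x) := by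
    intro x
    rw [← mul_assoc]
    exact mul_le_mul' (expD_w2 x) le_rfl
  refine lt_of_le_of_lt (ENNReal.tsum_le_tsum e1) ?_
  rw [ENNReal.tsum_mul_left]
  exact ENNReal.mul_lt_top ENNReal.ofReal_lt_top (mom_fin hd h0 hp 2)

theorem chi_le (hd : 1 ≤ d) {p : ℝ} (h0 : 0 ≤ p) (hp : 2 * (d : ℝ) * p < 1) :
    chi d p ≤ ENNReal.ofReal (1 / (1 - 2 * (d : ℝ) * p)) := by
  classical
  have hdr : (1 : ℝ) ≤ d := by exact_mod_cast hd
  have hlt : p < pcc d := by
    refine lt_of_lt_of_le ?_ (pcc_ge hd)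
    rw [lt_div_iff₀ (by positivity)]
    linarith
  have h1 : p ≤ 1 := hlt.le.trans (pcc_le_one hd)
  have hfin := (chi_fin hd h0 hlt).ne
  have hprob := isProb_perc (d := d) p h0 h1
  have e1 : ∀ x : V d, tau d p x ≤ (if x = 0 then 1 else 0) +
      ∑ b ∈ bd ({0} : Finset (V d)), ENNReal.ofReal p * tau d p (x - (b.1 + step b.2)) := by
    intro x
    have h2 := lieb h0 h1 {0} (Finset.mem_singleton_self _) x
    simp only [Finset.mem_singleton] at h2
    refine h2.trans (add_le_add le_rfl (Finset.sum_le_sum fun b _ => mul_le_mul' ?_ le_rfl))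
    exact ENNReal.ofReal_le_ofReal (mul_le_of_le_one_right h0 measureReal_le_one)
  have e2 : chi d p ≤ 1 + ((bd ({0} : Finset (V d))).card : ℝ≥0∞) * (ENNReal.ofReal p * chi d p) := by
    calc chi d p ≤ ∑' x : V d, ((if x = 0 then 1 else 0) +
          ∑ b ∈ bd ({0} : Finset (V d)), ENNReal.ofReal p * tau d p (x - (b.1 + step b.2))) :=
          ENNReal.tsum_le_tsum e1
      _ = 1 + ∑ b ∈ bd ({0} : Finset (V d)), ENNReal.ofReal p * chi d p := by
          rw [ENNReal.tsum_add, tsum_ite_eq,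
            Summable.tsum_finsetSum (fun b _ => ENNReal.summable)]
          congr 1
          refine Finset.sum_congr rfl fun b _ => ?_
          rw [ENNReal.tsum_mul_left]
          congr 1
          exact (Equiv.subRight (b.1 + step b.2)).tsum_eq (fun y => tau d p y)
      _ = _ := by
          rw [Finset.sum_const, nsmul_eq_mul]
  have e3 : (bd ({0} : Finset (V d))).card ≤ 2 * d := by
    unfold bd
    refine (Finset.card_filter_le _ _).trans ?_
    rw [Finset.card_product, Finset.card_singleton, one_mul, Finset.card_univ,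
      Fintype.card_prod, Fintype.card_fin, Fintype.card_bool]
    omega
  have e4 : chi d p ≤ 1 + ((2 * d : ℕ) : ℝ≥0∞) * (ENNReal.ofReal p * chi d p) := by
    refine e2.trans (add_le_add le_rfl (mul_le_mul' ?_ le_rfl))
    exact_mod_cast e3
  set c := (chi d p).toReal with hc
  have hcc : chi d p = ENNReal.ofReal c := (ENNReal.ofReal_toReal hfin).symm
  have hc0 : 0 ≤ c := ENNReal.toReal_nonneg
  rw [hcc] at e4 ⊢
  have e5 : (1 : ℝ≥0∞) + ((2 * d : ℕ) : ℝ≥0∞) * (ENNReal.ofReal p * ENNReal.ofReal c) =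
      ENNReal.ofReal (1 + 2 * d * (p * c)) := by
    rw [ENNReal.ofReal_add (by norm_num) (by positivity), ENNReal.ofReal_one,
      ENNReal.ofReal_mul (by positivity), ENNReal.ofReal_mul h0]
    congr 2
    rw [← ENNReal.ofReal_natCast]
    push_cast
    rfl
  rw [e5, ENNReal.ofReal_le_ofReal_iff (by positivity)] at e4
  refine ENNReal.ofReal_le_ofReal ?_
  rw [le_div_iff₀ (by linarith)]
  linarith

end SH
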