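import Pool.Agent.H29.SH.DisjV
import Pool.Agent.H5.DG.Explore2

/-!
PROJECT LE (MP_0d9ad5_pr), block SH, Barsky-Aizenman. Exploration of the cluster of the origin off
one vertex.
-/

namespace SH

open H5DF H5CF H95LBD H95LBS MeasureTheory
open scoped ENNReal

variable {d : ℕ}

lemma Expl_edge_inj (v : V d) {s t : Dir d} (h : edge v s = edge v t) : s = t := by
  obtain ⟨i, b⟩ := s
  obtain ⟨j, c⟩ := t
  have h2 : i = j := by
    have h3 := congrArg Prod.snd h
    cases b <;> cases c <;> simpa [edge] using h3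
  subst h2
  have h4 := congrFun (congrArg Prod.fst h) i
  cases b <;> cases c <;> simp [edge, step] at h4 ⊢

lemma Expl_cut_eq {T : Set (V d)} {ω ω' : Cfg d} (h : ∀ e ∈ ins T, ω e = ω' e) :
    cut T ω = cut T ω' := by
  funext e
  apply Bool.eq_iff_iff.2
  rw [cut_true, cut_true]
  constructor
  · rintro ⟨h1, h2⟩
    exact ⟨by rw [← h e h2]; exact h1, h2⟩
  · rintro ⟨h1, h2⟩
    exact ⟨by rw [h e h2]; exact h1, h2⟩

lemma Expl_cut_cut (S B : Set (V d)) (ω : Cfg d) : cut Bᶜ (cut Sᶜ ω) = cut (S ∪ B)ᶜ ω := by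
  funext e
  apply Bool.eq_iff_iff.2
  rw [cut_true, cut_true, cut_true]
  constructor
  · rintro ⟨⟨h1, h2, h3⟩, h4, h5⟩
    exact ⟨h1, fun h => h.elim h2 h4, fun h => h.elim h3 h5⟩
  · rintro ⟨h1, h2, h3⟩
    exact ⟨⟨h1, fun h => h2 (Or.inl h), fun h => h3 (Or.inl h)⟩, fun h => h2 (Or.inr h),
      fun h => h3 (Or.inr h)⟩

/-- If `B` is the cluster of `0` off `S` then clusters off `S` of points off `B` are clusters off
`S ∪ B`. -/
lemma Expl_cl {S B : Set (V d)} {ω : Cfg d} {x y : V d} (hB : cluster (cut Sᶜ ω) x = B)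
    (hy : y ∉ B) : cluster (cut Sᶜ ω) y = cluster (cut (S ∪ B)ᶜ ω) y := by
  rw [← Expl_cut_cut]
  symm
  refine cluster_off' ?_ hy
  intro u hu
  rw [← hB] at hu ⊢
  rw [cluster_eq_of_mem hu]

/-- The three open edges. -/
lemma Expl_three {p : ℝ} (h0 : 0 ≤ p) (h1 : p ≤ 1) (v : V d) {s s1 s2 : Dir d} (hs1 : s ≠ s1)
    (hs2 : s ≠ s2) (hs12 : s1 ≠ s2) :
    perc d p {ω | ω (edge v s) = true ∧ ω (edge v s1) = true ∧ ω (edge v s2) = true} =
      ENNReal.ofReal p ^ 3 := by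
  classical
  have := isProb_bern h0 h1
  have h : {ω : Cfg d | ω (edge v s) = true ∧ ω (edge v s1) = true ∧ ω (edge v s2) = true} =
      (({edge v s, edge v s1, edge v s2} : Finset (Ed d)) : Set (Ed d)).pi
        (fun _ => ({true} : Set Bool)) := by
    ext ω
    simp
  rw [h]
  unfold perc
  rw [Measure.infinitePi_pi _ (fun i _ => MeasurableSet.of_discrete)]
  simp only [bern_true, Finset.prod_const]
  congr 1
  refine Finset.card_eq_three.2 ⟨_, _, _, ?_, ?_, ?_, rfl⟩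
  · exact fun h => hs1 (Expl_edge_inj v h)
  · exact fun h => hs2 (Expl_edge_inj v h)
  · exact fun h => hs12 (Expl_edge_inj v h)

/-- The event of `QQ`. -/
def Expl_Q (S : Set (V d)) (y1 y2 : V d) : Set (Cfg d × (V d → Bool)) :=
  {q | y2 ∉ cluster (cut Sᶜ q.1) y1 ∧ q ∈ hitE S y1 ∧ q ∈ hitE S y2}

lemma Expl_measQ (S : Set (V d)) (y1 y2 : V d) : MeasurableSet (Expl_Q S y1 y2) := by
  have h1 : MeasurableSet {q : Cfg d × (V d → Bool) | y2 ∈ cluster (cut Sᶜ q.1) y1} :=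
    measurable_fst (meas_off Sᶜ y1 y2)
  exact h1.compl.inter ((meas_hitE S y1).inter (meas_hitE S y2))

lemma Expl_hit_fst {S : Set (V d)} {y : V d} {ω ω' : Cfg d} {g : V d → Bool}
    (h : ∀ e ∈ ins Sᶜ, ω e = ω' e) (hq : (ω, g) ∈ hitE S y) : (ω', g) ∈ hitE S y := by
  obtain ⟨x, h1, h2⟩ := hq
  refine ⟨x, ?_, h2⟩
  show x ∈ cluster (cut Sᶜ ω') y
  rw [← Expl_cut_eq h]
  exact h1

lemma Expl_hit_snd {S : Set (V d)} {y : V d} {ω : Cfg d} {g g' : V d → Bool} (hy : y ∉ S)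
    (h : ∀ x, x ∉ S → g x = g' x) (hq : (ω, g) ∈ hitE S y) : (ω, g') ∈ hitE S y := by
  obtain ⟨x, h1, h2⟩ := hq
  refine ⟨x, h1, ?_⟩
  show g' x = true
  rw [← h x (cut_off_mem hy h1)]
  exact h2

/-- The explored event. -/
def Expl_E (v : V d) (s s1 s2 : Dir d) (B : Finset (V d)) : Set (Cfg d × (V d → Bool)) :=
  {q | q.1 ∈ {ω : Cfg d | (ω (edge v s) = true ∧ ω (edge v s1) = true ∧ ω (edge v s2) = true) ∧
      cluster (cut ({v} : Set (V d))ᶜ ω) 0 = (B : Set (V d))} ∧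
    q ∈ {q : Cfg d × (V d → Bool) | q.2 ∈ {g : V d → Bool | ∀ x ∈ B, g x = false} ∧
      q ∈ Expl_Q ({v} ∪ (B : Set (V d))) (v + step s1) (v + step s2)}}

lemma Expl_measG (B : Finset (V d)) : MeasurableSet {g : V d → Bool | ∀ x ∈ B, g x = false} := by
  have h : {g : V d → Bool | ∀ x ∈ B, g x = false} = ⋂ x ∈ B, {g : V d → Bool | g x = false} := by
    ext g
    simp
  rw [h]
  exact Finset.measurableSet_biInter B fun x _ =>
    (measurable_pi_apply (X := fun _ : V d => Bool) x) (MeasurableSet.of_discrete (s := {false}))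

lemma Expl_meas3 (v : V d) (s s1 s2 : Dir d) : MeasurableSet {ω : Cfg d |
    ω (edge v s) = true ∧ ω (edge v s1) = true ∧ ω (edge v s2) = true} :=
  (meas_open _).inter ((meas_open _).inter (meas_open _))

lemma Expl_measE (v : V d) (s s1 s2 : Dir d) (B : Finset (V d)) :
    MeasurableSet (Expl_E v s s1 s2 B) :=
  (measurable_fst ((Expl_meas3 v s s1 s2).inter (meas_cl _ _ _))).inter
    ((measurable_snd (Expl_measG B)).inter (Expl_measQ _ _ _))

/-- The probability of the explored event. -/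
lemma Expl_prob {p ρ : ℝ} (h0 : 0 ≤ p) (h1 : p ≤ 1) (hρ0 : 0 ≤ ρ) (hρ1 : ρ ≤ 1) (v : V d)
    {s s1 s2 : Dir d} (hs1 : s ≠ s1) (hs2 : s ≠ s2) (hs12 : s1 ≠ s2) (B : Finset (V d))
    (hb1 : v + step s1 ∉ B) (hb2 : v + step s2 ∉ B) :
    mu d p ρ (Expl_E v s s1 s2 B) = (ENNReal.ofReal p ^ 3 * CF.cl p {v} 0 B) *
      (ENNReal.ofReal (ρ ^ B.card) *
        mu d p ρ (Expl_Q ({v} ∪ (B : Set (V d))) (v + step s1) (v + step s2))) := by
  have hg0 : 0 ≤ 1 - ρ := by linarith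
  have hg1 : 1 - ρ ≤ 1 := by linarith
  have hpp := isProb_gr (d := d) hρ0 hρ1
  have hpr := isProb_perc (d := d) p h0 h1
  have hy : ∀ t : Dir d, v + step t ∉ B → v + step t ∉ ({v} ∪ (B : Set (V d))) := by
    rintro t ht (h | h)
    · have h2 : v + step t = v := h
      exact step_ne_zero t (by simpa using h2)
    · exact ht (by exact_mod_cast h)
  -- the edges
  have hA3 : perc d p {ω : Cfg d | (ω (edge v s) = true ∧ ω (edge v s1) = true ∧
      ω (edge v s2) = true) ∧ cluster (cut ({v} : Set (V d))ᶜ ω) 0 = (B : Set (V d))} =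
      ENNReal.ofReal p ^ 3 * CF.cl p {v} 0 B := by
    have h := indep_split (ι := Ed d) h0 h1 (ins (({v} : Set (V d))ᶜ))
      {ω : Cfg d | cluster (cut ({v} : Set (V d))ᶜ ω) 0 = (B : Set (V d))}
      {ω : Cfg d | ω (edge v s) = true ∧ ω (edge v s1) = true ∧ ω (edge v s2) = true}
      (meas_cl _ _ _) (Expl_meas3 v s s1 s2)
      (by
        intro ω ω' h2 h3
        show cluster (cut ({v} : Set (V d))ᶜ ω') 0 = (B : Set (V d))
        rw [← Expl_cut_eq h2]
        exact h3)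
      (by
        intro ω ω' h2 h3
        have h4 : ∀ t : Dir d, ω (edge v t) = ω' (edge v t) := by
          intro t
          refine h2 _ fun h5 => ?_
          rw [edge_mem_ins] at h5
          exact h5.1 rfl
        exact ⟨by rw [← h4]; exact h3.1, by rw [← h4]; exact h3.2.1, by rw [← h4]; exact h3.2.2⟩)
    rw [← Expl_three h0 h1 v hs1 hs2 hs12]
    have h6 : CF.cl p {v} 0 B = perc d p {ω : Cfg d | cluster (cut ({v} : Set (V d))ᶜ ω) 0 =
        (B : Set (V d))} := by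
      unfold CF.cl
      rw [Finset.coe_singleton]
    rw [h6]
    exact h
  -- the rest
  have hE : MeasurableSet {q : Cfg d × (V d → Bool) | q.2 ∈ {g : V d → Bool | ∀ x ∈ B,
      g x = false} ∧ q ∈ Expl_Q ({v} ∪ (B : Set (V d))) (v + step s1) (v + step s2)} :=
    (measurable_snd (Expl_measG B)).inter (Expl_measQ _ _ _)
  have hfst := indep_fst (ι := Ed d) h0 h1 (gr d ρ) (ins ({v} ∪ (B : Set (V d)))ᶜ) _ hE
    (by
      intro g ω ω' h2 h3
      obtain ⟨h4, h5, h6, h7⟩ := h3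
      refine ⟨h4, ?_, Expl_hit_fst h2 h6, Expl_hit_fst h2 h7⟩
      show v + step s2 ∉ cluster (cut ({v} ∪ (B : Set (V d)))ᶜ ω') (v + step s1)
      rw [← Expl_cut_eq h2]
      exact h5)
    {ω : Cfg d | (ω (edge v s) = true ∧ ω (edge v s1) = true ∧
      ω (edge v s2) = true) ∧ cluster (cut ({v} : Set (V d))ᶜ ω) 0 = (B : Set (V d))}
    ((Expl_meas3 v s s1 s2).inter (meas_cl _ _ _))
    (by
      intro ω ω' h2 h3
      have h4 : ∀ (u : V d) (t : Dir d), u ∈ ({v} ∪ (B : Set (V d))) →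
          ω (edge u t) = ω' (edge u t) := by
        intro u t hu
        refine h2 _ fun h5 => ?_
        rw [edge_mem_ins] at h5
        exact h5.1 hu
      have h5 : ∀ t : Dir d, ω (edge v t) = ω' (edge v t) := fun t => h4 v t (Or.inl rfl)
      refine ⟨⟨by rw [← h5]; exact h3.1.1, by rw [← h5]; exact h3.1.2.1,
        by rw [← h5]; exact h3.1.2.2⟩, ?_⟩
      exact cl_dep (fun u hu t _ _ => h4 u t (Or.inr hu)) h3.2)
  have hsnd := indep_snd (ι := V d) hg0 hg1 (perc d p) (({v} ∪ (B : Set (V d)))ᶜ)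
    (Expl_Q ({v} ∪ (B : Set (V d))) (v + step s1) (v + step s2)) (Expl_measQ _ _ _)
    (by
      intro ω g g' h2 h3
      obtain ⟨h5, h6, h7⟩ := h3
      exact ⟨h5, Expl_hit_snd (hy s1 hb1) (fun x hx => h2 x hx) h6,
        Expl_hit_snd (hy s2 hb2) (fun x hx => h2 x hx) h7⟩)
    {g : V d → Bool | ∀ x ∈ B, g x = false} (Expl_measG B)
    (by
      intro g g' h2 h3 x hx
      rw [← h2 x (fun h => h (Or.inr (by exact_mod_cast hx)))]
      exact h3 x hx)
  have hgn := gr_none (d := d) hρ0 hρ1 B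
  have e1 : mu d p ρ (Expl_E v s s1 s2 B) = perc d p {ω : Cfg d | (ω (edge v s) = true ∧
      ω (edge v s1) = true ∧ ω (edge v s2) = true) ∧
      cluster (cut ({v} : Set (V d))ᶜ ω) 0 = (B : Set (V d))} * mu d p ρ {q : Cfg d × (V d → Bool) |
      q.2 ∈ {g : V d → Bool | ∀ x ∈ B, g x = false} ∧
        q ∈ Expl_Q ({v} ∪ (B : Set (V d))) (v + step s1) (v + step s2)} := hfst
  have e2 : mu d p ρ {q : Cfg d × (V d → Bool) |
      q.2 ∈ {g : V d → Bool | ∀ x ∈ B, g x = false} ∧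
        q ∈ Expl_Q ({v} ∪ (B : Set (V d))) (v + step s1) (v + step s2)} =
      gr d ρ {g : V d → Bool | ∀ x ∈ B, g x = false} *
        mu d p ρ (Expl_Q ({v} ∪ (B : Set (V d))) (v + step s1) (v + step s2)) := hsnd
  rw [e1, e2, hA3, hgn]

lemma Expl_sub (v : V d) (s s1 s2 : Dir d) (B : Finset (V d)) (hb : v + step s ∈ B)
    (hb1 : v + step s1 ∉ B) (hb2 : v + step s2 ∉ B) : Expl_E v s s1 s2 B ⊆ FF v s s1 s2 := by
  rintro q ⟨⟨⟨h1, h2, h3⟩, hB⟩, hg, hQ1, hQ2, hQ3⟩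
  have hb1' : v + step s1 ∉ (B : Set (V d)) := by exact_mod_cast hb1
  have hb2' : v + step s2 ∉ (B : Set (V d)) := by exact_mod_cast hb2
  have e1 := Expl_cl hB hb1'
  have e2 := Expl_cl hB hb2'
  refine ⟨?_, h1, h2, h3, ?_, ?_, ?_, ?_, ?_, ?_⟩
  · rw [hB]
    exact_mod_cast hb
  · rintro ⟨x, hx, hx2⟩
    rw [hB] at hx
    have h4 := hg x (by exact_mod_cast hx)
    rw [h4] at hx2
    exact Bool.false_ne_true hx2
  · rw [hB]
    exact hb1'
  · rw [hB]
    exact hb2'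
  · rw [e1]
    exact hQ1
  · obtain ⟨x, hx, hx2⟩ := hQ2
    refine ⟨x, ?_, hx2⟩
    rw [e1]
    exact hx
  · obtain ⟨x, hx, hx2⟩ := hQ3
    refine ⟨x, ?_, hx2⟩
    rw [e2]
    exact hx

open Classical in
theorem expl {p ρ : ℝ} (h0 : 0 ≤ p) (h1 : p ≤ 1) (hρ0 : 0 ≤ ρ) (hρ1 : ρ ≤ 1) (v : V d)
    {s s1 s2 : Dir d} (hs1 : s ≠ s1) (hs2 : s ≠ s2) (hs12 : s1 ≠ s2) :
    ENNReal.ofReal p ^ 3 * ∑' B : Finset (V d), CF.cl p {v} 0 B *
        ((if v + step s ∈ B ∧ v + step s1 ∉ B ∧ v + step s2 ∉ B then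
          ENNReal.ofReal (ρ ^ B.card) else 0) *
          QQ p ρ (insert v B) (v + step s1) (v + step s2)) ≤
      mu d p ρ (FF v s s1 s2) := by
  let E : Finset (V d) → Set (Cfg d × (V d → Bool)) := fun B =>
    if v + step s ∈ B ∧ v + step s1 ∉ B ∧ v + step s2 ∉ B then Expl_E v s s1 s2 B else ∅
  have hm : ∀ B, MeasurableSet (E B) := by
    intro B
    simp only [E]
    split_ifs
    · exact Expl_measE v s s1 s2 B
    · exact MeasurableSet.empty
  have hEB : ∀ B, ∀ q ∈ E B, cluster (cut ({v} : Set (V d))ᶜ q.1) 0 = (B : Set (V d)) := by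
    intro B q hq
    simp only [E] at hq
    split_ifs at hq
    · exact hq.1.2
    · exact absurd hq (Set.notMem_empty q)
  have hdis : Pairwise (Function.onFun Disjoint E) := by
    intro B B' hne
    rw [Function.onFun, Set.disjoint_left]
    intro q hq hq'
    have h2 := hEB B q hq
    rw [hEB B' q hq'] at h2
    exact hne (by exact_mod_cast h2.symm)
  have hsub : ⋃ B, E B ⊆ FF v s s1 s2 := by
    refine Set.iUnion_subset fun B => ?_
    simp only [E]
    split_ifs with h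
    · exact Expl_sub v s s1 s2 B h.1 h.2.1 h.2.2
    · exact Set.empty_subset _
  refine le_trans ?_ (measure_mono hsub)
  rw [measure_iUnion hdis hm, ← ENNReal.tsum_mul_left]
  refine ENNReal.tsum_le_tsum fun B => ?_
  simp only [E]
  split_ifs with h
  · rw [Expl_prob h0 h1 hρ0 hρ1 v hs1 hs2 hs12 B h.2.1 h.2.2]
    have h2 : QQ p ρ (insert v B) (v + step s1) (v + step s2) =
        mu d p ρ (Expl_Q ({v} ∪ (B : Set (V d))) (v + step s1) (v + step s2)) := by
      unfold QQ Expl_Q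
      rw [Finset.coe_insert, Set.insert_eq]
    rw [h2, ← mul_assoc]
  · simp

end SH
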