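import Pool.Agent.H29.SH.Gre

/-!
PROJECT LE (MP_0d9ad5_pr), block SH, Barsky-Aizenman. BK for the connection to the green vertices.
-/

namespace SH

open H5DF H5CF H95LBD H95LBS MeasureTheory
open scoped ENNReal

variable {d : ℕ}

/-- The cluster of `z` has a vertex of the fixed set `g` of green vertices. -/
def GrBk_A (g : V d → Bool) (z : V d) : Set (Cfg d) := {ω | ∃ x ∈ cluster ω z, g x = true}

lemma GrBk_sub {g : V d → Bool} {x : V d} (hx : g x = true) (z : V d) :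
    SCn {z} Set.univ x ⊆ GrBk_A g z := by
  rintro ω ⟨u, hu, h⟩
  rw [Finset.mem_singleton] at hu
  subst hu
  exact ⟨x, Cn_univ.1 h, hx⟩

lemma GrBk_mem {g : V d → Bool} {z : V d} {ω : Cfg d} (h : ω ∈ GrBk_A g z) :
    ∃ x : V d, g x = true ∧ ω ∈ SCn {z} Set.univ x := by
  obtain ⟨x, h1, h2⟩ := h
  exact ⟨x, h2, z, Finset.mem_singleton_self _, Cn_univ.2 h1⟩

lemma GrBk_inc (g : V d → Bool) (z : V d) : Inc (GrBk_A g z) := by
  intro ω ω' h hω
  obtain ⟨x, hx, h1⟩ := GrBk_mem hω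
  exact GrBk_sub hx z (SCn_inc _ _ _ ω ω' h h1)

lemma GrBk_fw (g : V d → Bool) (z : V d) : Fw (GrBk_A g z) := by
  intro ω hω
  obtain ⟨x, hx, h1⟩ := GrBk_mem hω
  obtain ⟨n, hn⟩ := SCn_fw _ _ _ ω h1
  exact ⟨n, GrBk_sub hx z hn⟩

lemma GrBk_slice (p ρ : ℝ) (h0 : 0 ≤ p) (h1 : p ≤ 1) (hρ0 : 0 ≤ ρ) (hρ1 : ρ ≤ 1)
    (E : Set (Cfg d × (V d → Bool))) (hE : MeasurableSet E) :
    mu d p ρ E = ∫⁻ g, perc d p ((fun ω => (ω, g)) ⁻¹' E) ∂(gr d ρ) := by
  have := isProb_perc (d := d) p h0 h1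
  have := isProb_gr (d := d) hρ0 hρ1
  exact Measure.prod_apply_symm hE

lemma GrBk_meas (p : ℝ) (h0 : 0 ≤ p) (h1 : p ≤ 1)
    (E : Set (Cfg d × (V d → Bool))) (hE : MeasurableSet E) :
    Measurable fun g : V d → Bool => perc d p ((fun ω => (ω, g)) ⁻¹' E) := by
  have := isProb_perc (d := d) p h0 h1
  exact measurable_measure_prodMk_right hE

lemma GrBk_cut (ω : Cfg d) : cut (((∅ : Finset (V d)) : Set (V d))ᶜ) ω = ω := by
  funext e
  simp [cut]

lemma GrBk_emp (g : V d → Bool) (z : V d) :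
    (fun ω : Cfg d => (ω, g)) ⁻¹' hitE (((∅ : Finset (V d)) : Set (V d))) z = GrBk_A g z := by
  ext ω
  simp only [hitE, GrBk_A, Set.mem_preimage, Set.mem_ofPred_eq, GrBk_cut]

lemma GrBk_MG (p ρ : ℝ) (h0 : 0 ≤ p) (h1 : p ≤ 1) (hρ0 : 0 ≤ ρ) (hρ1 : ρ ≤ 1) (z : V d) :
    ∫⁻ g, perc d p (GrBk_A g z) ∂(gr d ρ) = Mz d p ρ := by
  rw [← MG_shift h0 h1 hρ0 hρ1 z, MG, GrBk_slice p ρ h0 h1 hρ0 hρ1 _ (meas_hitE _ _)]
  simp only [GrBk_emp]

lemma GrBk_mz (p : ℝ) (h0 : 0 ≤ p) (h1 : p ≤ 1) (z : V d) :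
    Measurable fun g : V d → Bool => perc d p (GrBk_A g z) := by
  have h := GrBk_meas p h0 h1 _ (meas_hitE (((∅ : Finset (V d)) : Set (V d))) z)
  simp only [GrBk_emp] at h
  exact h

theorem mz_off {p ρ : ℝ} (h0 : 0 ≤ p) (h1 : p ≤ 1) (hρ0 : 0 ≤ ρ) (hρ1 : ρ ≤ 1)
    (S : Finset (V d)) (y : V d) :
    Mz d p ρ ≤ MG p ρ S y + ∑ z ∈ S, tau d p (z - y) * Mz d p ρ := by
  have key : ∀ g : V d → Bool, perc d p (GrBk_A g y) ≤
      perc d p ((fun ω : Cfg d => (ω, g)) ⁻¹' hitE ((S : Set (V d))) y) +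
        ∑ z ∈ S, tau d p (z - y) * perc d p (GrBk_A g z) := by
    intro g
    calc perc d p (GrBk_A g y)
        ≤ perc d p (((fun ω : Cfg d => (ω, g)) ⁻¹' hitE ((S : Set (V d))) y) ∪
            ⋃ z ∈ S, disj (SCn {y} Set.univ z) (GrBk_A g z)) := by
          refine measure_mono fun ω hω => ?_
          obtain ⟨x, hx, hg⟩ := hω
          rcases off_dec S y x ω hx with h | ⟨z, hz, h⟩
          · exact Or.inl ⟨x, h, hg⟩
          · right
            simp only [Set.mem_iUnion]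
            exact ⟨z, hz, BkB_disj_mono (fun _ h => h) (GrBk_sub hg z) h⟩
      _ ≤ perc d p ((fun ω : Cfg d => (ω, g)) ⁻¹' hitE ((S : Set (V d))) y) +
            perc d p (⋃ z ∈ S, disj (SCn {y} Set.univ z) (GrBk_A g z)) := measure_union_le _ _
      _ ≤ _ := by
          gcongr
          refine (measure_biUnion_finset_le _ _).trans ?_
          refine Finset.sum_le_sum fun z _ => ?_
          rw [← perc_conn p h0 h1]
          exact bk_inf p h0 h1 _ _ (SCn_inc _ _ _) (GrBk_inc _ _) (SCn_fw _ _ _) (GrBk_fw _ _)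
  calc Mz d p ρ = ∫⁻ g, perc d p (GrBk_A g y) ∂(gr d ρ) := (GrBk_MG p ρ h0 h1 hρ0 hρ1 y).symm
    _ ≤ ∫⁻ g, (perc d p ((fun ω : Cfg d => (ω, g)) ⁻¹' hitE ((S : Set (V d))) y) +
        ∑ z ∈ S, tau d p (z - y) * perc d p (GrBk_A g z)) ∂(gr d ρ) := lintegral_mono key
    _ = MG p ρ S y + ∑ z ∈ S, tau d p (z - y) * Mz d p ρ := by
        rw [lintegral_add_left (GrBk_meas p h0 h1 _ (meas_hitE _ _)),
          ← GrBk_slice p ρ h0 h1 hρ0 hρ1 _ (meas_hitE _ _), MG,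
          lintegral_finsetSum _ fun z _ => (GrBk_mz p h0 h1 z).const_mul _]
        congr 1
        refine Finset.sum_congr rfl fun z _ => ?_
        rw [lintegral_const_mul _ (GrBk_mz p h0 h1 z), GrBk_MG p ρ h0 h1 hρ0 hρ1]

lemma GrBk_green (B : Finset (V d)) :
    MeasurableSet {g : V d → Bool | ∃ x ∈ B, g x = true} := by
  have h : {g : V d → Bool | ∃ x ∈ B, g x = true} = ⋃ x ∈ B, {g : V d → Bool | g x = true} := by
    ext g
    simp
  rw [h]
  refine Finset.measurableSet_biUnion B fun x _ => ?_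
  have hx : Measurable fun g : V d → Bool => g x := measurable_pi_apply x
  exact hx (measurableSet_singleton true)

open Classical in
theorem mz_tree {p ρ : ℝ} (h0 : 0 ≤ p) (h1 : p ≤ 1) (hρ0 : 0 ≤ ρ) (hρ1 : ρ ≤ 1)
    (S : Finset (V d)) (y z : V d) :
    ∑' B : Finset (V d), CF.cl p S y B *
        (if z ∈ B then ENNReal.ofReal (1 - ρ ^ B.card) else 0) ≤
      ∑' a : V d, tau d p (a - y) * tau d p (z - a) * Mz d p ρ := by
  have hE : MeasurableSet {q : Cfg d × (V d → Bool) |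
      z ∈ cluster (cut ((S : Set (V d))ᶜ) q.1) y ∧ q ∈ hitE (S : Set (V d)) y} :=
    (measurable_fst (meas_off _ y z)).inter (meas_hitE _ _)
  have e1 : ∀ B : Finset (V d),
      (if z ∈ B then ENNReal.ofReal (1 - ρ ^ B.card) else 0) =
        gr d ρ (if z ∈ B then {g : V d → Bool | ∃ x ∈ B, g x = true} else ∅) := by
    intro B
    split_ifs
    · exact (gr_some hρ0 hρ1 B).symm
    · exact measure_empty.symm
  simp_rw [e1]
  refine (lint_gr_ge h0 h1 hρ0 hρ1 S y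
    (fun B => if z ∈ B then {g : V d → Bool | ∃ x ∈ B, g x = true} else ∅) ?_ _ hE ?_).trans ?_
  · intro B
    split_ifs
    · exact GrBk_green B
    · exact MeasurableSet.empty
  · intro B q hB hq
    split_ifs at hq with hz
    · obtain ⟨x, hx, hg⟩ := hq
      refine ⟨?_, x, ?_, hg⟩
      · rw [hB]
        exact_mod_cast hz
      · rw [hB]
        exact_mod_cast hx
    · exact absurd hq (Set.notMem_empty _)
  · rw [GrBk_slice p ρ h0 h1 hρ0 hρ1 _ hE]
    have key : ∀ g : V d → Bool, perc d p ((fun ω : Cfg d => (ω, g)) ⁻¹'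
        {q : Cfg d × (V d → Bool) |
          z ∈ cluster (cut ((S : Set (V d))ᶜ) q.1) y ∧ q ∈ hitE (S : Set (V d)) y}) ≤
        ∑' a : V d, tau d p (a - y) * tau d p (z - a) * perc d p (GrBk_A g a) := by
      intro g
      have hsub : ((fun ω : Cfg d => (ω, g)) ⁻¹' {q : Cfg d × (V d → Bool) |
          z ∈ cluster (cut ((S : Set (V d))ᶜ) q.1) y ∧ q ∈ hitE (S : Set (V d)) y}) ⊆
          ⋃ a : V d, disj (SCn {y} Set.univ a) (disj (SCn {z} Set.univ a) (GrBk_A g a)) := by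
        rintro ω ⟨h2, x, h3, hg⟩
        have h4 : z ∈ cluster ω y := cluster_cut_sub _ _ _ h2
        have h5 : x ∈ cluster ω y := cluster_cut_sub _ _ _ h3
        have h6 : x ∈ cluster ω z := by
          rw [cluster_eq_of_mem h4]
          exact h5
        have h7 : ω ∈ SCn {y} Set.univ x ∩ SCn {z} Set.univ x :=
          ⟨⟨y, Finset.mem_singleton_self _, Cn_univ.2 h5⟩,
            ⟨z, Finset.mem_singleton_self _, Cn_univ.2 h6⟩⟩
        obtain ⟨a, ha⟩ := Set.mem_iUnion.1 (tree_dec y z x h7)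
        exact Set.mem_iUnion.2 ⟨a, BkB_disj_mono (fun _ h => h)
          (BkB_disj_mono (fun _ h => h) (GrBk_sub hg a)) ha⟩
      refine (measure_mono hsub).trans ((measure_iUnion_le _).trans ?_)
      refine ENNReal.tsum_le_tsum fun a => ?_
      refine (bk_inf p h0 h1 _ _ (SCn_inc _ _ _) (disj_inc (SCn_inc _ _ _) (GrBk_inc _ _))
        (SCn_fw _ _ _) (disj_fw (SCn_inc _ _ _) (GrBk_inc _ _) (SCn_fw _ _ _)
          (GrBk_fw _ _))).trans ?_
      have h8 := bk_inf p h0 h1 _ _ (SCn_inc {z} Set.univ a) (GrBk_inc g a) (SCn_fw _ _ _)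
        (GrBk_fw _ _)
      calc perc d p (SCn {y} Set.univ a) * perc d p (disj (SCn {z} Set.univ a) (GrBk_A g a))
          ≤ perc d p (SCn {y} Set.univ a) *
            (perc d p (SCn {z} Set.univ a) * perc d p (GrBk_A g a)) := by gcongr
        _ = tau d p (a - y) * tau d p (z - a) * perc d p (GrBk_A g a) := by
          rw [perc_conn p h0 h1, perc_conn p h0 h1, ← neg_sub z a, tau_neg p h0 h1, mul_assoc]
    refine (lintegral_mono key).trans (le_of_eq ?_)
    rw [lintegral_tsum fun a => ((GrBk_mz p h0 h1 a).const_mul _).aemeasurable]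
    refine tsum_congr fun a => ?_
    rw [lintegral_const_mul _ (GrBk_mz p h0 h1 a), GrBk_MG p ρ h0 h1 hρ0 hρ1]

end SH
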