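import Pool.Agent.H29.SH.Gre
import Pool.Agent.H29.SH.BkdI

/-!
PROJECT LE (MP_0d9ad5_pr), block SH, Barsky-Aizenman. The tree bound without green vertices.
-/

namespace SH

open H5DF H5CF H95LBD H95LBS MeasureTheory
open scoped ENNReal

variable {d : ℕ}

/-- For fixed green vertices `g`: the cluster of the origin has a green vertex. -/
def GrTree_N (g : V d → Bool) : Set (Cfg d) := {ω | ∃ x ∈ cluster ω 0, g x = true}

lemma GrTree_N_eq (g : V d → Bool) :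
    (GrTree_N g : Set (Cfg d)) = {ω | ∃ x, g x = true ∧ ω ∈ SCn {0} Set.univ x} := by
  ext ω
  simp only [GrTree_N, Set.mem_ofPred_eq, SCn, Finset.mem_singleton, exists_eq_left, Cn_univ]
  exact ⟨fun ⟨x, h1, h2⟩ => ⟨x, h2, h1⟩, fun ⟨x, h1, h2⟩ => ⟨x, h2, h1⟩⟩

lemma GrTree_N_inc (g : V d → Bool) : Inc (GrTree_N g : Set (Cfg d)) := by
  rw [GrTree_N_eq]
  rintro ω ω' h ⟨x, h1, h2⟩
  exact ⟨x, h1, SCn_inc _ _ _ _ _ h h2⟩

lemma GrTree_N_fw (g : V d → Bool) : Fw (GrTree_N g : Set (Cfg d)) := by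
  rw [GrTree_N_eq]
  rintro ω ⟨x, h1, h2⟩
  obtain ⟨n, hn⟩ := SCn_fw _ _ _ _ h2
  exact ⟨n, x, h1, hn⟩

/-- The event: `u`, `z` in the cluster of `0`, which has no green vertex. -/
def GrTree_E (u z : V d) : Set (Cfg d × (V d → Bool)) :=
  {q | (u ∈ cluster q.1 0 ∧ z ∈ cluster q.1 0) ∧ ∀ x ∈ cluster q.1 0, q.2 x = false}

lemma GrTree_meas (u z : V d) : MeasurableSet (GrTree_E u z) := by
  have h1 : GrTree_E u z =
      ({q : Cfg d × (V d → Bool) | u ∈ cluster q.1 0} ∩ {q | z ∈ cluster q.1 0}) ∩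
        (hitE (((∅ : Finset (V d)) : Set (V d))) (0 : V d))ᶜ := by
    ext q
    rw [Gre_hitE]
    simp only [GrTree_E, Set.mem_ofPred_eq, Set.mem_inter_iff, Set.mem_compl_iff, not_exists,
      not_and, Bool.not_eq_true]
  rw [h1]
  exact ((measurable_fst (meas_reach 0 u)).inter (measurable_fst (meas_reach 0 z))).inter
    (meas_hitE _ _).compl

/-- The condition on the cluster and the green vertices. -/
def GrTree_Q (u z : V d) (B : Finset (V d)) : Set (V d → Bool) :=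
  {g | (u ∈ B ∧ z ∈ B) ∧ ∀ x ∈ B, g x = false}

lemma GrTree_measQ (u z : V d) (B : Finset (V d)) : MeasurableSet (GrTree_Q u z B) := by
  have h1 : GrTree_Q u z B = {_g : V d → Bool | u ∈ B ∧ z ∈ B} ∩
      {g : V d → Bool | ∃ x ∈ B, g x = true}ᶜ := by
    ext g
    simp only [GrTree_Q, Set.mem_ofPred_eq, Set.mem_inter_iff, Set.mem_compl_iff, not_exists,
      not_and, Bool.not_eq_true]
  rw [h1]
  exact (MeasurableSet.const _).inter (Gre_meas_some B).compl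

lemma GrTree_W {p ρ : ℝ} (hρ0 : 0 ≤ ρ) (hρ1 : ρ ≤ 1) (u z : V d) :
    W p ρ ∅ u z = ∑' B : Finset (V d), CF.cl p ∅ 0 B * gr d ρ (GrTree_Q u z B) := by
  classical
  unfold W
  refine tsum_congr fun B => ?_
  congr 1
  by_cases h : u ∈ B ∧ z ∈ B
  · rw [if_pos h, ← gr_none hρ0 hρ1]
    congr 1
    ext g
    simp only [GrTree_Q, Set.mem_ofPred_eq]
    exact ⟨fun h2 => ⟨h, h2⟩, fun h2 => h2.2⟩
  · rw [if_neg h]
    have : GrTree_Q u z B = ∅ := by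
      ext g
      simp only [GrTree_Q, Set.mem_ofPred_eq, Set.mem_empty_iff_false, iff_false]
      exact fun h2 => h h2.1
    rw [this, measure_empty]

lemma GrTree_ge {p ρ : ℝ} (h0 : 0 ≤ p) (h1 : p ≤ 1) (hρ0 : 0 ≤ ρ) (hρ1 : ρ ≤ 1) (u z : V d) :
    W p ρ ∅ u z ≤ mu d p ρ (GrTree_E u z) := by
  rw [GrTree_W hρ0 hρ1]
  refine lint_gr_ge h0 h1 hρ0 hρ1 ∅ 0 (GrTree_Q u z) (GrTree_measQ u z) _ (GrTree_meas u z) ?_
  rintro B q hB ⟨⟨hu, hz⟩, hg⟩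
  rw [Gre_cut] at hB
  refine ⟨⟨?_, ?_⟩, ?_⟩
  · rw [hB]; exact_mod_cast hu
  · rw [hB]; exact_mod_cast hz
  · intro x hx
    rw [hB] at hx
    exact hg x (by exact_mod_cast hx)

lemma GrTree_le {p ρ : ℝ} (h0 : 0 ≤ p) (h1 : p ≤ 1) (hρ0 : 0 ≤ ρ) (hρ1 : ρ ≤ 1)
    (hfin : ∀ᵐ ω ∂(perc d p), (cluster ω 0).Finite) (u z : V d) :
    mu d p ρ (GrTree_E u z) ≤ W p ρ ∅ u z := by
  rw [GrTree_W hρ0 hρ1]
  refine lint_gr_le h0 h1 hρ0 hρ1 ∅ 0 hfin (GrTree_Q u z) _ (GrTree_meas u z) ?_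
  rintro B q hB ⟨⟨hu, hz⟩, hg⟩
  rw [Gre_cut] at hB
  rw [hB] at hu hz hg
  exact ⟨⟨by exact_mod_cast hu, by exact_mod_cast hz⟩, fun x hx => hg x (by exact_mod_cast hx)⟩

/-- The decomposition of the cluster. -/
lemma GrTree_dec (u z : V d) (ω : Cfg d) (hu : u ∈ cluster ω 0) (hz : z ∈ cluster ω 0) :
    ∃ a : V d, ω ∈ disj (SCn {a} Set.univ 0)
      (disj (SCn {u} Set.univ a) (SCn {z} Set.univ a)) := by
  have h4 : ω ∈ SCn {u} Set.univ 0 ∩ SCn {z} Set.univ 0 :=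
    ⟨⟨u, Finset.mem_singleton_self _, Cn_univ.2 (SimpleGraph.Reachable.symm hu)⟩,
      ⟨z, Finset.mem_singleton_self _, Cn_univ.2 (SimpleGraph.Reachable.symm hz)⟩⟩
  obtain ⟨v, hv⟩ := Set.mem_iUnion.1 (tree_dec u z 0 h4)
  obtain ⟨c, h5, c2, h6, h7⟩ := hv
  refine ⟨v, fun e => !c e && !c2 e, ?_, c, ?_, ?_⟩
  · refine SCn_inc _ _ _ _ _ ?_ h7
    intro e he
    simp only [Bool.and_eq_true] at he ⊢
    exact ⟨he.1.1, he.1.2, he.2⟩
  · refine SCn_inc _ _ _ _ _ ?_ h5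
    intro e he
    have he' : (ω e && c e) = true := he
    show ((ω e && !(!c e && !c2 e)) && c e) = true
    revert he'
    rcases ω e <;> rcases c e <;> rcases c2 e <;> decide
  · refine SCn_inc _ _ _ _ _ ?_ h6
    intro e he
    have he' : ((ω e && !c e) && c2 e) = true := he
    show ((ω e && !(!c e && !c2 e)) && !c e) = true
    revert he'
    rcases ω e <;> rcases c e <;> rcases c2 e <;> decide

lemma GrTree_sec (u z : V d) (g : V d → Bool) :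
    (fun ω : Cfg d => (ω, g)) ⁻¹' GrTree_E u z =
      {ω | u ∈ cluster ω 0 ∧ z ∈ cluster ω 0} ∩ (GrTree_N g)ᶜ := by
  ext ω
  simp only [GrTree_E, GrTree_N, Set.mem_preimage, Set.mem_ofPred_eq, Set.mem_inter_iff,
    Set.mem_compl_iff, not_exists, not_and, Bool.not_eq_true]

/-- The bound for fixed green vertices. -/
lemma GrTree_fix {p : ℝ} (h0 : 0 ≤ p) (h1 : p ≤ 1) (u z : V d) (g : V d → Bool) :
    perc d p ((fun ω : Cfg d => (ω, g)) ⁻¹' GrTree_E u z) ≤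
      ∑' a : V d, perc d p ((fun ω : Cfg d => (ω, g)) ⁻¹' GrTree_E a a) *
        (tau d p (u - a) * tau d p (z - a)) := by
  rw [GrTree_sec]
  have hsub : {ω : Cfg d | u ∈ cluster ω 0 ∧ z ∈ cluster ω 0} ∩ (GrTree_N g)ᶜ ⊆
      ⋃ a : V d, (disj (SCn {a} Set.univ 0)
        (disj (SCn {u} Set.univ a) (SCn {z} Set.univ a)) ∩ (GrTree_N g)ᶜ) := by
    rintro ω ⟨⟨hu, hz⟩, hN⟩
    obtain ⟨a, ha⟩ := GrTree_dec u z ω hu hz
    exact Set.mem_iUnion.2 ⟨a, ha, hN⟩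
  refine (measure_mono hsub).trans ((measure_iUnion_le _).trans ?_)
  refine ENNReal.tsum_le_tsum fun a => ?_
  have h2 := bkd_inf p h0 h1 (SCn {a} Set.univ 0)
    (disj (SCn {u} Set.univ a) (SCn {z} Set.univ a)) (GrTree_N g) (SCn_inc _ _ _)
    (disj_inc (SCn_inc _ _ _) (SCn_inc _ _ _)) (GrTree_N_inc g) (SCn_fw _ _ _)
    (disj_fw (SCn_inc _ _ _) (SCn_inc _ _ _) (SCn_fw _ _ _) (SCn_fw _ _ _)) (GrTree_N_fw g)
  have h3 := bk_inf p h0 h1 (SCn {u} Set.univ a) (SCn {z} Set.univ a) (SCn_inc _ _ _)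
    (SCn_inc _ _ _) (SCn_fw _ _ _) (SCn_fw _ _ _)
  have h4 : SCn {a} Set.univ 0 ∩ (GrTree_N g)ᶜ =
      (fun ω : Cfg d => (ω, g)) ⁻¹' GrTree_E a a := by
    rw [GrTree_sec]
    congr 1
    ext ω
    simp only [SCn, Finset.mem_singleton, exists_eq_left, Set.mem_ofPred_eq, Cn_univ, and_self]
    exact ⟨fun h => SimpleGraph.Reachable.symm h, fun h => SimpleGraph.Reachable.symm h⟩
  rw [h4] at h2
  refine h2.trans (mul_le_mul' le_rfl (h3.trans ?_))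
  rw [perc_conn p h0 h1, perc_conn p h0 h1, ← neg_sub u a, tau_neg p h0 h1, ← neg_sub z a,
    tau_neg p h0 h1]

lemma GrTree_int {p ρ : ℝ} (h0 : 0 ≤ p) (h1 : p ≤ 1) (hρ0 : 0 ≤ ρ) (hρ1 : ρ ≤ 1) (u z : V d) :
    mu d p ρ (GrTree_E u z) =
      ∫⁻ g, perc d p ((fun ω : Cfg d => (ω, g)) ⁻¹' GrTree_E u z) ∂(gr d ρ) := by
  have hP := isProb_perc (d := d) p h0 h1
  have hgr := isProb_gr (d := d) hρ0 hρ1
  unfold mu
  exact Measure.prod_apply_symm (GrTree_meas u z)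

theorem w_tree {p ρ : ℝ} (h0 : 0 ≤ p) (h1 : p ≤ 1) (hρ0 : 0 ≤ ρ) (hρ1 : ρ ≤ 1)
    (hfin : ∀ᵐ ω ∂(perc d p), (cluster ω 0).Finite) (u z : V d) :
    W p ρ ∅ u z ≤ ∑' a : V d, W p ρ ∅ a a * (tau d p (u - a) * tau d p (z - a)) := by
  have hP := isProb_perc (d := d) p h0 h1
  have hgr := isProb_gr (d := d) hρ0 hρ1
  have hm : ∀ a : V d, Measurable fun g : V d → Bool =>
      perc d p ((fun ω : Cfg d => (ω, g)) ⁻¹' GrTree_E a a) := fun a =>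
    measurable_measure_prodMk_right (GrTree_meas a a)
  calc W p ρ ∅ u z ≤ mu d p ρ (GrTree_E u z) := GrTree_ge h0 h1 hρ0 hρ1 u z
    _ = ∫⁻ g, perc d p ((fun ω : Cfg d => (ω, g)) ⁻¹' GrTree_E u z) ∂(gr d ρ) :=
        GrTree_int h0 h1 hρ0 hρ1 u z
    _ ≤ ∫⁻ g, ∑' a : V d, perc d p ((fun ω : Cfg d => (ω, g)) ⁻¹' GrTree_E a a) *
          (tau d p (u - a) * tau d p (z - a)) ∂(gr d ρ) :=
        lintegral_mono fun g => GrTree_fix h0 h1 u z g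
    _ = ∑' a : V d, mu d p ρ (GrTree_E a a) * (tau d p (u - a) * tau d p (z - a)) := by
        rw [lintegral_tsum fun a => ((hm a).mul_const _).aemeasurable]
        refine tsum_congr fun a => ?_
        rw [lintegral_mul_const _ (hm a), ← GrTree_int h0 h1 hρ0 hρ1]
    _ ≤ _ := ENNReal.tsum_le_tsum fun a =>
        mul_le_mul' (GrTree_le h0 h1 hρ0 hρ1 hfin a a) le_rfl

end SH
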