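import Pool.Agent.H29.SH.Defs

/-!
PROJECT LE (MP_0d9ad5_pr), block SH, Barsky-Aizenman. The green vertices.
-/

namespace SH

open H5DF H5CF H95LBD H95LBS MeasureTheory
open scoped ENNReal

variable {d : ℕ}

lemma isProb_gr {ρ : ℝ} (hρ0 : 0 ≤ ρ) (hρ1 : ρ ≤ 1) : IsProbabilityMeasure (gr d ρ) := by
  have := isProb_bern (p := 1 - ρ) (by linarith) (by linarith)
  unfold gr
  infer_instance

lemma isProb_mu {p ρ : ℝ} (h0 : 0 ≤ p) (h1 : p ≤ 1) (hρ0 : 0 ≤ ρ) (hρ1 : ρ ≤ 1) :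
    IsProbabilityMeasure (mu d p ρ) := by
  have := isProb_perc (d := d) p h0 h1
  have := isProb_gr (d := d) hρ0 hρ1
  unfold mu
  infer_instance

/-- The probability that a finite set has no green vertex. -/
lemma gr_none {ρ : ℝ} (hρ0 : 0 ≤ ρ) (hρ1 : ρ ≤ 1) (B : Finset (V d)) :
    gr d ρ {g | ∀ x ∈ B, g x = false} = ENNReal.ofReal (ρ ^ B.card) := by
  have hP := isProb_bern (p := 1 - ρ) (by linarith) (by linarith)
  have hb : bern (1 - ρ) {false} = ENNReal.ofReal ρ := by simp [bern]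
  have hset : {g : V d → Bool | ∀ x ∈ B, g x = false} =
      ((B : Set (V d)).pi fun _ => ({false} : Set Bool)) := by
    ext η
    simp
  unfold gr
  rw [hset, Measure.infinitePi_pi _ (fun i _ => MeasurableSet.of_discrete)]
  simp only [hb]
  rw [Finset.prod_const, ENNReal.ofReal_pow hρ0]

lemma Gre_meas (x : V d) (b : Bool) : MeasurableSet {g : V d → Bool | g x = b} := by
  have h : Measurable fun g : V d → Bool => g x := measurable_pi_apply x
  exact h (MeasurableSet.of_discrete (s := ({b} : Set Bool)))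

lemma Gre_meas_some (B : Finset (V d)) : MeasurableSet {g : V d → Bool | ∃ x ∈ B, g x = true} := by
  have : {g : V d → Bool | ∃ x ∈ B, g x = true} = ⋃ x ∈ B, {g : V d → Bool | g x = true} := by
    ext g
    simp
  rw [this]
  exact Finset.measurableSet_biUnion B fun x _ => Gre_meas x true

/-- The probability that a finite set has a green vertex. -/
lemma gr_some {ρ : ℝ} (hρ0 : 0 ≤ ρ) (hρ1 : ρ ≤ 1) (B : Finset (V d)) :
    gr d ρ {g | ∃ x ∈ B, g x = true} = ENNReal.ofReal (1 - ρ ^ B.card) := by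
  have := isProb_gr (d := d) hρ0 hρ1
  have hset : {g : V d → Bool | ∃ x ∈ B, g x = true} =
      {g : V d → Bool | ∀ x ∈ B, g x = false}ᶜ := by
    ext g
    simp
  have hm : MeasurableSet {g : V d → Bool | ∀ x ∈ B, g x = false} := by
    have h2 := Gre_meas_some (d := d) B
    rw [hset] at h2
    exact h2.of_compl
  rw [hset, prob_compl_eq_one_sub hm, gr_none hρ0 hρ1, ENNReal.ofReal_sub 1 (by positivity),
    ENNReal.ofReal_one]

lemma meas_hitE (S : Set (V d)) (y : V d) : MeasurableSet (hitE S y) := by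
  have : hitE S y = ⋃ x : V d, ({q : Cfg d × (V d → Bool) | x ∈ cluster (cut Sᶜ q.1) y} ∩
      {q : Cfg d × (V d → Bool) | q.2 x = true}) := by
    ext q
    simp only [hitE, Set.mem_ofPred_eq, Set.mem_iUnion, Set.mem_inter_iff]
  rw [this]
  refine MeasurableSet.iUnion fun x => ?_
  exact (measurable_fst (meas_off Sᶜ y x)).inter (measurable_snd (Gre_meas x true))

/-- One term of the sums below. -/
lemma Gre_term {p ρ : ℝ} (hρ0 : 0 ≤ ρ) (hρ1 : ρ ≤ 1) (S : Finset (V d)) (y : V d)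
    (B : Finset (V d)) (R : Set (V d → Bool)) :
    CF.cl p S y B * gr d ρ R =
      mu d p ρ ({ζ : Cfg d | cluster (cut ((S : Set (V d))ᶜ) ζ) y = (B : Set (V d))} ×ˢ R) := by
  have := isProb_gr (d := d) hρ0 hρ1
  unfold mu
  rw [Measure.prod_prod]
  rfl

/-- Conditioning on the finite cluster of `y` off `S`: a lower bound in general. -/
lemma lint_gr_ge {p ρ : ℝ} (h0 : 0 ≤ p) (h1 : p ≤ 1) (hρ0 : 0 ≤ ρ) (hρ1 : ρ ≤ 1)
    (S : Finset (V d)) (y : V d) (Q : Finset (V d) → Set (V d → Bool))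
    (hQ : ∀ B, MeasurableSet (Q B)) (E : Set (Cfg d × (V d → Bool))) (hE : MeasurableSet E)
    (hEQ : ∀ (B : Finset (V d)) (q : Cfg d × (V d → Bool)),
      cluster (cut ((S : Set (V d))ᶜ) q.1) y = (B : Set (V d)) → q.2 ∈ Q B → q ∈ E) :
    ∑' B : Finset (V d), CF.cl p S y B * gr d ρ (Q B) ≤ mu d p ρ E := by
  have := isProb_mu (d := d) h0 h1 hρ0 hρ1
  simp_rw [Gre_term hρ0 hρ1]
  rw [← measure_iUnion]
  · refine measure_mono fun q hq => ?_
    obtain ⟨B, hB⟩ := Set.mem_iUnion.1 hq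
    exact hEQ B q hB.1 hB.2
  · intro B B' hBB'
    refine Set.disjoint_left.2 fun q hq hq' => hBB' ?_
    have h1 : cluster (cut ((S : Set (V d))ᶜ) q.1) y = (B : Set (V d)) := hq.1
    have h2 : cluster (cut ((S : Set (V d))ᶜ) q.1) y = (B' : Set (V d)) := hq'.1
    rw [h1] at h2
    exact_mod_cast h2
  · intro B
    exact (meas_cl _ y _).prod (hQ B)

/-- Conditioning on the cluster of `y` off `S` if it is almost surely finite: an upper bound. -/
lemma lint_gr_le {p ρ : ℝ} (h0 : 0 ≤ p) (h1 : p ≤ 1) (hρ0 : 0 ≤ ρ) (hρ1 : ρ ≤ 1)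
    (S : Finset (V d)) (y : V d) (hfin : ∀ᵐ ω ∂(perc d p), (cluster ω y).Finite)
    (Q : Finset (V d) → Set (V d → Bool)) (E : Set (Cfg d × (V d → Bool)))
    (hE : MeasurableSet E)
    (hEQ : ∀ (B : Finset (V d)) (q : Cfg d × (V d → Bool)),
      cluster (cut ((S : Set (V d))ᶜ) q.1) y = (B : Set (V d)) → q ∈ E → q.2 ∈ Q B) :
    mu d p ρ E ≤ ∑' B : Finset (V d), CF.cl p S y B * gr d ρ (Q B) := by
  have := isProb_mu (d := d) h0 h1 hρ0 hρ1
  have hP := isProb_perc (d := d) p h0 h1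
  have hgr := isProb_gr (d := d) hρ0 hρ1
  simp_rw [Gre_term hρ0 hρ1]
  have hN : mu d p ρ ({ω : Cfg d | ¬ (cluster ω y).Finite} ×ˢ Set.univ) = 0 := by
    unfold mu
    rw [Measure.prod_prod]
    have h2 : perc d p {ω : Cfg d | ¬ (cluster ω y).Finite} = 0 := ae_iff.1 hfin
    rw [h2, zero_mul]
  calc mu d p ρ E
      ≤ mu d p ρ ((⋃ B : Finset (V d),
          ({ζ : Cfg d | cluster (cut ((S : Set (V d))ᶜ) ζ) y = (B : Set (V d))} ×ˢ Q B)) ∪
          ({ω : Cfg d | ¬ (cluster ω y).Finite} ×ˢ Set.univ)) := by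
        refine measure_mono fun q hq => ?_
        by_cases hf : (cluster q.1 y).Finite
        · left
          have hf2 : (cluster (cut ((S : Set (V d))ᶜ) q.1) y).Finite :=
            hf.subset (cluster_cut_sub _ _ _)
          refine Set.mem_iUnion.2 ⟨hf2.toFinset, ?_⟩
          have h3 : cluster (cut ((S : Set (V d))ᶜ) q.1) y = (hf2.toFinset : Set (V d)) := by
            simp
          exact ⟨h3, hEQ _ q h3 hq⟩
        · right
          exact ⟨hf, Set.mem_univ _⟩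
    _ ≤ mu d p ρ (⋃ B : Finset (V d),
          ({ζ : Cfg d | cluster (cut ((S : Set (V d))ᶜ) ζ) y = (B : Set (V d))} ×ˢ Q B)) +
          mu d p ρ ({ω : Cfg d | ¬ (cluster ω y).Finite} ×ˢ Set.univ) := measure_union_le _ _
    _ ≤ _ := by
        rw [hN, add_zero]
        exact measure_iUnion_le _

lemma MG_ge {p ρ : ℝ} (h0 : 0 ≤ p) (h1 : p ≤ 1) (hρ0 : 0 ≤ ρ) (hρ1 : ρ ≤ 1)
    (S : Finset (V d)) (y : V d) :
    ∑' B : Finset (V d), CF.cl p S y B * ENNReal.ofReal (1 - ρ ^ B.card) ≤ MG p ρ S y := by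
  simp_rw [← gr_some (d := d) hρ0 hρ1]
  unfold MG
  refine lint_gr_ge h0 h1 hρ0 hρ1 S y (fun B => {g | ∃ x ∈ B, g x = true}) Gre_meas_some _
    (meas_hitE _ _) ?_
  rintro B q hB ⟨x, hx, hg⟩
  refine ⟨x, ?_, hg⟩
  rw [hB]
  exact_mod_cast hx

lemma MG_le {p ρ : ℝ} (h0 : 0 ≤ p) (h1 : p ≤ 1) (hρ0 : 0 ≤ ρ) (hρ1 : ρ ≤ 1)
    (S : Finset (V d)) (y : V d) (hfin : ∀ᵐ ω ∂(perc d p), (cluster ω y).Finite) :
    MG p ρ S y ≤ ∑' B : Finset (V d), CF.cl p S y B * ENNReal.ofReal (1 - ρ ^ B.card) := by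
  simp_rw [← gr_some (d := d) hρ0 hρ1]
  unfold MG
  refine lint_gr_le h0 h1 hρ0 hρ1 S y hfin (fun B => {g | ∃ x ∈ B, g x = true}) _
    (meas_hitE _ _) ?_
  rintro B q hB ⟨x, hx, hg⟩
  refine ⟨x, ?_, hg⟩
  rw [hB] at hx
  exact_mod_cast hx

lemma Gre_cut (ω : Cfg d) : cut (((∅ : Finset (V d)) : Set (V d))ᶜ) ω = ω := by
  funext e
  simp [cut]

lemma Gre_hitE (y : V d) : hitE (((∅ : Finset (V d)) : Set (V d))) y =
    {q : Cfg d × (V d → Bool) | ∃ x ∈ cluster q.1 y, q.2 x = true} := by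
  unfold hitE
  simp only [Gre_cut]

/-- Translation of the green vertices. -/
lemma Gre_gr_shift {ρ : ℝ} (hρ0 : 0 ≤ ρ) (hρ1 : ρ ≤ 1) (a : V d) :
    (gr d ρ).map (fun g x => g (x + a)) = gr d ρ := by
  have := isProb_bern (p := 1 - ρ) (by linarith) (by linarith)
  have h := Measure.infinitePi_map_piCongrLeft (fun _ : V d => bern (1 - ρ)) (Equiv.subRight a)
  have h2 : (MeasurableEquiv.piCongrLeft (fun _ : V d => Bool) (Equiv.subRight a) :
      (V d → Bool) → (V d → Bool)) = fun g x => g (x + a) := by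
    funext ω e
    have := Equiv.piCongrLeft_apply_apply (fun _ : V d => Bool) (Equiv.subRight a) ω
      ((Equiv.subRight a).symm e)
    rw [Equiv.apply_symm_apply] at this
    rw [MeasurableEquiv.coe_piCongrLeft, this]
    rfl
  rw [h2] at h
  exact h

/-- Translation invariance. -/
lemma MG_shift {p ρ : ℝ} (h0 : 0 ≤ p) (h1 : p ≤ 1) (hρ0 : 0 ≤ ρ) (hρ1 : ρ ≤ 1) (y : V d) :
    MG p ρ (∅ : Finset (V d)) y = Mz d p ρ := by
  have hP := isProb_perc (d := d) p h0 h1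
  have hgr := isProb_gr (d := d) hρ0 hρ1
  unfold Mz MG
  rw [Gre_hitE, Gre_hitE]
  have hm0 : MeasurableSet {q : Cfg d × (V d → Bool) | ∃ x ∈ cluster q.1 0, q.2 x = true} := by
    rw [← Gre_hitE]
    exact meas_hitE _ _
  have hT : Measurable (fun (g : V d → Bool) (x : V d) => g (x + y)) :=
    measurable_pi_lambda _ fun _ => measurable_pi_apply _
  have hmap : (mu d p ρ).map (Prod.map (shift y) (fun (g : V d → Bool) (x : V d) => g (x + y))) =
      mu d p ρ := by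
    unfold mu
    rw [← Measure.map_prod_map _ _ (measurable_shift y) hT, perc_shift p h0 h1 y,
      Gre_gr_shift hρ0 hρ1 y]
  rw [← hmap, Measure.map_apply ((measurable_shift y).prodMap hT) hm0, hmap]
  congr 1
  ext q
  simp only [Set.mem_preimage, Set.mem_ofPred_eq, Prod.map_fst, Prod.map_snd, cluster_shift,
    zero_add]
  constructor
  · rintro ⟨x, hx, hg⟩
    exact ⟨x - y, by rw [sub_add_cancel]; exact hx, by rw [sub_add_cancel]; exact hg⟩
  · rintro ⟨x, hx, hg⟩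
    exact ⟨x + y, hx, hg⟩

lemma MG_le_Mz {p ρ : ℝ} (h0 : 0 ≤ p) (h1 : p ≤ 1) (hρ0 : 0 ≤ ρ) (hρ1 : ρ ≤ 1)
    (S : Finset (V d)) (y : V d) : MG p ρ S y ≤ Mz d p ρ := by
  rw [← MG_shift h0 h1 hρ0 hρ1 y]
  unfold MG
  refine measure_mono ?_
  rw [Gre_hitE]
  rintro q ⟨x, hx, hg⟩
  exact ⟨x, cluster_cut_sub _ _ _ hx, hg⟩

lemma Mz_le_one {p ρ : ℝ} (h0 : 0 ≤ p) (h1 : p ≤ 1) (hρ0 : 0 ≤ ρ) (hρ1 : ρ ≤ 1) :
    Mz d p ρ ≤ 1 := by
  have := isProb_mu (d := d) h0 h1 hρ0 hρ1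
  exact prob_le_one

lemma Mz_ge {p ρ : ℝ} (h0 : 0 ≤ p) (h1 : p ≤ 1) (hρ0 : 0 ≤ ρ) (hρ1 : ρ ≤ 1) :
    ENNReal.ofReal (1 - ρ) ≤ Mz d p ρ := by
  have hP := isProb_perc (d := d) p h0 h1
  have hgr := isProb_gr (d := d) hρ0 hρ1
  have h2 : gr d ρ {g : V d → Bool | g 0 = true} = ENNReal.ofReal (1 - ρ) := by
    unfold gr
    rw [bern_coord (by linarith) (by linarith), bern_true]
  have h3 : mu d p ρ (Set.univ ×ˢ {g : V d → Bool | g 0 = true}) = ENNReal.ofReal (1 - ρ) := by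
    unfold mu
    rw [Measure.prod_prod, measure_univ, one_mul, h2]
  rw [← h3]
  unfold Mz MG
  rw [Gre_hitE]
  refine measure_mono fun q hq => ?_
  exact ⟨0, mem_cluster_self q.1 0, hq.2⟩

end SH
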