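import Pool.Agent.H29.SH.GrBk
import Pool.Agent.H95.LBD.TauK

/-!
PROJECT LE (MP_0d9ad5_pr), block SH, Barsky-Aizenman. Two disjoint clusters with green vertices.
-/

namespace SH

open H5DF H5CF H95LBD H95LBS MeasureTheory
open scoped ENNReal

variable {d : ℕ}

lemma QLow_cut_congr {S : Set (V d)} {K : Set (V d)} {ω ω' : Cfg d}
    (h : ∀ e ∈ (touch K)ᶜ, ω e = ω' e) : cut (S ∪ K)ᶜ ω = cut (S ∪ K)ᶜ ω' := by
  funext e
  apply Bool.eq_iff_iff.2
  rw [cut_true, cut_true]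
  have key : e ∈ ins (S ∪ K)ᶜ → ω e = ω' e := by
    rintro ⟨h1, h2⟩
    refine h e ?_
    rintro (h3 | h3)
    · exact h1 (Or.inr h3)
    · exact h2 (Or.inr h3)
  constructor
  · rintro ⟨h1, h2⟩
    exact ⟨by rw [← key h2]; exact h1, h2⟩
  · rintro ⟨h1, h2⟩
    exact ⟨by rw [key h2]; exact h1, h2⟩

lemma QLow_prod [DecidableEq (V d)] {p ρ : ℝ} (h0 : 0 ≤ p) (h1 : p ≤ 1) (hρ0 : 0 ≤ ρ) (hρ1 : ρ ≤ 1)
    (S K : Finset (V d)) (y1 y2 : V d) (hy2 : y2 ∉ S) (hK : y2 ∉ K) :
    mu d p ρ {q | q.1 ∈ {ω : Cfg d | cluster (cut ((S : Set (V d))ᶜ) ω) y1 = (K : Set (V d))} ∧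
      q ∈ {q : Cfg d × (V d → Bool) | q.2 ∈ {g : V d → Bool | ∃ x ∈ K, g x = true} ∧
        q ∈ hitE ((S : Set (V d)) ∪ (K : Set (V d))) y2}} =
      CF.cl p S y1 K * (ENNReal.ofReal (1 - ρ ^ K.card) * MG p ρ (S ∪ K) y2) := by
  have hP := isProb_perc (d := d) p h0 h1
  have hG := isProb_gr (d := d) hρ0 hρ1
  have hmG : MeasurableSet {g : V d → Bool | ∃ x ∈ K, g x = true} := by
    have : {g : V d → Bool | ∃ x ∈ K, g x = true} = ⋃ x ∈ K, {g | g x = true} := by
      ext g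
      simp
    rw [this]
    refine Finset.measurableSet_biUnion _ fun x _ => ?_
    exact measurable_pi_apply (X := fun _ : V d => Bool) x
      (MeasurableSet.of_discrete (s := {true}))
  have hmH : MeasurableSet (hitE ((S : Set (V d)) ∪ (K : Set (V d))) y2) := meas_hitE _ _
  have hmE : MeasurableSet {q : Cfg d × (V d → Bool) |
      q.2 ∈ {g : V d → Bool | ∃ x ∈ K, g x = true} ∧
        q ∈ hitE ((S : Set (V d)) ∪ (K : Set (V d))) y2} :=
    (measurable_snd hmG).inter hmH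
  have hy : y2 ∉ (S : Set (V d)) ∪ (K : Set (V d)) := by
    rintro (h | h)
    · exact hy2 (by exact_mod_cast h)
    · exact hK (by exact_mod_cast h)
  have e1 := indep_fst (ι := Ed d) h0 h1 (gr d ρ) (touch (K : Set (V d)))ᶜ
    {q : Cfg d × (V d → Bool) |
      q.2 ∈ {g : V d → Bool | ∃ x ∈ K, g x = true} ∧
        q ∈ hitE ((S : Set (V d)) ∪ (K : Set (V d))) y2} hmE
    (by
      rintro g ω ω' h ⟨h2, h3⟩
      refine ⟨h2, ?_⟩
      unfold hitE at h3 ⊢
      simp only [Set.mem_ofPred_eq] at h3 ⊢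
      rw [← QLow_cut_congr (S := (S : Set (V d))) h]
      exact h3)
    {ω : Cfg d | cluster (cut ((S : Set (V d))ᶜ) ω) y1 = (K : Set (V d))} (meas_cl _ _ _)
    (by
      intro ω ω' h h2
      refine cl_dep (fun u hu s _ _ => h _ ?_) h2
      intro h3
      exact h3 (edge_mem_touch hu s))
  have e2 := indep_snd (ι := V d) (r := 1 - ρ) (by linarith) (by linarith) (perc d p)
    ((K : Set (V d))ᶜ) (hitE ((S : Set (V d)) ∪ (K : Set (V d))) y2) hmH
    (by
      rintro ω g g' h ⟨x, hx, hgx⟩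
      refine ⟨x, hx, ?_⟩
      have hx2 : x ∉ (S : Set (V d)) ∪ (K : Set (V d)) := cut_off_mem hy hx
      show g' x = true
      rw [← h x (fun hxK => hx2 (Or.inr hxK))]
      exact hgx)
    {g : V d → Bool | ∃ x ∈ K, g x = true} hmG
    (by
      rintro g g' h ⟨x, hx, hgx⟩
      refine ⟨x, hx, ?_⟩
      rw [← h x (by simpa using hx)]
      exact hgx)
  have e3 : gr d ρ {g : V d → Bool | ∃ x ∈ K, g x = true} = ENNReal.ofReal (1 - ρ ^ K.card) :=
    gr_some hρ0 hρ1 K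
  have e4 : mu d p ρ (hitE ((S : Set (V d)) ∪ (K : Set (V d))) y2) = MG p ρ (S ∪ K) y2 := by
    unfold MG
    rw [Finset.coe_union]
  refine e1.trans ?_
  show CF.cl p S y1 K * _ = _
  congr 1
  refine e2.trans ?_
  exact congrArg₂ (· * ·) e3 e4

/-- Explore the cluster of `y1` off `S`. -/
theorem q_expl {p ρ : ℝ} (h0 : 0 ≤ p) (h1 : p ≤ 1) (hρ0 : 0 ≤ ρ) (hρ1 : ρ ≤ 1)
    (S : Finset (V d)) (y1 y2 : V d) (hy1 : y1 ∉ S) (hy2 : y2 ∉ S) [DecidableEq (V d)] :
    ∑' K : Finset (V d), CF.cl p S y1 K * (ENNReal.ofReal (1 - ρ ^ K.card) *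
      (if y2 ∈ K then 0 else MG p ρ (S ∪ K) y2)) ≤ QQ p ρ S y1 y2 := by
  classical
  have hP := isProb_mu (d := d) h0 h1 hρ0 hρ1
  let E : Finset (V d) → Set (Cfg d × (V d → Bool)) := fun K =>
    if y2 ∈ K then ∅ else
      {q | q.1 ∈ {ω : Cfg d | cluster (cut ((S : Set (V d))ᶜ) ω) y1 = (K : Set (V d))} ∧
      q ∈ {q : Cfg d × (V d → Bool) | q.2 ∈ {g : V d → Bool | ∃ x ∈ K, g x = true} ∧
        q ∈ hitE ((S : Set (V d)) ∪ (K : Set (V d))) y2}}
  have hE1 : ∀ K, mu d p ρ (E K) = CF.cl p S y1 K * (ENNReal.ofReal (1 - ρ ^ K.card) *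
      (if y2 ∈ K then 0 else MG p ρ (S ∪ K) y2)) := by
    intro K
    by_cases h : y2 ∈ K
    · simp only [E, if_pos h, measure_empty, mul_zero]
    · simp only [E, if_neg h]
      exact QLow_prod h0 h1 hρ0 hρ1 S K y1 y2 hy2 h
  have hmeas : ∀ K, MeasurableSet (E K) := by
    intro K
    by_cases h : y2 ∈ K
    · simp only [E, if_pos h]
      exact MeasurableSet.empty
    · simp only [E, if_neg h]
      have hmG : MeasurableSet {g : V d → Bool | ∃ x ∈ K, g x = true} := by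
        have : {g : V d → Bool | ∃ x ∈ K, g x = true} = ⋃ x ∈ K, {g | g x = true} := by
          ext g
          simp
        rw [this]
        refine Finset.measurableSet_biUnion _ fun x _ => ?_
        exact measurable_pi_apply (X := fun _ : V d => Bool) x
          (MeasurableSet.of_discrete (s := {true}))
      have hmH : MeasurableSet (hitE ((S : Set (V d)) ∪ (K : Set (V d))) y2) := meas_hitE _ _
      have hmE : MeasurableSet {q : Cfg d × (V d → Bool) |
          q.2 ∈ {g : V d → Bool | ∃ x ∈ K, g x = true} ∧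
            q ∈ hitE ((S : Set (V d)) ∪ (K : Set (V d))) y2} :=
        (measurable_snd hmG).inter hmH
      exact (measurable_fst (meas_cl _ _ _)).inter hmE
  have hcl : ∀ K, ∀ q ∈ E K, y2 ∉ K ∧
      cluster (cut ((S : Set (V d))ᶜ) q.1) y1 = (K : Set (V d)) ∧ (∃ x ∈ K, q.2 x = true) ∧
      q ∈ hitE ((S : Set (V d)) ∪ (K : Set (V d))) y2 := by
    intro K q hq
    by_cases h : y2 ∈ K
    · simp only [E, if_pos h] at hq
      exact absurd hq (Set.notMem_empty _)
    · simp only [E, if_neg h] at hq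
      exact ⟨h, hq.1, hq.2.1, hq.2.2⟩
  have hdisj : Pairwise (Function.onFun Disjoint E) := by
    intro K K' hne
    rw [Function.onFun, Set.disjoint_left]
    intro q h2 h3
    apply hne
    have h4 := (hcl K q h2).2.1
    have h5 := (hcl K' q h3).2.1
    exact_mod_cast h4.symm.trans h5
  calc ∑' K : Finset (V d), CF.cl p S y1 K * (ENNReal.ofReal (1 - ρ ^ K.card) *
      (if y2 ∈ K then 0 else MG p ρ (S ∪ K) y2)) = ∑' K : Finset (V d), mu d p ρ (E K) :=
        tsum_congr fun K => (hE1 K).symm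
    _ = mu d p ρ (⋃ K, E K) := (measure_iUnion hdisj hmeas).symm
    _ ≤ QQ p ρ S y1 y2 := by
        unfold QQ
        refine measure_mono ?_
        intro q hq
        obtain ⟨K, hK⟩ := Set.mem_iUnion.1 hq
        obtain ⟨h2, h3, ⟨x, hx, hgx⟩, h4⟩ := hcl K q hK
        refine ⟨?_, ⟨x, ?_, hgx⟩, ?_⟩
        · rw [h3]
          exact_mod_cast h2
        · rw [h3]
          exact_mod_cast hx
        · obtain ⟨z, hz, hgz⟩ := h4
          refine ⟨z, ?_, hgz⟩
          have hz' : Cn (((S : Set (V d)) ∪ (K : Set (V d)))ᶜ) q.1 y2 z := hz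
          exact hz'.mono (Set.compl_subset_compl.2 Set.subset_union_left) fun _ h => h

lemma QLow_tsum_mem (K : Finset (V d)) (f : V d → ℝ≥0∞) [DecidableEq (V d)] :
    ∑ z ∈ K, f z = ∑' z : V d, (if z ∈ K then f z else 0) := by
  rw [tsum_eq_sum (s := K)]
  · exact Finset.sum_congr rfl fun z hz => (if_pos hz).symm
  · intro z hz
    exact if_neg hz

lemma QLow_T3 {p : ℝ} (h0 : 0 ≤ p) (h1 : p ≤ 1) (y1 y2 : V d) :
    ∑' z : V d, tau d p (z - y2) * ∑' a : V d, tau d p (a - y1) * tau d p (z - a) =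
      T3 d p (y2 - y1) := by
  unfold T3
  have e1 : ∀ z : V d, tau d p (z - y2) * ∑' a : V d, tau d p (a - y1) * tau d p (z - a) =
      ∑' a : V d, tau d p (a - y1) * tau d p (z - a) * tau d p (y2 - z) := by
    intro z
    rw [← ENNReal.tsum_mul_left]
    refine tsum_congr fun a => ?_
    rw [← tau_neg p h0 h1 (z - y2), neg_sub]
    ring
  simp_rw [e1]
  rw [ENNReal.tsum_comm, ← (Equiv.addRight y1).tsum_eq]
  refine tsum_congr fun a => ?_
  rw [← (Equiv.addRight y1).tsum_eq]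
  refine tsum_congr fun b => ?_
  simp only [Equiv.coe_addRight]
  have h2 : a + y1 - y1 = a := by abel
  have h3 : b + y1 - (a + y1) = b - a := by abel
  have h4 : y2 - (b + y1) = y2 - y1 - b := by abel
  rw [h2, h3, h4]

theorem q_low {p ρ : ℝ} (h0 : 0 ≤ p) (h1 : p ≤ 1) (hρ0 : 0 ≤ ρ) (hρ1 : ρ ≤ 1)
    (hfin : ∀ x : V d, ∀ᵐ ω ∂(perc d p), (cluster ω x).Finite)
    (S : Finset (V d)) (y1 y2 : V d) (hy1 : y1 ∉ S) (hy2 : y2 ∉ S) :
    Mz d p ρ ^ 2 ≤ QQ p ρ S y1 y2 + Mz d p ρ ^ 2 *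
      ((∑ z ∈ S, (tau d p (z - y1) + tau d p (z - y2))) + T3 d p (y2 - y1)) := by
  classical
  set M := Mz d p ρ with hM
  -- the law of the cluster of `y1`
  let c : Finset (V d) → ℝ≥0∞ := fun K => CF.cl p S y1 K * ENNReal.ofReal (1 - ρ ^ K.card)
  let f : Finset (V d) → ℝ≥0∞ := fun K => if y2 ∈ K then 0 else MG p ρ (S ∪ K) y2
  let A : ℝ≥0∞ := ∑ z ∈ S, tau d p (z - y1)
  let B : ℝ≥0∞ := ∑ z ∈ S, tau d p (z - y2)
  have s1 : M ≤ MG p ρ S y1 + A * M := by
    have h := mz_off h0 h1 hρ0 hρ1 S y1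
    rw [← Finset.sum_mul] at h
    exact h
  have s2 : MG p ρ S y1 ≤ ∑' K, c K := MG_le h0 h1 hρ0 hρ1 S y1 (hfin y1)
  have s3 : ∑' K, c K ≤ M := (MG_ge h0 h1 hρ0 hρ1 S y1).trans (MG_le_Mz h0 h1 hρ0 hρ1 S y1)
  have s4 : ∀ K : Finset (V d), M ≤ f K + (B * M + (∑ z ∈ K, tau d p (z - y2)) * M) := by
    intro K
    by_cases h : y2 ∈ K
    · have h2 : (1 : ℝ≥0∞) ≤ ∑ z ∈ K, tau d p (z - y2) := by
        calc (1 : ℝ≥0∞) = tau d p (y2 - y2) := by rw [sub_self, tau_zero p h0 h1]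
          _ ≤ ∑ z ∈ K, tau d p (z - y2) :=
            Finset.single_le_sum (f := fun z => tau d p (z - y2)) (fun _ _ => zero_le) h
      calc M = 1 * M := (one_mul M).symm
        _ ≤ (∑ z ∈ K, tau d p (z - y2)) * M := by gcongr
        _ ≤ f K + (B * M + (∑ z ∈ K, tau d p (z - y2)) * M) :=
          le_add_left (le_add_left le_rfl)
    · have h2 := mz_off (d := d) h0 h1 hρ0 hρ1 (S ∪ K) y2
      rw [← Finset.sum_mul] at h2
      have h3 : ∑ z ∈ S ∪ K, tau d p (z - y2) ≤ B + ∑ z ∈ K, tau d p (z - y2) := by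
        rw [← Finset.sum_union_inter]
        exact le_self_add
      calc M ≤ MG p ρ (S ∪ K) y2 + (∑ z ∈ S ∪ K, tau d p (z - y2)) * M := h2
        _ ≤ MG p ρ (S ∪ K) y2 + (B + ∑ z ∈ K, tau d p (z - y2)) * M := by gcongr
        _ = f K + (B * M + (∑ z ∈ K, tau d p (z - y2)) * M) := by
          simp only [f, if_neg h, add_mul]
  have s5 : ∑' K, c K * f K ≤ QQ p ρ S y1 y2 := by
    refine le_trans (le_of_eq (tsum_congr fun K => ?_)) (q_expl h0 h1 hρ0 hρ1 S y1 y2 hy1 hy2)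
    simp only [c, f, mul_assoc]
  have s6 : ∑' K, c K * ((∑ z ∈ K, tau d p (z - y2)) * M) ≤ M * (T3 d p (y2 - y1) * M) := by
    calc ∑' K, c K * ((∑ z ∈ K, tau d p (z - y2)) * M)
        = ∑' K, ∑' z : V d, tau d p (z - y2) * M * (CF.cl p S y1 K *
            (if z ∈ K then ENNReal.ofReal (1 - ρ ^ K.card) else 0)) := by
          refine tsum_congr fun K => ?_
          rw [QLow_tsum_mem, ← ENNReal.tsum_mul_right, ← ENNReal.tsum_mul_left]
          refine tsum_congr fun z => ?_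
          simp only [c]
          split_ifs
          · ring
          · simp
      _ = ∑' z : V d, tau d p (z - y2) * M * ∑' K, (CF.cl p S y1 K *
            (if z ∈ K then ENNReal.ofReal (1 - ρ ^ K.card) else 0)) := by
          rw [ENNReal.tsum_comm]
          refine tsum_congr fun z => ?_
          rw [ENNReal.tsum_mul_left]
      _ ≤ ∑' z : V d, tau d p (z - y2) * M *
            ∑' a : V d, tau d p (a - y1) * tau d p (z - a) * M := by
          refine ENNReal.tsum_le_tsum fun z => ?_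
          gcongr
          exact mz_tree h0 h1 hρ0 hρ1 S y1 z
      _ = M * (T3 d p (y2 - y1) * M) := by
          rw [← QLow_T3 h0 h1 y1 y2, ← ENNReal.tsum_mul_right, ← ENNReal.tsum_mul_left]
          refine tsum_congr fun z => ?_
          rw [ENNReal.tsum_mul_right]
          ring
  calc M ^ 2 = M * M := sq M
    _ ≤ (MG p ρ S y1 + A * M) * M := by gcongr
    _ = MG p ρ S y1 * M + A * M * M := add_mul _ _ _
    _ ≤ (∑' K, c K) * M + A * M * M := by gcongr
    _ = ∑' K, c K * M + A * M * M := by rw [ENNReal.tsum_mul_right]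
    _ ≤ ∑' K, (c K * f K + (c K * (B * M) + c K * ((∑ z ∈ K, tau d p (z - y2)) * M))) +
          A * M * M := by
        gcongr with K
        calc c K * M ≤ c K * (f K + (B * M + (∑ z ∈ K, tau d p (z - y2)) * M)) := by
              gcongr
              exact s4 K
          _ = _ := by ring
    _ = ∑' K, c K * f K + ((∑' K, c K) * (B * M) +
          ∑' K, c K * ((∑ z ∈ K, tau d p (z - y2)) * M)) + A * M * M := by
        rw [ENNReal.tsum_add, ENNReal.tsum_add, ENNReal.tsum_mul_right]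
    _ ≤ QQ p ρ S y1 y2 + (M * (B * M) + M * (T3 d p (y2 - y1) * M)) + A * M * M := by
        gcongr
    _ = QQ p ρ S y1 y2 + M ^ 2 *
      ((∑ z ∈ S, (tau d p (z - y1) + tau d p (z - y2))) + T3 d p (y2 - y1)) := by
        rw [Finset.sum_add_distrib]
        show QQ p ρ S y1 y2 + (M * (B * M) + M * (T3 d p (y2 - y1) * M)) + A * M * M =
          QQ p ρ S y1 y2 + M ^ 2 * ((A + B) + T3 d p (y2 - y1))
        ring

end SH
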