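import Pool.Agent.H29.SH.Gre
import Pool.Agent.H95.LBS.Thin

/-!
PROJECT LE (MP_0d9ad5_pr), block SH, Barsky-Aizenman. The cluster off one vertex.
-/

namespace SH

open H5DF H5CF H95LBD H95LBS MeasureTheory
open scoped ENNReal

variable {d : ℕ}

/-- the edges at `v` -/
noncomputable def StarV_edges (v : V d) : Finset (Ed d) := by
  classical exact (Finset.univ : Finset (Dir d)).image (edge v)

lemma StarV_mem (v : V d) (s : Dir d) : edge v s ∈ StarV_edges v := by
  classical
  unfold StarV_edges
  exact Finset.mem_image_of_mem _ (Finset.mem_univ s)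

lemma StarV_card (v : V d) : (StarV_edges v).card ≤ 2 * d := by
  classical
  unfold StarV_edges
  refine Finset.card_image_le.trans ?_
  simp [mul_comm]

lemma StarV_touch (v : V d) {e : Ed d} (he : e ∈ StarV_edges v) : e ∈ touch ({v} : Set (V d)) := by
  classical
  unfold StarV_edges at he
  obtain ⟨s, -, rfl⟩ := Finset.mem_image.1 he
  exact edge_mem_touch (by simp) s

/-- Close the edges at `v`. -/
theorem cl_star {p : ℝ} (h0 : 0 ≤ p) (h1 : p ≤ 1) {v : V d} (hv : v ≠ 0) (B : Finset (V d)) :
    CF.cl p {v} 0 B * ENNReal.ofReal ((1 - p) ^ (2 * d)) ≤ CF.cl p ∅ 0 B := by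
  by_cases hvB : v ∈ B
  · rw [cl_not_disj (by simpa using hv.symm) (by simpa using hvB), zero_mul]
    exact zero_le
  set A : Set (Cfg d) := {ζ : Cfg d | cluster (cut (({v} : Finset (V d)) : Set (V d))ᶜ ζ) 0 =
    (B : Set (V d))} with hA
  set S : Set (Cfg d) := {κ : Cfg d | ∀ e ∈ StarV_edges v, κ e = false} with hS
  have hAm : MeasurableSet A := meas_cl _ 0 _
  have hSm : MeasurableSet S := by
    have h2 : S = ⋂ e ∈ StarV_edges v, {κ : Cfg d | κ e = false} := by
      ext κ
      simp [hS]
    rw [h2]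
    refine Finset.measurableSet_biInter _ fun e _ => ?_
    exact measurable_pi_apply (X := fun _ : Ed d => Bool) e
      (MeasurableSet.of_discrete (s := {false}))
  have hind : perc d p (A ∩ S) = perc d p A * perc d p S := by
    refine indep_split h0 h1 (touch ({v} : Set (V d))) S A hSm hAm ?_ ?_
    · intro ω ω' h hω e he
      rw [← h e (StarV_touch v he)]
      exact hω e he
    · intro ω ω' h hω
      refine cl_dep ?_ hω
      intro u _ s hu hus
      refine h _ (edge_notMem_touch ?_ ?_)
      · simpa using hu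
      · simpa using hus
  have hsub : A ∩ S ⊆ {ζ : Cfg d | cluster (cut (((∅ : Finset (V d)) : Set (V d))ᶜ) ζ) 0 =
      (B : Set (V d))} := by
    rintro ζ ⟨h2, h3⟩
    refine cluster_congr h2 fun u hu s => ?_
    apply Bool.eq_iff_iff.2
    rw [cut_edge, cut_edge]
    constructor
    · rintro ⟨h4, -, -⟩
      exact ⟨h4, by simp, by simp⟩
    · rintro ⟨h4, -, -⟩
      refine ⟨h4, ?_, ?_⟩
      · simp only [Finset.coe_singleton, Set.mem_compl_iff, Set.mem_singleton_iff]
        rintro rfl
        exact hvB (by exact_mod_cast hu)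
      · simp only [Finset.coe_singleton, Set.mem_compl_iff, Set.mem_singleton_iff]
        intro h5
        have h6 : edge v (opp s) = edge u s := by
          rw [← h5, edge_opp]
        have h7 := h3 _ (StarV_mem v (opp s))
        rw [h6, h4] at h7
        exact absurd h7 (by simp)
  have hle : ENNReal.ofReal ((1 - p) ^ (2 * d)) ≤ perc d p S := by
    rw [hS, Thin_closed h0 h1, ENNReal.ofReal_pow (by linarith)]
    refine pow_le_pow_of_le_one zero_le ?_ (StarV_card v)
    rw [ENNReal.ofReal_le_one]
    linarith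
  calc CF.cl p {v} 0 B * ENNReal.ofReal ((1 - p) ^ (2 * d))
      ≤ perc d p A * perc d p S := mul_le_mul_right hle _
    _ = perc d p (A ∩ S) := hind.symm
    _ ≤ CF.cl p ∅ 0 B := measure_mono hsub

theorem w_star {p ρ : ℝ} (h0 : 0 ≤ p) (h1 : p ≤ 1) {v : V d} (hv : v ≠ 0) (u z : V d) :
    W p ρ {v} u z * ENNReal.ofReal ((1 - p) ^ (2 * d)) ≤ W p ρ ∅ u z := by
  unfold W
  rw [← ENNReal.tsum_mul_right]
  refine ENNReal.tsum_le_tsum fun B => ?_
  rw [mul_right_comm]
  exact mul_le_mul_left (cl_star h0 h1 hv B) _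

end SH
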