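import Pool.Agent.H29.SH.Gre

/-!
PROJECT LE (MP_0d9ad5_pr), block SH, Barsky-Aizenman. `E |C| rho^|C|` and the clusters off one
vertex.
-/

namespace SH

open H5DF H5CF H95LBD H95LBS MeasureTheory
open scoped ENNReal

variable {d : ℕ}

open Classical in
/-- The function which is integrated in `W p ρ S u u`. -/
noncomputable def XRel_f (ρ : ℝ) (u : V d) (B : Finset (V d)) : ℝ≥0∞ :=
  if u ∈ B ∧ u ∈ B then ENNReal.ofReal (ρ ^ B.card) else 0

lemma XRel_W (p ρ : ℝ) (S : Finset (V d)) (u : V d) :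
    W p ρ S u u = ∑' B : Finset (V d), CF.cl p S 0 B * XRel_f ρ u B := rfl

lemma XRel_int (p ρ : ℝ) (S : Finset (V d)) (u : V d) :
    W p ρ S u u = ∫⁻ ζ, Fc (XRel_f ρ u) (cluster (cut ((S : Set (V d))ᶜ) ζ) 0) ∂(perc d p) := by
  rw [XRel_W, lint_cl]

/-- The edges at `v` do not matter for the cluster off `v`. -/
lemma XRel_dep {v : V d} {t : Dir d} {ω ω' : Cfg d} (h : ∀ e, e ≠ edge v t → ω e = ω' e) :
    cut ((({v} : Finset (V d)) : Set (V d))ᶜ) ω = cut ((({v} : Finset (V d)) : Set (V d))ᶜ) ω' := by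
  funext e
  apply Bool.eq_iff_iff.2
  rw [cut_true, cut_true]
  by_cases he : e = edge v t
  · subst he
    have hn : edge v t ∉ ins ((({v} : Finset (V d)) : Set (V d))ᶜ) := by
      rw [edge_mem_ins]
      rintro ⟨h1, -⟩
      simp at h1
    exact ⟨fun h => absurd h.2 hn, fun h => absurd h.2 hn⟩
  · rw [h e he]

lemma XRel_mo (e : Ed d) : MeasurableSet {ζ : Cfg d | ζ e = true} := by
  have h : {ζ : Cfg d | ζ e = true} = (fun ζ : Cfg d => ζ e) ⁻¹' {true} := by
    ext ζ
    rfl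
  rw [h]
  exact (measurable_pi_apply e) (MeasurableSet.of_discrete (s := {true}))

lemma XRel_indep {p : ℝ} (h0 : 0 ≤ p) (h1 : p ≤ 1) (v : V d) (t : Dir d) (B : Finset (V d)) :
    perc d p {ζ | ζ (edge v t) = true ∧
      cluster (cut ((({v} : Finset (V d)) : Set (V d))ᶜ) ζ) 0 = (B : Set (V d))} =
      ENNReal.ofReal p * CF.cl p {v} 0 B := by
  have h := indep_split h0 h1 {e : Ed d | e ≠ edge v t}
    {ζ : Cfg d | cluster (cut ((({v} : Finset (V d)) : Set (V d))ᶜ) ζ) 0 = (B : Set (V d))}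
    {ζ : Cfg d | ζ (edge v t) = true} (meas_cl _ 0 _)
    (XRel_mo (edge v t))
    (fun ω ω' hω hc => by
      simp only [Set.mem_ofPred_eq] at hc ⊢
      rw [← XRel_dep (ω := ω) (ω' := ω') fun e he => hω e he]
      exact hc)
    (fun ω ω' hω hc => by
      simp only [Set.mem_ofPred_eq] at hc ⊢
      rw [← hω (edge v t) (by simp)]
      exact hc)
  have hb := bern_coord h0 h1 (edge v t) true
  rw [bern_true] at hb
  have e1 : {ζ : Cfg d | ζ (edge v t) = true ∧
      cluster (cut ((({v} : Finset (V d)) : Set (V d))ᶜ) ζ) 0 = (B : Set (V d))} =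
      {ζ : Cfg d | ζ (edge v t) = true} ∩
      {ζ : Cfg d | cluster (cut ((({v} : Finset (V d)) : Set (V d))ᶜ) ζ) 0 = (B : Set (V d))} := rfl
  rw [e1]
  unfold perc CF.cl
  rw [h, hb]
  rfl

open Classical in
lemma XRel_edge {p : ℝ} (h0 : 0 ≤ p) (h1 : p ≤ 1) (v : V d) (t : Dir d)
    (f : Finset (V d) → ℝ≥0∞) :
    ∫⁻ ζ, (if ζ (edge v t) = true then
      Fc f (cluster (cut ((({v} : Finset (V d)) : Set (V d))ᶜ) ζ) 0) else 0) ∂(perc d p) =
      ENNReal.ofReal p * ∑' B : Finset (V d), CF.cl p {v} 0 B * f B := by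
  have hset : ∀ B : Finset (V d), MeasurableSet {ζ : Cfg d | ζ (edge v t) = true ∧
      cluster (cut ((({v} : Finset (V d)) : Set (V d))ᶜ) ζ) 0 = (B : Set (V d))} := by
    intro B
    exact (XRel_mo (edge v t)).inter (meas_cl _ 0 _)
  have e1 : ∀ ζ : Cfg d, (if ζ (edge v t) = true then
      Fc f (cluster (cut ((({v} : Finset (V d)) : Set (V d))ᶜ) ζ) 0) else 0) =
      ∑' B : Finset (V d), ({ζ : Cfg d | ζ (edge v t) = true ∧
        cluster (cut ((({v} : Finset (V d)) : Set (V d))ᶜ) ζ) 0 = (B : Set (V d))}).indicator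
          (fun _ => f B) ζ := by
    intro ζ
    by_cases h : ζ (edge v t) = true
    · rw [if_pos h, Fc_sum]
      refine tsum_congr fun B => ?_
      by_cases h2 : cluster (cut ((({v} : Finset (V d)) : Set (V d))ᶜ) ζ) 0 = (B : Set (V d))
      · rw [if_pos h2]
        exact (Set.indicator_of_mem (s := {ζ : Cfg d | ζ (edge v t) = true ∧
          cluster (cut ((({v} : Finset (V d)) : Set (V d))ᶜ) ζ) 0 = (B : Set (V d))}) ⟨h, h2⟩
          (fun _ => f B)).symm
      · rw [if_neg h2]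
        exact (Set.indicator_of_notMem (s := {ζ : Cfg d | ζ (edge v t) = true ∧
          cluster (cut ((({v} : Finset (V d)) : Set (V d))ᶜ) ζ) 0 = (B : Set (V d))})
          (fun h3 => h2 h3.2) (fun _ => f B)).symm
    · rw [if_neg h]
      symm
      rw [ENNReal.tsum_eq_zero]
      intro B
      exact Set.indicator_of_notMem (s := {ζ : Cfg d | ζ (edge v t) = true ∧
          cluster (cut ((({v} : Finset (V d)) : Set (V d))ᶜ) ζ) 0 = (B : Set (V d))})
          (fun h3 => h h3.1) (fun _ => f B)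
  simp_rw [e1]
  rw [lintegral_tsum, ← ENNReal.tsum_mul_left]
  · refine tsum_congr fun B => ?_
    rw [lintegral_indicator (hset B), lintegral_const, Measure.restrict_apply_univ,
      XRel_indep h0 h1, mul_comm (f B), mul_assoc]
  · intro B
    exact (Measurable.indicator measurable_const (hset B)).aemeasurable

/-- If no open edge joins `v` to its cluster off `v` then this is the whole cluster. -/
lemma XRel_det1 {ω : Cfg d} {v : V d} (hv : v ≠ 0)
    (h : ∀ t : Dir d, v + step t ∈ cluster (cut ((({v} : Finset (V d)) : Set (V d))ᶜ) ω) 0 →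
      ω (edge v t) ≠ true) :
    cluster ω 0 = cluster (cut ((({v} : Finset (V d)) : Set (V d))ᶜ) ω) 0 := by
  refine cluster_congr rfl fun w hw s => ?_
  have hw1 : w ≠ v := by
    have := cut_off_mem (S := (({v} : Finset (V d)) : Set (V d))) (ζ := ω) (x := 0) (y := w)
      (by simpa using hv.symm) hw
    simpa using this
  apply Bool.eq_iff_iff.2
  rw [cut_edge]
  constructor
  · exact fun h1 => h1.1
  · intro h1
    refine ⟨h1, by simpa using hw1, ?_⟩
    intro h2
    have h3 : w + step s = v := by simpa using h2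
    have h4 : v + step (opp s) = w := by
      rw [step_opp, ← h3]
      abel
    refine h (opp s) (by rw [h4]; exact hw) ?_
    rw [← h3, edge_opp]
    exact h1

open Classical in
lemma XRel_det {ρ : ℝ} (hρ0 : 0 ≤ ρ) (hρ1 : ρ ≤ 1) {v : V d} (hv : v ≠ 0) (u : V d)
    (ω : Cfg d) :
    Fc (XRel_f ρ u) (cluster ω 0) ≤
      Fc (XRel_f ρ u) (cluster (cut ((({v} : Finset (V d)) : Set (V d))ᶜ) ω) 0) +
      ∑ t : Dir d, (if ω (edge v t) = true then
        Fc (XRel_f ρ (v + step t))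
          (cluster (cut ((({v} : Finset (V d)) : Set (V d))ᶜ) ω) 0) else 0) := by
  have hsub := cluster_cut_sub ((({v} : Finset (V d)) : Set (V d))ᶜ) ω 0
  by_cases hC : (cluster ω 0).Finite
  swap
  · unfold Fc
    rw [dif_neg hC]
    exact zero_le
  have hC' := hC.subset hsub
  by_cases hu : u ∈ cluster ω 0
  swap
  · obtain ⟨B, hB⟩ := hC.exists_finset_coe
    rw [← hB, Fc_coe, XRel_f, if_neg]
    · exact zero_le
    · rintro ⟨h, -⟩
      apply hu
      rw [← hB]
      exact_mod_cast h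
  obtain ⟨B, hB⟩ := hC.exists_finset_coe
  obtain ⟨B', hB'⟩ := hC'.exists_finset_coe
  have hBB : B' ⊆ B := by
    intro x hx
    have h1 : x ∈ (B' : Set (V d)) := by exact_mod_cast hx
    rw [hB'] at h1
    have h2 := hsub h1
    rw [← hB] at h2
    exact_mod_cast h2
  have hpow : ENNReal.ofReal (ρ ^ B.card) ≤ ENNReal.ofReal (ρ ^ B'.card) :=
    ENNReal.ofReal_le_ofReal (pow_le_pow_of_le_one hρ0 hρ1 (Finset.card_le_card hBB))
  have hL : Fc (XRel_f ρ u) (cluster ω 0) ≤ ENNReal.ofReal (ρ ^ B'.card) := by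
    rw [← hB, Fc_coe, XRel_f]
    split_ifs
    · exact hpow
    · exact zero_le
  refine hL.trans ?_
  by_cases hu' : u ∈ cluster (cut ((({v} : Finset (V d)) : Set (V d))ᶜ) ω) 0
  · refine le_trans ?_ (le_add_right le_rfl)
    rw [← hB'] at hu' ⊢
    have h1 : u ∈ B' := by exact_mod_cast hu'
    rw [Fc_coe, XRel_f, if_pos ⟨h1, h1⟩]
  · have hex : ∃ t : Dir d, v + step t ∈ cluster (cut ((({v} : Finset (V d)) : Set (V d))ᶜ) ω) 0 ∧
        ω (edge v t) = true := by
      by_contra hn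
      push Not at hn
      exact hu' (by rw [← XRel_det1 hv hn]; exact hu)
    obtain ⟨t, ht, ho⟩ := hex
    refine le_trans ?_ (le_add_left le_rfl)
    refine le_trans ?_ (Finset.single_le_sum (f := fun t : Dir d => (if ω (edge v t) = true then
        Fc (XRel_f ρ (v + step t))
          (cluster (cut ((({v} : Finset (V d)) : Set (V d))ᶜ) ω) 0) else 0))
        (fun _ _ => zero_le) (Finset.mem_univ t))
    rw [if_pos ho]
    rw [← hB'] at ht ⊢
    have h1 : v + step t ∈ B' := by exact_mod_cast ht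
    rw [Fc_coe, XRel_f, if_pos ⟨h1, h1⟩]

lemma XRel_meas (T : Set (V d)) (f : Finset (V d) → ℝ≥0∞) :
    Measurable fun ζ : Cfg d => Fc f (cluster (cut T ζ) 0) := by
  classical
  simp_rw [Fc_sum]
  refine Measurable.tsum fun B => ?_
  exact Measurable.ite (meas_cl _ 0 _) measurable_const measurable_const

lemma XRel_cutE (ω : Cfg d) :
    cluster (cut (((∅ : Finset (V d)) : Set (V d))ᶜ) ω) 0 = cluster ω 0 :=
  cluster_off (by simp)

/-- One vertex `v` and one neighbour. -/
theorem x_one {p ρ : ℝ} (h0 : 0 ≤ p) (h1 : p ≤ 1) (hρ0 : 0 ≤ ρ) (hρ1 : ρ ≤ 1)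
    (hfin : ∀ᵐ ω ∂(perc d p), (cluster ω 0).Finite) {v : V d} (hv : v ≠ 0) (s : Dir d) :
    W p ρ ∅ (v + step s) (v + step s) ≤ W p ρ {v} (v + step s) (v + step s) +
      ENNReal.ofReal p * ∑ t : Dir d, W p ρ {v} (v + step t) (v + step t) := by
  classical
  rw [XRel_int p ρ ∅]
  simp_rw [XRel_cutE]
  refine (lintegral_mono fun ω => XRel_det hρ0 hρ1 hv (v + step s) ω).trans (le_of_eq ?_)
  rw [lintegral_add_left (XRel_meas _ _), ← XRel_int, lintegral_finsetSum', Finset.mul_sum]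
  · congr 1
    refine Finset.sum_congr rfl fun t _ => ?_
    rw [XRel_edge h0 h1, XRel_W]
  · intro t _
    refine Measurable.aemeasurable ?_
    exact Measurable.ite (XRel_mo (edge v t))
      (XRel_meas _ _) measurable_const

lemma XRel_W_le {p ρ : ℝ} (h0 : 0 ≤ p) (h1 : p ≤ 1) (hρ0 : 0 ≤ ρ) (hρ1 : ρ ≤ 1)
    (S : Finset (V d)) (u : V d) : W p ρ S u u ≤ 1 := by
  classical
  rw [XRel_W]
  refine le_trans (ENNReal.tsum_le_tsum fun B => ?_) (sum_cl_le h0 h1 S 0)
  have : XRel_f ρ u B ≤ 1 := by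
    unfold XRel_f
    split_ifs
    · rw [← ENNReal.ofReal_one]
      exact ENNReal.ofReal_le_ofReal (pow_le_one₀ hρ0 hρ1)
    · exact zero_le_one
  calc CF.cl p S 0 B * XRel_f ρ u B ≤ CF.cl p S 0 B * 1 := by gcongr
    _ = CF.cl p S 0 B := mul_one _

theorem x_rel {p ρ : ℝ} (h0 : 0 ≤ p) (h1 : p ≤ 1) (hρ0 : 0 ≤ ρ) (hρ1 : ρ ≤ 1)
    (hfin : ∀ᵐ ω ∂(perc d p), (cluster ω 0).Finite) :
    2 * (d : ℝ≥0∞) * M1 d p ρ ≤
      (1 + 2 * (d : ℝ≥0∞) * ENNReal.ofReal p) * (∑ s : Dir d, XS d p ρ s) + 2 * (d : ℝ≥0∞) := by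
  classical
  have hcard : (∑ _s : Dir d, (1 : ℝ≥0∞)) = 2 * (d : ℝ≥0∞) := by
    simp [mul_comm]
  have hone : ∀ s : Dir d, M1 d p ρ ≤ 1 + XS d p ρ s + ENNReal.ofReal p * ∑ t, XS d p ρ t := by
    intro s
    have e1 : M1 d p ρ = ∑' v : V d, W p ρ ∅ (v + step s) (v + step s) :=
      ((Equiv.addRight (step s)).tsum_eq fun a => W p ρ ∅ a a).symm
    have e2 : ∑' v : V d, (if v = 0 then (1 : ℝ≥0∞) else 0) = 1 := by
      rw [tsum_ite_eq]
    rw [e1]
    calc ∑' v : V d, W p ρ ∅ (v + step s) (v + step s)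
        ≤ ∑' v : V d, ((if v = 0 then (1 : ℝ≥0∞) else 0) +
            (if v = 0 then 0 else W p ρ {v} (v + step s) (v + step s)) +
            ENNReal.ofReal p * ∑ t : Dir d,
              (if v = 0 then 0 else W p ρ {v} (v + step t) (v + step t))) := by
          refine ENNReal.tsum_le_tsum fun v => ?_
          by_cases hv : v = 0
          · subst hv
            simp only [if_true]
            refine (XRel_W_le h0 h1 hρ0 hρ1 _ _).trans ?_
            rw [add_zero]
            exact le_add_right le_rfl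
          · simp only [if_neg hv, zero_add]
            exact x_one h0 h1 hρ0 hρ1 hfin hv s
      _ = 1 + XS d p ρ s + ENNReal.ofReal p * ∑ t, XS d p ρ t := by
          rw [ENNReal.tsum_add, ENNReal.tsum_add, e2, ENNReal.tsum_mul_left]
          congr 2
          rw [Summable.tsum_finsetSum fun t _ => ENNReal.summable]
          rfl
  calc 2 * (d : ℝ≥0∞) * M1 d p ρ = ∑ _s : Dir d, M1 d p ρ := by
        rw [← hcard, Finset.sum_mul]
        simp
    _ ≤ ∑ s : Dir d, (1 + XS d p ρ s + ENNReal.ofReal p * ∑ t, XS d p ρ t) :=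
        Finset.sum_le_sum fun s _ => hone s
    _ = 2 * (d : ℝ≥0∞) + (∑ s : Dir d, XS d p ρ s) +
          2 * (d : ℝ≥0∞) * (ENNReal.ofReal p * ∑ t, XS d p ρ t) := by
        rw [Finset.sum_add_distrib, Finset.sum_add_distrib, hcard]
        congr 1
        rw [← hcard, Finset.sum_mul]
        simp
    _ = _ := by ring

end SH
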