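import Pool.Agent.H29.SH.GrTree
import Pool.Agent.H29.SH.StarV
import Pool.Agent.H29.SH.XRel
import Pool.Agent.H29.SH.Expl
import Pool.Agent.H29.SH.QLow
import Pool.Agent.H29.SH.AnLim
import Pool.Agent.H5.CF.ClB
import Pool.Agent.H95.LBD.TauK

/-!
PROJECT LE (MP_0d9ad5_pr), block SH, Barsky-Aizenman. The inequality `M M' ≤ C`.
-/

namespace SH

open H5DF H5CF H95LBD H95LBS MeasureTheory
open scoped ENNReal

variable {d : ℕ}

lemma Ineq_step_inj {s t : Dir d} (h : (step s : V d) = step t) : s = t := by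
  obtain ⟨i, b⟩ := s
  obtain ⟨j, c⟩ := t
  have hij : i = j := by
    by_contra hne
    have h1 := congrFun h i
    simp only [step, Pi.single_eq_same, Pi.single_eq_of_ne hne] at h1
    cases b <;> simp at h1
  subst hij
  have h1 := congrFun h i
  simp only [step, Pi.single_eq_same] at h1
  cases b <;> cases c <;> simp_all

lemma Ineq_tau_le {p : ℝ} (h0 : 0 ≤ p) (h1 : p ≤ 1) (y : V d) : tau d p y ≤ T3 d p y := by
  unfold T3
  calc tau d p y = tau d p 0 * tau d p (0 - 0) * tau d p (y - 0) := by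
        rw [sub_zero, sub_zero, tau_zero p h0 h1, one_mul, one_mul]
    _ ≤ ∑' b : V d, tau d p 0 * tau d p (b - 0) * tau d p (y - b) :=
        ENNReal.le_tsum (f := fun b : V d => tau d p 0 * tau d p (b - 0) * tau d p (y - b)) 0
    _ ≤ _ := ENNReal.le_tsum
        (f := fun a : V d => ∑' b : V d, tau d p a * tau d p (b - a) * tau d p (y - b)) 0

lemma Ineq_insert (v : V d) (B : Finset (V d)) [DecidableEq (V d)] (f : V d → ℝ≥0∞) :
    ∑ z ∈ insert v B, f z ≤ f v + ∑ z ∈ B, f z := by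
  by_cases h : v ∈ B
  · rw [Finset.insert_eq_of_mem h]
    exact le_add_self
  · rw [Finset.sum_insert h]

open Classical in
/-- One value `B` of the cluster. -/
lemma Ineq_B {p ρ : ℝ} (h0 : 0 < p) (h1 : p < 1) (hρ0 : 0 ≤ ρ) (hρ1 : ρ ≤ 1)
    (hfin : ∀ x : V d, ∀ᵐ ω ∂(perc d p), (cluster ω x).Finite)
    (v : V d) (s s1 s2 : Dir d) (B : Finset (V d)) (r : ℝ≥0∞) :
    Mz d p ρ ^ 2 * (if v + step s ∈ B then r else 0) ≤
      (if v + step s ∈ B ∧ v + step s1 ∉ B ∧ v + step s2 ∉ B then r else 0) *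
        QQ p ρ (insert v B) (v + step s1) (v + step s2) +
      Mz d p ρ ^ 2 * ((if v + step s ∈ B then r else 0) *
        (tau d p (step s1) + tau d p (step s2) + T3 d p (step s2 - step s1)) +
        ((if v + step s ∈ B then r else 0) * ∑ z ∈ B, tau d p (z - (v + step s1)) +
        (if v + step s ∈ B then r else 0) * ∑ z ∈ B, tau d p (z - (v + step s2)))) := by
  by_cases hB : v + step s ∈ B
  swap
  · simp [hB]
  simp only [hB, if_true, true_and]
  have hone : ∀ t : Dir d, v + step t ∈ B → 1 ≤ ∑ z ∈ B, tau d p (z - (v + step t)) := by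
    intro t ht
    calc (1 : ℝ≥0∞) = tau d p ((v + step t) - (v + step t)) := by
          rw [sub_self, tau_zero p h0.le h1.le]
      _ ≤ _ := Finset.single_le_sum (f := fun z => tau d p (z - (v + step t)))
          (fun _ _ => zero_le) ht
  by_cases hy1 : v + step s1 ∈ B
  · refine le_add_left (mul_le_mul_right ?_ _)
    refine le_add_left (le_add_right ?_)
    calc r = r * 1 := (mul_one r).symm
      _ ≤ _ := mul_le_mul_right (hone s1 hy1) _
  by_cases hy2 : v + step s2 ∈ B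
  · refine le_add_left (mul_le_mul_right ?_ _)
    refine le_add_left (le_add_left ?_)
    calc r = r * 1 := (mul_one r).symm
      _ ≤ _ := mul_le_mul_right (hone s2 hy2) _
  simp only [hy1, hy2, not_false_eq_true, and_self, if_true]
  have hne : ∀ t : Dir d, v + step t ∉ B → v + step t ∉ insert v B := by
    intro t ht h
    rcases Finset.mem_insert.1 h with h | h
    · exact step_ne_zero t (by simpa using h)
    · exact ht h
  have hq := q_low h0.le h1.le hρ0 hρ1 hfin (insert v B) (v + step s1) (v + step s2)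
    (hne s1 hy1) (hne s2 hy2)
  have hsum : (∑ z ∈ insert v B, (tau d p (z - (v + step s1)) + tau d p (z - (v + step s2)))) ≤
      (tau d p (step s1) + tau d p (step s2)) + (∑ z ∈ B, tau d p (z - (v + step s1)) +
        ∑ z ∈ B, tau d p (z - (v + step s2))) := by
    refine (Ineq_insert v B _).trans ?_
    have e : ∀ t : Dir d, tau d p (v - (v + step t)) = tau d p (step t) := by
      intro t
      rw [← tau_neg p h0.le h1.le (step t)]
      congr 1
      abel
    rw [e, e, Finset.sum_add_distrib]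
  have hst : v + step s2 - (v + step s1) = step s2 - step s1 := by abel
  rw [hst] at hq
  calc Mz d p ρ ^ 2 * r
      ≤ (QQ p ρ (insert v B) (v + step s1) (v + step s2) + Mz d p ρ ^ 2 *
      ((∑ z ∈ insert v B, (tau d p (z - (v + step s1)) + tau d p (z - (v + step s2)))) +
        T3 d p (step s2 - step s1))) * r := mul_le_mul_left hq _
    _ ≤ (QQ p ρ (insert v B) (v + step s1) (v + step s2) + Mz d p ρ ^ 2 *
      (((tau d p (step s1) + tau d p (step s2)) + (∑ z ∈ B, tau d p (z - (v + step s1)) +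
        ∑ z ∈ B, tau d p (z - (v + step s2)))) + T3 d p (step s2 - step s1))) * r := by
        refine mul_le_mul_left (add_le_add le_rfl (mul_le_mul_right ?_ _)) _
        exact add_le_add hsum le_rfl
    _ = _ := by ring

open Classical in
/-- A sum over the cluster. -/
lemma Ineq_Wz (p ρ : ℝ) (S : Finset (V d)) (w : V d) (g : V d → ℝ≥0∞) :
    ∑' z : V d, W p ρ S w z * g z = ∑' B : Finset (V d), CF.cl p S 0 B *
      ((if w ∈ B then ENNReal.ofReal (ρ ^ B.card) else 0) * ∑ z ∈ B, g z) := by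
  unfold W
  simp_rw [← ENNReal.tsum_mul_right]
  rw [ENNReal.tsum_comm]
  refine tsum_congr fun B => ?_
  rw [tsum_eq_sum (s := B)]
  · rw [Finset.mul_sum, Finset.mul_sum]
    refine Finset.sum_congr rfl fun z hz => ?_
    simp only [hz, and_true]
    ring
  · intro z hz
    simp [hz]

open Classical in
lemma Ineq_W (p ρ : ℝ) (S : Finset (V d)) (w : V d) :
    W p ρ S w w = ∑' B : Finset (V d), CF.cl p S 0 B *
      (if w ∈ B then ENNReal.ofReal (ρ ^ B.card) else 0) := by
  unfold W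
  refine tsum_congr fun B => ?_
  simp only [and_self]

open Classical in
/-- The sum over the clusters off `v`. -/
lemma Ineq_v {p ρ : ℝ} (h0 : 0 < p) (h1 : p < 1) (hρ0 : 0 ≤ ρ) (hρ1 : ρ ≤ 1)
    (hfin : ∀ x : V d, ∀ᵐ ω ∂(perc d p), (cluster ω x).Finite)
    (v : V d) (s s1 s2 : Dir d) :
    Mz d p ρ ^ 2 * W p ρ {v} (v + step s) (v + step s) ≤
      ∑' B : Finset (V d), CF.cl p {v} 0 B *
        ((if v + step s ∈ B ∧ v + step s1 ∉ B ∧ v + step s2 ∉ B then
          ENNReal.ofReal (ρ ^ B.card) else 0) *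
          QQ p ρ (insert v B) (v + step s1) (v + step s2)) +
      Mz d p ρ ^ 2 * (W p ρ {v} (v + step s) (v + step s) *
        (tau d p (step s1) + tau d p (step s2) + T3 d p (step s2 - step s1)) +
        (∑' z : V d, W p ρ {v} (v + step s) z * tau d p (z - (v + step s1)) +
         ∑' z : V d, W p ρ {v} (v + step s) z * tau d p (z - (v + step s2)))) := by
  rw [Ineq_Wz p ρ {v} (v + step s) fun z => tau d p (z - (v + step s1)),
    Ineq_Wz p ρ {v} (v + step s) fun z => tau d p (z - (v + step s2)), Ineq_W,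
    ← ENNReal.tsum_mul_right, ← ENNReal.tsum_add, ← ENNReal.tsum_add, ← ENNReal.tsum_mul_left,
    ← ENNReal.tsum_mul_left, ← ENNReal.tsum_add]
  refine ENNReal.tsum_le_tsum fun B => ?_
  have h := Ineq_B h0 h1 hρ0 hρ1 hfin v s s1 s2 B (ENNReal.ofReal (ρ ^ B.card))
  calc Mz d p ρ ^ 2 * (CF.cl p {v} 0 B *
        (if v + step s ∈ B then ENNReal.ofReal (ρ ^ B.card) else 0))
      = CF.cl p {v} 0 B * (Mz d p ρ ^ 2 *
        (if v + step s ∈ B then ENNReal.ofReal (ρ ^ B.card) else 0)) := by ring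
    _ ≤ CF.cl p {v} 0 B * _ := mul_le_mul_right h _
    _ = _ := by ring

/-- The error terms for one neighbour. -/
lemma Ineq_err {p ρ : ℝ} (h0 : 0 < p) (h1 : p < 1) (hρ0 : 0 ≤ ρ) (hρ1 : ρ ≤ 1)
    (hfin : ∀ x : V d, ∀ᵐ ω ∂(perc d p), (cluster ω x).Finite) (s t : Dir d) :
    ∑' v : V d, (if v = 0 then 0 else
      ∑' z : V d, W p ρ {v} (v + step s) z * tau d p (z - (v + step t))) ≤
      ENNReal.ofReal (1 / (1 - p) ^ (2 * d)) * M1 d p ρ * T3 d p (step t - step s) := by
  set K := ENNReal.ofReal (1 / (1 - p) ^ (2 * d)) with hK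
  have hpos : 0 < (1 - p) ^ (2 * d) := pow_pos (by linarith) _
  have hK1 : K * ENNReal.ofReal ((1 - p) ^ (2 * d)) = 1 := by
    rw [hK, ← ENNReal.ofReal_mul (by positivity), one_div, inv_mul_cancel₀ hpos.ne',
      ENNReal.ofReal_one]
  have hW : ∀ v : V d, v ≠ 0 → ∀ z : V d, W p ρ {v} (v + step s) z ≤ K *
      ∑' a : V d, W p ρ ∅ a a * (tau d p (v + step s - a) * tau d p (z - a)) := by
    intro v hv z
    calc W p ρ {v} (v + step s) z
        = K * (W p ρ {v} (v + step s) z * ENNReal.ofReal ((1 - p) ^ (2 * d))) := by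
          rw [mul_comm (W p ρ {v} (v + step s) z), ← mul_assoc, hK1, one_mul]
      _ ≤ K * W p ρ ∅ (v + step s) z := mul_le_mul_right (w_star h0.le h1.le hv _ _) _
      _ ≤ _ := mul_le_mul_right (w_tree h0.le h1.le hρ0 hρ1 (hfin 0) _ _) _
  calc ∑' v : V d, (if v = 0 then 0 else
      ∑' z : V d, W p ρ {v} (v + step s) z * tau d p (z - (v + step t)))
      ≤ ∑' v : V d, ∑' z : V d, K * ((∑' a : V d, W p ρ ∅ a a *
        (tau d p (v + step s - a) * tau d p (z - a))) * tau d p (z - (v + step t))) := by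
        refine ENNReal.tsum_le_tsum fun v => ?_
        split_ifs with hv
        · exact zero_le
        · refine ENNReal.tsum_le_tsum fun z => ?_
          rw [← mul_assoc]
          exact mul_le_mul_left (hW v hv z) _
    _ = K * ∑' v : V d, ∑' z : V d, ((∑' a : V d, W p ρ ∅ a a *
        (tau d p (v + step s - a) * tau d p (z - a))) * tau d p (z - (v + step t))) := by
        simp_rw [ENNReal.tsum_mul_left]
    _ = K * ∑' u : V d, ∑' z : V d, ((∑' a : V d, W p ρ ∅ a a *
        (tau d p (u - a) * tau d p (z - a))) * tau d p (z - (u + (step t - step s)))) := by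
        congr 1
        rw [← (Equiv.addRight (step s : V d)).tsum_eq fun u : V d => ∑' z : V d,
          ((∑' a : V d, W p ρ ∅ a a *
          (tau d p (u - a) * tau d p (z - a))) * tau d p (z - (u + (step t - step s))))]
        refine tsum_congr fun v => tsum_congr fun z => ?_
        have e : z - (v + step t) = z - (v + step s + (step t - step s)) := by abel
        simp only [Equiv.coe_addRight]
        rw [e]
    _ = K * (M1 d p ρ * T3 d p (step t - step s)) := by
        rw [sum_tri h0.le h1.le (fun a : V d => W p ρ ∅ a a) (step t - step s)]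
        rfl
    _ = _ := by rw [mul_assoc]

open Classical in
/-- The main term. -/
lemma Ineq_main {p ρ : ℝ} (h0 : 0 < p) (h1 : p < 1) (hρ0 : 0 ≤ ρ) (hρ1 : ρ ≤ 1)
    {s s1 s2 : Dir d} (hs1 : s ≠ s1) (hs2 : s ≠ s2) (hs12 : s1 ≠ s2) :
    ∑' v : V d, ∑' B : Finset (V d), CF.cl p {v} 0 B *
        ((if v + step s ∈ B ∧ v + step s1 ∉ B ∧ v + step s2 ∉ B then
          ENNReal.ofReal (ρ ^ B.card) else 0) *
          QQ p ρ (insert v B) (v + step s1) (v + step s2)) ≤
      ENNReal.ofReal (1 / p ^ 3) * Mz d p ρ := by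
  have hK1 : ENNReal.ofReal (1 / p ^ 3) * ENNReal.ofReal p ^ 3 = 1 := by
    rw [← ENNReal.ofReal_pow h0.le, ← ENNReal.ofReal_mul (by positivity), one_div,
      inv_mul_cancel₀ (by positivity), ENNReal.ofReal_one]
  calc ∑' v : V d, ∑' B : Finset (V d), CF.cl p {v} 0 B *
        ((if v + step s ∈ B ∧ v + step s1 ∉ B ∧ v + step s2 ∉ B then
          ENNReal.ofReal (ρ ^ B.card) else 0) *
          QQ p ρ (insert v B) (v + step s1) (v + step s2))
      = ∑' v : V d, ENNReal.ofReal (1 / p ^ 3) * (ENNReal.ofReal p ^ 3 *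
        ∑' B : Finset (V d), CF.cl p {v} 0 B *
        ((if v + step s ∈ B ∧ v + step s1 ∉ B ∧ v + step s2 ∉ B then
          ENNReal.ofReal (ρ ^ B.card) else 0) *
          QQ p ρ (insert v B) (v + step s1) (v + step s2))) := by
        refine tsum_congr fun v => ?_
        rw [← mul_assoc, hK1, one_mul]
    _ ≤ ∑' v : V d, ENNReal.ofReal (1 / p ^ 3) * mu d p ρ (FF v s s1 s2) :=
        ENNReal.tsum_le_tsum fun v => mul_le_mul_right
          (expl h0.le h1.le hρ0 hρ1 v hs1 hs2 hs12) _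
    _ = ENNReal.ofReal (1 / p ^ 3) * ∑' v : V d, mu d p ρ (FF v s s1 s2) := by
        rw [ENNReal.tsum_mul_left]
    _ ≤ _ := mul_le_mul_right (ff_sum p ρ s s1 s2) _

/-- The inequality for three different directions. -/
theorem ineq_one {p ρ : ℝ} (h0 : 0 < p) (h1 : p < 1) (hρ0 : 0 ≤ ρ) (hρ1 : ρ ≤ 1)
    (hfin : ∀ x : V d, ∀ᵐ ω ∂(perc d p), (cluster ω x).Finite)
    {s s1 s2 : Dir d} (hs1 : s ≠ s1) (hs2 : s ≠ s2) (hs12 : s1 ≠ s2) :
    Mz d p ρ ^ 2 * XS d p ρ s ≤ ENNReal.ofReal (1 / p ^ 3) * Mz d p ρ +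
      Mz d p ρ ^ 2 * (ENNReal.ofReal (1 / (1 - p) ^ (2 * d)) * M1 d p ρ *
        (T3 d p (step s1 - step s) + T3 d p (step s2 - step s)) +
        (tau d p (step s1) + tau d p (step s2) + T3 d p (step s2 - step s1)) * XS d p ρ s) := by
  classical
  set q : V d → ℝ≥0∞ := fun v => ∑' B : Finset (V d), CF.cl p {v} 0 B *
        ((if v + step s ∈ B ∧ v + step s1 ∉ B ∧ v + step s2 ∉ B then
          ENNReal.ofReal (ρ ^ B.card) else 0) *
          QQ p ρ (insert v B) (v + step s1) (v + step s2)) with hq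
  set w : V d → ℝ≥0∞ := fun v => if v = 0 then 0 else W p ρ {v} (v + step s) (v + step s)
    with hw
  set g : Dir d → V d → ℝ≥0∞ := fun t v => if v = 0 then 0 else
      ∑' z : V d, W p ρ {v} (v + step s) z * tau d p (z - (v + step t)) with hg
  set κ := tau d p (step s1) + tau d p (step s2) + T3 d p (step s2 - step s1) with hκ
  have hX : XS d p ρ s = ∑' v : V d, w v := by
    unfold XS
    refine tsum_congr fun v => ?_
    simp only [hw]
  have key : ∀ v : V d, Mz d p ρ ^ 2 * w v ≤ q v + Mz d p ρ ^ 2 * (w v * κ +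
      (g s1 v + g s2 v)) := by
    intro v
    by_cases hv : v = 0
    · simp only [hw, hv, if_true, mul_zero]
      exact zero_le
    · simp only [hw, hg, hv, if_false]
      exact Ineq_v h0 h1 hρ0 hρ1 hfin v s s1 s2
  calc Mz d p ρ ^ 2 * XS d p ρ s = ∑' v : V d, Mz d p ρ ^ 2 * w v := by
        rw [hX, ENNReal.tsum_mul_left]
    _ ≤ ∑' v : V d, (q v + Mz d p ρ ^ 2 * (w v * κ + (g s1 v + g s2 v))) :=
        ENNReal.tsum_le_tsum key
    _ = ∑' v : V d, q v + Mz d p ρ ^ 2 * ((∑' v : V d, w v) * κ +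
        (∑' v : V d, g s1 v + ∑' v : V d, g s2 v)) := by
        rw [ENNReal.tsum_add, ENNReal.tsum_mul_left, ENNReal.tsum_add, ENNReal.tsum_mul_right,
          ENNReal.tsum_add]
    _ ≤ ENNReal.ofReal (1 / p ^ 3) * Mz d p ρ + Mz d p ρ ^ 2 * ((∑' v : V d, w v) * κ +
        (ENNReal.ofReal (1 / (1 - p) ^ (2 * d)) * M1 d p ρ * T3 d p (step s1 - step s) +
        ENNReal.ofReal (1 / (1 - p) ^ (2 * d)) * M1 d p ρ * T3 d p (step s2 - step s))) := by
        refine add_le_add (Ineq_main h0 h1 hρ0 hρ1 hs1 hs2 hs12) (mul_le_mul_right ?_ _)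
        refine add_le_add le_rfl (add_le_add ?_ ?_)
        · exact Ineq_err h0 h1 hρ0 hρ1 hfin s s1
        · exact Ineq_err h0 h1 hρ0 hρ1 hfin s s2
    _ = _ := by
        rw [hX]
        ring

lemma Ineq_exp4 : Real.exp 4 < 64 := by
  have h := Real.exp_one_lt_d9
  have h2 : Real.exp 4 = Real.exp 1 ^ 4 := by
    rw [← Real.exp_nat_mul]
    norm_num
  rw [h2]
  calc Real.exp 1 ^ 4 < 2.7182818286 ^ 4 :=
        pow_lt_pow_left₀ h (Real.exp_pos 1).le (by norm_num)
    _ < 64 := by norm_num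

lemma Ineq_pow (hd : 2 ≤ d) {p : ℝ} (h0 : 0 < p) (hp : p ≤ 1 / d) :
    1 / (1 - p) ^ (2 * d) ≤ 64 := by
  have hd' : (2 : ℝ) ≤ d := by exact_mod_cast hd
  have hd0 : (0 : ℝ) < d := by linarith
  have hp2 : p ≤ 1 / 2 := hp.trans (one_div_le_one_div_of_le (by norm_num) hd')
  have hpd : p * d ≤ 1 := by
    rw [le_div_iff₀ hd0] at hp
    exact hp
  have h2 : Real.exp (-(2 * p)) ≤ 1 - p := by
    rw [Real.exp_neg, inv_le_iff_one_le_mul₀ (Real.exp_pos _)]
    have h3 := Real.quadratic_le_exp_of_nonneg (x := 2 * p) (by linarith)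
    nlinarith [mul_le_mul_of_nonneg_left h3 (show 0 ≤ 1 - p by linarith), mul_pos h0 h0]
  have h4 : (1 / 64 : ℝ) ≤ (1 - p) ^ (2 * d) := by
    calc (1 / 64 : ℝ) ≤ Real.exp (-4) := by
          rw [Real.exp_neg, one_div]
          exact inv_anti₀ (Real.exp_pos _) Ineq_exp4.le
      _ ≤ Real.exp ((2 * d : ℕ) * (-(2 * p))) := by
          refine Real.exp_le_exp.2 ?_
          push_cast
          nlinarith
      _ = Real.exp (-(2 * p)) ^ (2 * d) := by rw [Real.exp_nat_mul]
      _ ≤ (1 - p) ^ (2 * d) := pow_le_pow_left₀ (Real.exp_pos _).le h2 _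
  rw [div_le_iff₀ (by linarith)]
  linarith

open Classical in
lemma Ineq_M1_le {p ρ : ℝ} (h0 : 0 ≤ p) (h1 : p ≤ 1) (hρ0 : 0 ≤ ρ) (hρ1 : ρ ≤ 1) :
    M1 d p ρ ≤ chi d p := by
  unfold M1 chi
  refine ENNReal.tsum_le_tsum fun a => ?_
  have h := sum_cl_mem_le p ∅ 0 a
  rw [off_empty h0 h1, sub_zero] at h
  refine le_trans ?_ h
  unfold W
  refine ENNReal.tsum_le_tsum fun B => mul_le_mul_right ?_ _
  simp only [and_self]
  split_ifs
  · rw [ENNReal.ofReal_le_one]
    exact pow_le_one₀ hρ0 hρ1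
  · exact le_rfl

lemma Ineq_XS_le {p ρ : ℝ} (h0 : 0 < p) (h1 : p < 1) (s : Dir d) :
    XS d p ρ s ≤ ENNReal.ofReal (1 / (1 - p) ^ (2 * d)) * M1 d p ρ := by
  classical
  have hpos : 0 < (1 - p) ^ (2 * d) := pow_pos (by linarith) _
  have hK1 : ENNReal.ofReal (1 / (1 - p) ^ (2 * d)) * ENNReal.ofReal ((1 - p) ^ (2 * d)) = 1 := by
    rw [← ENNReal.ofReal_mul (by positivity), one_div, inv_mul_cancel₀ hpos.ne',
      ENNReal.ofReal_one]
  calc XS d p ρ s ≤ ∑' v : V d, ENNReal.ofReal (1 / (1 - p) ^ (2 * d)) *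
        W p ρ ∅ (v + step s) (v + step s) := by
        unfold XS
        refine ENNReal.tsum_le_tsum fun v => ?_
        split_ifs with hv
        · exact zero_le
        · calc W p ρ {v} (v + step s) (v + step s)
              = ENNReal.ofReal (1 / (1 - p) ^ (2 * d)) * (W p ρ {v} (v + step s) (v + step s) *
                ENNReal.ofReal ((1 - p) ^ (2 * d))) := by
                rw [mul_comm (W p ρ {v} (v + step s) (v + step s)), ← mul_assoc, hK1, one_mul]
            _ ≤ _ := mul_le_mul_right (w_star h0.le h1.le hv _ _) _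
    _ = ENNReal.ofReal (1 / (1 - p) ^ (2 * d)) * ∑' v : V d, W p ρ ∅ (v + step s) (v + step s) := by
        rw [ENNReal.tsum_mul_left]
    _ = _ := by
        congr 1
        exact (Equiv.addRight (step s : V d)).tsum_eq fun u : V d => W p ρ ∅ u u

lemma Ineq_arith {M X N : ℝ≥0∞} (hM0 : M ≠ 0) (hM1 : M ≤ 1) (hX : X ≠ ⊤) (hN : N ≠ ⊤)
    {D P : ℝ} (hD : 0 < D) (hP : 0 ≤ P)
    (h1 : M ^ 2 * X ≤ ENNReal.ofReal (D * P) * M + M ^ 2 * (ENNReal.ofReal (128 / 2000) *
      (ENNReal.ofReal D * N) + ENNReal.ofReal (3 / 2000) * X))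
    (h2 : ENNReal.ofReal D * N ≤ ENNReal.ofReal 3 * X + ENNReal.ofReal D) :
    M * N ≤ ENNReal.ofReal (2 + 12 * P) := by
  have hMt : M ≠ ⊤ := ne_top_of_le_ne_top ENNReal.one_ne_top hM1
  obtain ⟨m, hm0, rfl⟩ : ∃ m : ℝ, 0 ≤ m ∧ M = ENNReal.ofReal m :=
    ⟨M.toReal, ENNReal.toReal_nonneg, (ENNReal.ofReal_toReal hMt).symm⟩
  obtain ⟨x, hx0, rfl⟩ : ∃ x : ℝ, 0 ≤ x ∧ X = ENNReal.ofReal x :=
    ⟨X.toReal, ENNReal.toReal_nonneg, (ENNReal.ofReal_toReal hX).symm⟩
  obtain ⟨n, hn0, rfl⟩ : ∃ n : ℝ, 0 ≤ n ∧ N = ENNReal.ofReal n :=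
    ⟨N.toReal, ENNReal.toReal_nonneg, (ENNReal.ofReal_toReal hN).symm⟩
  have hm : 0 < m := by
    rcases hm0.lt_or_eq with h | h
    · exact h
    · exact absurd (by rw [← h, ENNReal.ofReal_zero]) hM0
  have hm1 : m ≤ 1 := ENNReal.ofReal_le_one.1 hM1
  have e1 : m ^ 2 * x ≤ D * P * m + m ^ 2 * (128 / 2000 * (D * n) + 3 / 2000 * x) := by
    rw [← ENNReal.ofReal_le_ofReal_iff (by positivity), ENNReal.ofReal_mul (by positivity),
      ENNReal.ofReal_add (by positivity) (by positivity),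
      ENNReal.ofReal_mul (p := D * P) (by positivity),
      ENNReal.ofReal_mul (p := m ^ 2) (by positivity), ENNReal.ofReal_pow hm0,
      ENNReal.ofReal_add (by positivity) (by positivity),
      ENNReal.ofReal_mul (p := 128 / 2000) (by norm_num), ENNReal.ofReal_mul (p := D) (q := n) hD.le,
      ENNReal.ofReal_mul (p := 3 / 2000) (by norm_num)]
    exact h1
  have e2 : D * n ≤ 3 * x + D := by
    rw [← ENNReal.ofReal_le_ofReal_iff (by positivity), ENNReal.ofReal_mul (by positivity),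
      ENNReal.ofReal_add (by positivity) (by positivity), ENNReal.ofReal_mul (p := 3) (by norm_num)]
    exact h2
  rw [← ENNReal.ofReal_mul hm0]
  refine ENNReal.ofReal_le_ofReal ?_
  have e3 : m * x ≤ D * P + (128 / 2000 * (D * (m * n)) + 3 / 2000 * (m * x)) := by
    refine le_of_mul_le_mul_left ?_ hm
    calc m * (m * x) = m ^ 2 * x := by ring
      _ ≤ _ := e1
      _ = _ := by ring
  have e4 : D * (m * n) ≤ 3 * (m * x) + D := by
    calc D * (m * n) = m * (D * n) := by ring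
      _ ≤ m * (3 * x + D) := mul_le_mul_of_nonneg_left e2 hm0
      _ = 3 * (m * x) + D * m := by ring
      _ ≤ 3 * (m * x) + D * 1 := by gcongr
      _ = _ := by ring
  have e5 : 0 ≤ D * P := by positivity
  have e6 : D * (m * n) ≤ D * (2 + 12 * P) := by
    have : D * (2 + 12 * P) = 2 * D + 12 * (D * P) := by ring
    rw [this]
    linarith
  exact le_of_mul_le_mul_left e6 hD

/-- The inequality of Barsky and Aizenman. -/
theorem ineq_main (hd : 2 ≤ d) {p ρ : ℝ} (h0 : 0 < p) (hp : p ≤ 1 / d) (hρ0 : 0 ≤ ρ) (hρ1 : ρ < 1)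
    (hfin : ∀ x : V d, ∀ᵐ ω ∂(perc d p), (cluster ω x).Finite) (hchi : chi d p ≠ ⊤)
    (hT : ∀ y : V d, y ≠ 0 → T3 d p y ≤ ENNReal.ofReal (1 / 2000)) :
    Mz d p ρ * M1 d p ρ ≤ ENNReal.ofReal (2 + 12 / p ^ 3) := by
  classical
  have hd' : (2 : ℝ) ≤ d := by exact_mod_cast hd
  have hd0 : (0 : ℝ) < d := by linarith
  have hp2 : p ≤ 1 / 2 := hp.trans (one_div_le_one_div_of_le (by norm_num) hd')
  have hpd : p * d ≤ 1 := by
    rw [le_div_iff₀ hd0] at hp
    exact hp
  have h1 : p < 1 := by linarith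
  have hK : ENNReal.ofReal (1 / (1 - p) ^ (2 * d)) ≤ ENNReal.ofReal 64 :=
    ENNReal.ofReal_le_ofReal (Ineq_pow hd h0 hp)
  set M := Mz d p ρ with hM
  set N := M1 d p ρ with hN
  set X := ∑ s : Dir d, XS d p ρ s with hX
  have hM0 : M ≠ 0 := by
    have h := Mz_ge (d := d) h0.le h1.le hρ0 hρ1.le
    have h2 : 0 < ENNReal.ofReal (1 - ρ) := ENNReal.ofReal_pos.2 (by linarith)
    exact (lt_of_lt_of_le h2 h).ne'
  have hM1 : M ≤ 1 := Mz_le_one h0.le h1.le hρ0 hρ1.le
  have hNt : N ≠ ⊤ := ne_top_of_le_ne_top hchi (Ineq_M1_le h0.le h1.le hρ0 hρ1.le)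
  have hXt : X ≠ ⊤ := by
    rw [hX]
    refine ENNReal.sum_ne_top.2 fun s _ => ne_top_of_le_ne_top ?_ (Ineq_XS_le h0 h1 s)
    exact ENNReal.mul_ne_top ENNReal.ofReal_ne_top hNt
  have hδ : ENNReal.ofReal (1 / 2000) + ENNReal.ofReal (1 / 2000) = ENNReal.ofReal (2 / 2000) := by
    rw [← ENNReal.ofReal_add (by norm_num) (by norm_num)]
    norm_num
  have hδ3 : ENNReal.ofReal (1 / 2000) + ENNReal.ofReal (1 / 2000) + ENNReal.ofReal (1 / 2000) =
      ENNReal.ofReal (3 / 2000) := by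
    rw [hδ, ← ENNReal.ofReal_add (by norm_num) (by norm_num)]
    norm_num
  have htau : ∀ s : Dir d, tau d p (step s) ≤ ENNReal.ofReal (1 / 2000) := fun s =>
    (Ineq_tau_le h0.le h1.le _).trans (hT _ (step_ne_zero s))
  have hTT : ∀ s t : Dir d, s ≠ t → T3 d p (step t - step s) ≤ ENNReal.ofReal (1 / 2000) := by
    intro s t hst
    refine hT _ fun h => hst ?_
    exact (Ineq_step_inj (sub_eq_zero.1 h)).symm
  have hone : ∀ s : Dir d, M ^ 2 * XS d p ρ s ≤ ENNReal.ofReal (1 / p ^ 3) * M +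
      M ^ 2 * (ENNReal.ofReal (128 / 2000) * N + ENNReal.ofReal (3 / 2000) * XS d p ρ s) := by
    intro s
    obtain ⟨j, hj⟩ : ∃ j : Fin d, j ≠ s.1 := by
      have : Nontrivial (Fin d) := Fin.nontrivial_iff_two_le.2 hd
      exact exists_ne s.1
    have hs1 : s ≠ opp s := by
      intro h
      have h3 := congrArg Prod.snd h
      simp [opp] at h3
    have hs2 : s ≠ (j, true) := by
      intro h
      exact hj (congrArg Prod.fst h).symm
    have hs12 : opp s ≠ (j, true) := by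
      intro h
      exact hj (congrArg Prod.fst h).symm
    refine (ineq_one h0 h1 hρ0 hρ1.le hfin hs1 hs2 hs12).trans ?_
    refine add_le_add le_rfl (mul_le_mul_right (add_le_add ?_ ?_) _)
    · calc ENNReal.ofReal (1 / (1 - p) ^ (2 * d)) * M1 d p ρ *
            (T3 d p (step (opp s) - step s) + T3 d p (step (j, true) - step s))
          ≤ ENNReal.ofReal 64 * M1 d p ρ *
            (ENNReal.ofReal (1 / 2000) + ENNReal.ofReal (1 / 2000)) :=
            mul_le_mul' (mul_le_mul' hK le_rfl) (add_le_add (hTT _ _ hs1) (hTT _ _ hs2))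
        _ = ENNReal.ofReal (128 / 2000) * N := by
            rw [hδ, mul_right_comm, ← ENNReal.ofReal_mul (by norm_num),
              show (64 : ℝ) * (2 / 2000) = 128 / 2000 by norm_num]
    · refine mul_le_mul_left ?_ _
      rw [← hδ3]
      exact add_le_add (add_le_add (htau _) (htau _)) (hTT _ _ hs12)
  have hcard : ∀ c : ℝ≥0∞, ∑ _s : Dir d, c = ENNReal.ofReal (2 * d) * c := by
    intro c
    rw [Finset.sum_const, nsmul_eq_mul]
    congr 1
    rw [Finset.card_univ, ENNReal.ofReal_mul (by norm_num)]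
    simp [mul_comm]
  have hsum : M ^ 2 * X ≤ ENNReal.ofReal ((2 * d) * (1 / p ^ 3)) * M + M ^ 2 *
      (ENNReal.ofReal (128 / 2000) * (ENNReal.ofReal (2 * d) * N) +
        ENNReal.ofReal (3 / 2000) * X) := by
    calc M ^ 2 * X = ∑ s : Dir d, M ^ 2 * XS d p ρ s := by rw [hX, Finset.mul_sum]
      _ ≤ ∑ s : Dir d, (ENNReal.ofReal (1 / p ^ 3) * M + M ^ 2 *
          (ENNReal.ofReal (128 / 2000) * N + ENNReal.ofReal (3 / 2000) * XS d p ρ s)) :=
          Finset.sum_le_sum fun s _ => hone s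
      _ = _ := by
          rw [Finset.sum_add_distrib, hcard, ← Finset.mul_sum, Finset.sum_add_distrib, hcard,
            ← Finset.mul_sum, ← hX, ENNReal.ofReal_mul (p := 2 * (d : ℝ)) (by positivity)]
          ring
  have hrel : ENNReal.ofReal (2 * d) * N ≤ ENNReal.ofReal 3 * X + ENNReal.ofReal (2 * d) := by
    have h := x_rel (d := d) h0.le h1.le hρ0 hρ1.le (hfin 0)
    have e1 : (2 * (d : ℝ≥0∞)) = ENNReal.ofReal (2 * d) := by
      rw [ENNReal.ofReal_mul (by norm_num)]
      simp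
    rw [e1] at h
    refine h.trans (add_le_add (mul_le_mul_left ?_ _) le_rfl)
    rw [← ENNReal.ofReal_mul (by positivity), ← ENNReal.ofReal_one,
      ← ENNReal.ofReal_add (by norm_num) (by positivity)]
    refine ENNReal.ofReal_le_ofReal ?_
    nlinarith
  have h := Ineq_arith hM0 hM1 hXt hNt (D := 2 * d) (P := 1 / p ^ 3) (by positivity)
    (by positivity) hsum hrel
  rw [mul_one_div] at h
  exact h

end SH
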