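import Mathlib

/-!
PROJECT LE (MP_0d9ad5_pr), block SH, Barsky-Aizenman. From `M M' ≤ C` to `M ≤ K sqrt h`.
-/

namespace SH

/-- One doubling step. -/
theorem Iter_step (f g : ℝ → ℝ) (C0 : ℝ) (hC : 0 ≤ C0) (hf : ∀ h, 0 < h → 0 < f h)
    (h2 : ∀ h, 0 < h → f (2 * h) ≤ f h + h * g h) (h3 : ∀ h, 0 < h → f (2 * h) ≤ 2 * f h)
    (hfg : ∀ h, 0 < h → f h * g h ≤ C0) (h : ℝ) (hh : 0 < h)
    (hK : f h ≤ 3 * (C0 + 1) * Real.sqrt h) :
    f (2 * h) ≤ 3 * (C0 + 1) * Real.sqrt (2 * h) := by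
  have hs : 0 < Real.sqrt h := Real.sqrt_pos.mpr hh
  have hss : Real.sqrt h * Real.sqrt h = h := Real.mul_self_sqrt hh.le
  have ht : Real.sqrt (2 * h) = Real.sqrt 2 * Real.sqrt h :=
    Real.sqrt_mul (by norm_num) h
  have hr2 : Real.sqrt 2 * Real.sqrt 2 = 2 := Real.mul_self_sqrt (by norm_num)
  have hrpos : 0 < Real.sqrt 2 := Real.sqrt_pos.mpr (by norm_num)
  have hr14 : (1.4 : ℝ) ≤ Real.sqrt 2 := by
    apply Real.le_sqrt_of_sq_le
    norm_num
  have hr15 : Real.sqrt 2 ≤ 1.5 := by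
    rw [Real.sqrt_le_left (by norm_num)]
    norm_num
  rw [ht]
  set s := Real.sqrt h with hsdef
  set r := Real.sqrt 2 with hrdef
  have hfp := hf h hh
  by_cases hc : 3 * (C0 + 1) * s ≤ r * f h
  · -- large case
    have hg := hfg h hh
    -- `s * g h ≤ C0 * r / (3 (C0 + 1))`
    have hgle : 3 * (C0 + 1) * (s * g h) ≤ r * C0 := by
      by_cases hg0 : 0 ≤ g h
      · calc 3 * (C0 + 1) * (s * g h) = (3 * (C0 + 1) * s) * g h := by ring
          _ ≤ (r * f h) * g h := mul_le_mul_of_nonneg_right hc hg0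
          _ = r * (f h * g h) := by ring
          _ ≤ r * C0 := mul_le_mul_of_nonneg_left hg hrpos.le
      · have h1 : 3 * (C0 + 1) * (s * g h) ≤ 0 := by
          have : s * g h ≤ 0 := mul_nonpos_of_nonneg_of_nonpos hs.le (le_of_not_ge hg0)
          exact mul_nonpos_of_nonneg_of_nonpos (by positivity) this
        exact h1.trans (mul_nonneg hrpos.le hC)
    have hf2 := h2 h hh
    have hk1 : r * C0 ≤ 3 * (C0 + 1) * (3 * (C0 + 1) * (r - 1)) := by
      have e1 : 3 * (C0 + 1) * (3 * (C0 + 1) * 0.4) ≤ 3 * (C0 + 1) * (3 * (C0 + 1) * (r - 1)) := by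
        apply mul_le_mul_of_nonneg_left _ (by positivity)
        apply mul_le_mul_of_nonneg_left _ (by positivity)
        linarith
      have e2 : r * C0 ≤ 1.5 * C0 := mul_le_mul_of_nonneg_right hr15 hC
      nlinarith [sq_nonneg C0, hC]
    have hsg : s * g h ≤ 3 * (C0 + 1) * (r - 1) := by
      have hKpos : 0 < 3 * (C0 + 1) := by positivity
      exact le_of_mul_le_mul_left (hgle.trans hk1) hKpos
    have hhg : h * g h ≤ 3 * (C0 + 1) * (r - 1) * s := by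
      calc h * g h = s * (s * g h) := by rw [← mul_assoc, hss]
        _ ≤ s * (3 * (C0 + 1) * (r - 1)) := mul_le_mul_of_nonneg_left hsg hs.le
        _ = 3 * (C0 + 1) * (r - 1) * s := by ring
    calc f (2 * h) ≤ f h + h * g h := hf2
      _ ≤ 3 * (C0 + 1) * s + 3 * (C0 + 1) * (r - 1) * s := add_le_add hK hhg
      _ = 3 * (C0 + 1) * (r * s) := by ring
  · have hc' : r * f h ≤ 3 * (C0 + 1) * s := le_of_not_ge hc
    calc f (2 * h) ≤ 2 * f h := h3 h hh
      _ = r * (r * f h) := by rw [← mul_assoc, hr2]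
      _ ≤ r * (3 * (C0 + 1) * s) := mul_le_mul_of_nonneg_left hc' hrpos.le
      _ = 3 * (C0 + 1) * (r * s) := by ring

/-- Doubling of the argument. -/
theorem iter_dbl (f g : ℝ → ℝ) (C0 X : ℝ) (hC : 0 ≤ C0) (hf : ∀ h, 0 < h → 0 < f h)
    (h2 : ∀ h, 0 < h → f (2 * h) ≤ f h + h * g h) (h3 : ∀ h, 0 < h → f (2 * h) ≤ 2 * f h)
    (hfg : ∀ h, 0 < h → f h * g h ≤ C0) (hX : ∀ h, 0 < h → f h ≤ h * X) (h : ℝ) (hh : 0 < h) :
    f h ≤ 3 * (C0 + 1) * Real.sqrt h := by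
  -- going up from a small argument
  have up : ∀ (n : ℕ) (y : ℝ), 0 < y → f y ≤ 3 * (C0 + 1) * Real.sqrt y →
      f (2 ^ n * y) ≤ 3 * (C0 + 1) * Real.sqrt (2 ^ n * y) := by
    intro n
    induction n with
    | zero =>
      intro y _ hy2
      simpa using hy2
    | succ n ih =>
      intro y hy hy2
      have h1 := ih y hy hy2
      have h4 := Iter_step f g C0 hC hf h2 h3 hfg (2 ^ n * y) (by positivity) h1
      have e : (2 : ℝ) ^ (n + 1) * y = 2 * (2 ^ n * y) := by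
        rw [pow_succ]; ring
      rw [e]
      exact h4
  -- a small argument
  obtain ⟨n, hn⟩ : ∃ n : ℕ, h * X ^ 2 ≤ 2 ^ n := by
    obtain ⟨n, hn⟩ := pow_unbounded_of_one_lt (h * X ^ 2) (by norm_num : (1 : ℝ) < 2)
    exact ⟨n, hn.le⟩
  have hp : (0 : ℝ) < 2 ^ n := by positivity
  have hy : 0 < h / 2 ^ n := div_pos hh hp
  have hXpos : 0 ≤ X := by
    have h1 := hX h hh
    have h4 := hf h hh
    by_contra hneg
    have : h * X < 0 := mul_neg_of_pos_of_neg hh (lt_of_not_ge hneg)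
    linarith
  have hsmall : f (h / 2 ^ n) ≤ 3 * (C0 + 1) * Real.sqrt (h / 2 ^ n) := by
    have h1 := hX (h / 2 ^ n) hy
    have hs : 0 < Real.sqrt (h / 2 ^ n) := Real.sqrt_pos.mpr hy
    have hss : Real.sqrt (h / 2 ^ n) * Real.sqrt (h / 2 ^ n) = h / 2 ^ n :=
      Real.mul_self_sqrt hy.le
    have h5 : Real.sqrt (h / 2 ^ n) * X ≤ 1 := by
      have h6 : (Real.sqrt (h / 2 ^ n) * X) ^ 2 ≤ 1 ^ 2 := by
        calc (Real.sqrt (h / 2 ^ n) * X) ^ 2
            = (Real.sqrt (h / 2 ^ n) * Real.sqrt (h / 2 ^ n)) * X ^ 2 := by ring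
          _ = (h * X ^ 2) / 2 ^ n := by rw [hss]; ring
          _ ≤ 1 := by rw [div_le_one hp]; exact hn
          _ = 1 ^ 2 := by norm_num
      exact (sq_le_sq₀ (by positivity) (by norm_num)).mp h6
    calc f (h / 2 ^ n) ≤ h / 2 ^ n * X := h1
      _ = Real.sqrt (h / 2 ^ n) * (Real.sqrt (h / 2 ^ n) * X) := by rw [← mul_assoc, hss]
      _ ≤ Real.sqrt (h / 2 ^ n) * 1 := mul_le_mul_of_nonneg_left h5 hs.le
      _ ≤ 3 * (C0 + 1) * Real.sqrt (h / 2 ^ n) := by nlinarith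
  have hfin := up n (h / 2 ^ n) hy hsmall
  have e : (2 : ℝ) ^ n * (h / 2 ^ n) = h := by field_simp
  rw [e] at hfin
  exact hfin

end SH
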