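import Pool.Agent.H29.SH.Iter
import Pool.Agent.H29.SH.Gre

/-!
PROJECT LE (MP_0d9ad5_pr), block SH, Barsky-Aizenman. The tail of the cluster size.
-/

namespace SH

open H5DF H5CF H95LBD H95LBS MeasureTheory
open scoped ENNReal

variable {d : ℕ}

lemma Tail_Mz {p ρ : ℝ} (h0 : 0 ≤ p) (h1 : p ≤ 1) (hρ0 : 0 ≤ ρ) (hρ1 : ρ ≤ 1)
    (hfin : ∀ᵐ ω ∂(perc d p), (cluster ω 0).Finite) :
    Mz d p ρ = ∑' B : Finset (V d), CF.cl p ∅ 0 B * ENNReal.ofReal (1 - ρ ^ B.card) :=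
  le_antisymm (MG_le h0 h1 hρ0 hρ1 ∅ 0 hfin) (MG_ge h0 h1 hρ0 hρ1 ∅ 0)

lemma Tail_sum_card (B : Finset (V d)) (c : ℝ≥0∞) :
    (∑' a : V d, (open Classical in if a ∈ B ∧ a ∈ B then c else 0)) = (B.card : ℝ≥0∞) * c := by
  classical
  have h : (fun a : V d => (open Classical in if a ∈ B ∧ a ∈ B then c else 0)) =
      fun a : V d => if a ∈ B then c else 0 := by
    funext a
    by_cases ha : a ∈ B
    · rw [if_pos ⟨ha, ha⟩, if_pos ha]
    · rw [if_neg (fun h => ha h.1), if_neg ha]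
  rw [h, tsum_eq_sum (s := B) (fun a ha => if_neg ha)]
  rw [Finset.sum_congr rfl (fun a ha => if_pos ha), Finset.sum_const, nsmul_eq_mul]

lemma Tail_M1 (p ρ : ℝ) :
    M1 d p ρ = ∑' B : Finset (V d), CF.cl p ∅ 0 B *
      ((B.card : ℝ≥0∞) * ENNReal.ofReal (ρ ^ B.card)) := by
  unfold M1 W
  rw [ENNReal.tsum_comm]
  refine tsum_congr fun B => ?_
  rw [ENNReal.tsum_mul_left, Tail_sum_card]

lemma Tail_chi {p : ℝ} (h0 : 0 ≤ p) (h1 : p ≤ 1) :
    ∑' B : Finset (V d), CF.cl p ∅ 0 B * (B.card : ℝ≥0∞) ≤ chi d p := by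
  classical
  have h : ∑' B : Finset (V d), CF.cl p ∅ 0 B * (B.card : ℝ≥0∞) =
      ∑' a : V d, ∑' B : Finset (V d), CF.cl p ∅ 0 B * (if a ∈ B then 1 else 0) := by
    rw [ENNReal.tsum_comm]
    refine tsum_congr fun B => ?_
    rw [ENNReal.tsum_mul_left]
    congr 1
    rw [tsum_eq_sum (s := B) (fun a ha => if_neg ha),
      Finset.sum_congr rfl (fun a ha => if_pos ha), Finset.sum_const, nsmul_eq_mul, mul_one]
  rw [h]
  unfold chi
  refine ENNReal.tsum_le_tsum fun a => ?_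
  have h2 := (sum_cl_mem_le p (∅ : Finset (V d)) 0 a).trans (off_le_tau h0 h1 ∅ 0 a)
  rw [sub_zero] at h2
  refine le_trans (le_of_eq ?_) h2
  refine tsum_congr fun B => ?_
  congr 1

lemma Tail_exp_nonneg (h : ℝ) : 0 ≤ Real.exp (-h) := (Real.exp_pos _).le

lemma Tail_exp_lt {h : ℝ} (hh : 0 < h) : Real.exp (-h) < 1 := by
  rw [Real.exp_lt_one_iff]
  linarith

lemma Tail_pow (h : ℝ) (k : ℕ) : Real.exp (-h) ^ k = Real.exp (-(k * h)) := by
  rw [← Real.exp_nat_mul]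
  congr 1
  ring

/-- The magnetisation is at most `h` times the mean size. -/
lemma Tail_le_chi {p : ℝ} (h0 : 0 ≤ p) (h1 : p ≤ 1)
    (hfin : ∀ᵐ ω ∂(perc d p), (cluster ω 0).Finite) {h : ℝ} (hh : 0 < h) :
    Mz d p (Real.exp (-h)) ≤ ENNReal.ofReal h * chi d p := by
  rw [Tail_Mz h0 h1 (Tail_exp_nonneg h) (Tail_exp_lt hh).le hfin]
  refine le_trans ?_ (mul_le_mul_right (Tail_chi h0 h1) _)
  rw [← ENNReal.tsum_mul_left]
  refine ENNReal.tsum_le_tsum fun B => ?_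
  rw [mul_left_comm]
  refine mul_le_mul_right ?_ _
  rw [← ENNReal.ofReal_natCast, ← ENNReal.ofReal_mul hh.le]
  refine ENNReal.ofReal_le_ofReal ?_
  rw [Tail_pow]
  have := Real.add_one_le_exp (-((B.card : ℝ) * h))
  linarith

lemma Tail_M1_le {p : ℝ} (h0 : 0 ≤ p) (h1 : p ≤ 1) {h : ℝ} (hh : 0 < h) :
    M1 d p (Real.exp (-h)) ≤ chi d p := by
  rw [Tail_M1]
  refine le_trans ?_ (Tail_chi h0 h1)
  refine ENNReal.tsum_le_tsum fun B => ?_
  refine mul_le_mul_right ?_ _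
  have h5 : ENNReal.ofReal (Real.exp (-h) ^ B.card) ≤ 1 := by
    rw [← ENNReal.ofReal_one]
    exact ENNReal.ofReal_le_ofReal (pow_le_one₀ (Tail_exp_nonneg h) (Tail_exp_lt hh).le)
  exact (mul_le_mul_right h5 _).trans (le_of_eq (mul_one _))

lemma Tail_dbl {p : ℝ} (h0 : 0 ≤ p) (h1 : p ≤ 1)
    (hfin : ∀ᵐ ω ∂(perc d p), (cluster ω 0).Finite) {h : ℝ} (hh : 0 < h) :
    Mz d p (Real.exp (-(2 * h))) ≤ Mz d p (Real.exp (-h)) +
      ENNReal.ofReal h * M1 d p (Real.exp (-h)) := by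
  rw [Tail_Mz h0 h1 (Tail_exp_nonneg h) (Tail_exp_lt hh).le hfin,
    Tail_Mz h0 h1 (Tail_exp_nonneg (2 * h)) (Tail_exp_lt (by linarith)).le hfin, Tail_M1,
    ← ENNReal.tsum_mul_left, ← ENNReal.tsum_add]
  refine ENNReal.tsum_le_tsum fun B => ?_
  have hp : 0 ≤ Real.exp (-h) ^ B.card := by positivity
  have hle : Real.exp (-h) ^ B.card ≤ 1 := pow_le_one₀ (Tail_exp_nonneg h) (Tail_exp_lt hh).le
  rw [mul_left_comm, ← mul_add]
  refine mul_le_mul_right ?_ _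
  rw [← ENNReal.ofReal_natCast, ← ENNReal.ofReal_mul (by positivity),
    ← ENNReal.ofReal_mul hh.le, ← ENNReal.ofReal_add (by linarith) (by positivity)]
  refine ENNReal.ofReal_le_ofReal ?_
  rw [Tail_pow, Tail_pow]
  have e : Real.exp (-((B.card : ℝ) * (2 * h))) =
      Real.exp (-((B.card : ℝ) * h)) * Real.exp (-((B.card : ℝ) * h)) := by
    rw [← Real.exp_add]
    congr 1
    ring
  rw [e]
  have h3 := Real.add_one_le_exp (-((B.card : ℝ) * h))
  have h4 := Real.exp_pos (-((B.card : ℝ) * h))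
  nlinarith

lemma Tail_two {p : ℝ} (h0 : 0 ≤ p) (h1 : p ≤ 1)
    (hfin : ∀ᵐ ω ∂(perc d p), (cluster ω 0).Finite) {h : ℝ} (hh : 0 < h) :
    Mz d p (Real.exp (-(2 * h))) ≤ 2 * Mz d p (Real.exp (-h)) := by
  rw [Tail_Mz h0 h1 (Tail_exp_nonneg h) (Tail_exp_lt hh).le hfin,
    Tail_Mz h0 h1 (Tail_exp_nonneg (2 * h)) (Tail_exp_lt (by linarith)).le hfin,
    ← ENNReal.tsum_mul_left]
  refine ENNReal.tsum_le_tsum fun B => ?_
  rw [mul_left_comm]
  refine mul_le_mul_right ?_ _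
  have hle : Real.exp (-h) ^ B.card ≤ 1 := pow_le_one₀ (Tail_exp_nonneg h) (Tail_exp_lt hh).le
  rw [show (2 : ℝ≥0∞) = ENNReal.ofReal 2 by simp, ← ENNReal.ofReal_mul (by norm_num)]
  refine ENNReal.ofReal_le_ofReal ?_
  rw [Tail_pow] at hle
  rw [Tail_pow, Tail_pow]
  have e : Real.exp (-((B.card : ℝ) * (2 * h))) =
      Real.exp (-((B.card : ℝ) * h)) * Real.exp (-((B.card : ℝ) * h)) := by
    rw [← Real.exp_add]
    congr 1
    ring
  rw [e]
  have h4 := Real.exp_pos (-((B.card : ℝ) * h))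
  nlinarith

/-- The magnetisation is at most `3 (C0 + 1) sqrt h`. -/
theorem mz_sqrt {p : ℝ} (h0 : 0 ≤ p) (h1 : p ≤ 1)
    (hfin : ∀ᵐ ω ∂(perc d p), (cluster ω 0).Finite) (hchi : chi d p ≠ ⊤) (C0 : ℝ) (hC0 : 0 ≤ C0)
    (hM : ∀ ρ : ℝ, 0 ≤ ρ → ρ < 1 → Mz d p ρ * M1 d p ρ ≤ ENNReal.ofReal C0) (h : ℝ) (hh : 0 < h) :
    Mz d p (Real.exp (-h)) ≤ ENNReal.ofReal (3 * (C0 + 1) * Real.sqrt h) := by
  have hMt : ∀ h : ℝ, 0 < h → Mz d p (Real.exp (-h)) ≠ ⊤ := fun h hh =>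
    ((Mz_le_one h0 h1 (Tail_exp_nonneg h) (Tail_exp_lt hh).le).trans_lt ENNReal.one_lt_top).ne
  have hM1t : ∀ h : ℝ, 0 < h → M1 d p (Real.exp (-h)) ≠ ⊤ := fun h hh =>
    ((Tail_M1_le h0 h1 hh).trans_lt hchi.lt_top).ne
  have key := iter_dbl (fun h => (Mz d p (Real.exp (-h))).toReal)
    (fun h => (M1 d p (Real.exp (-h))).toReal) C0 (chi d p).toReal hC0
    (by
      intro h hh
      refine ENNReal.toReal_pos ?_ (hMt h hh)
      have := Mz_ge (d := d) h0 h1 (Tail_exp_nonneg h) (Tail_exp_lt hh).le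
      intro h5
      rw [h5] at this
      have h6 : ENNReal.ofReal (1 - Real.exp (-h)) = 0 := le_antisymm this bot_le
      rw [ENNReal.ofReal_eq_zero] at h6
      have := Tail_exp_lt hh
      linarith)
    (by
      intro h hh
      have h5 := ENNReal.toReal_mono
        (ENNReal.add_ne_top.2 ⟨hMt h hh, ENNReal.mul_ne_top ENNReal.ofReal_ne_top (hM1t h hh)⟩)
        (Tail_dbl h0 h1 hfin hh)
      rw [ENNReal.toReal_add (hMt h hh) (ENNReal.mul_ne_top ENNReal.ofReal_ne_top (hM1t h hh)),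
        ENNReal.toReal_mul, ENNReal.toReal_ofReal hh.le] at h5
      exact h5)
    (by
      intro h hh
      have h5 := ENNReal.toReal_mono (ENNReal.mul_ne_top ENNReal.ofNat_ne_top (hMt h hh))
        (Tail_two h0 h1 hfin hh)
      rw [ENNReal.toReal_mul] at h5
      simpa using h5)
    (by
      intro h hh
      have h5 := ENNReal.toReal_mono ENNReal.ofReal_ne_top
        (hM (Real.exp (-h)) (Tail_exp_nonneg h) (Tail_exp_lt hh))
      rw [ENNReal.toReal_mul, ENNReal.toReal_ofReal hC0] at h5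
      exact h5)
    (by
      intro h hh
      have h5 := ENNReal.toReal_mono (ENNReal.mul_ne_top ENNReal.ofReal_ne_top hchi)
        (Tail_le_chi h0 h1 hfin hh)
      rw [ENNReal.toReal_mul, ENNReal.toReal_ofReal hh.le] at h5
      exact h5) h hh
  rw [← ENNReal.ofReal_toReal (hMt h hh)]
  exact ENNReal.ofReal_le_ofReal key

/-- The tail of the cluster size. -/
theorem tail {p : ℝ} (h0 : 0 ≤ p) (h1 : p ≤ 1)
    (hfin : ∀ᵐ ω ∂(perc d p), (cluster ω 0).Finite) (hchi : chi d p ≠ ⊤) (C0 : ℝ) (hC0 : 0 ≤ C0)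
    (hM : ∀ ρ : ℝ, 0 ≤ ρ → ρ < 1 → Mz d p ρ * M1 d p ρ ≤ ENNReal.ofReal C0) (n : ℕ) (hn : 1 ≤ n) :
    ∑' B : Finset (V d), CF.cl p ∅ 0 B * (if n ≤ B.card then 1 else 0) ≤
      ENNReal.ofReal (6 * (C0 + 1) / Real.sqrt n) := by
  have hn0 : (0 : ℝ) < n := by exact_mod_cast hn
  have hh : (0 : ℝ) < 1 / n := by positivity
  have key := mz_sqrt h0 h1 hfin hchi C0 hC0 hM (1 / n) hh
  have h2 : ∑' B : Finset (V d), CF.cl p ∅ 0 B * (if n ≤ B.card then 1 else 0) ≤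
      2 * Mz d p (Real.exp (-(1 / n))) := by
    rw [Tail_Mz h0 h1 (Tail_exp_nonneg _) (Tail_exp_lt hh).le hfin, ← ENNReal.tsum_mul_left]
    refine ENNReal.tsum_le_tsum fun B => ?_
    rw [mul_left_comm]
    refine mul_le_mul_right ?_ _
    split_ifs with hB
    · rw [show (2 : ℝ≥0∞) = ENNReal.ofReal 2 by simp, ← ENNReal.ofReal_mul (by norm_num),
        ← ENNReal.ofReal_one]
      refine ENNReal.ofReal_le_ofReal ?_
      rw [Tail_pow]
      have h3 : (1 : ℝ) ≤ (B.card : ℝ) * (1 / n) := by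
        rw [mul_one_div, le_div_iff₀ hn0, one_mul]
        exact_mod_cast hB
      have h4 : Real.exp (-((B.card : ℝ) * (1 / n))) ≤ Real.exp (-1) :=
        Real.exp_le_exp.2 (by linarith)
      have h5 : Real.exp (-1) ≤ 1 / 2 := by
        rw [Real.exp_neg, ← one_div]
        refine one_div_le_one_div_of_le (by norm_num) ?_
        have := Real.add_one_le_exp (1 : ℝ)
        linarith
      linarith
    · exact zero_le
  refine h2.trans ((mul_le_mul_right key 2).trans (le_of_eq ?_))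
  rw [show (2 : ℝ≥0∞) = ENNReal.ofReal 2 by simp, ← ENNReal.ofReal_mul (by norm_num)]
  congr 1
  rw [Real.sqrt_div zero_le_one, Real.sqrt_one]
  ring

end SH
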