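import Mathlib

/-!
PROJECT LE (MP_0d9ad5_pr), block SH, Barsky-Aizenman. Numbers.
-/

namespace SH

open scoped ENNReal

/-- The sum of `1 / sqrt n`. -/
theorem ThFin_sum (M : ℕ) :
    ∑ n ∈ Finset.Ico 1 (M + 1), (1 : ℝ) / Real.sqrt n ≤ 2 * Real.sqrt M := by
  induction M with
  | zero => simp
  | succ M ih =>
    rw [Finset.sum_Ico_succ_top (by omega)]
    have hM : (0 : ℝ) ≤ (M : ℝ) := Nat.cast_nonneg M
    have hpos : 0 < Real.sqrt ((M + 1 : ℕ) : ℝ) := by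
      apply Real.sqrt_pos.2
      push_cast
      linarith
    have hsq : Real.sqrt ((M + 1 : ℕ) : ℝ) * Real.sqrt ((M + 1 : ℕ) : ℝ) = (M : ℝ) + 1 := by
      rw [Real.mul_self_sqrt (by positivity)]
      push_cast
      ring
    have hsq0 : Real.sqrt (M : ℝ) * Real.sqrt (M : ℝ) = (M : ℝ) := Real.mul_self_sqrt hM
    have h1 : (1 : ℝ) / Real.sqrt ((M + 1 : ℕ) : ℝ) ≤
        2 * Real.sqrt ((M + 1 : ℕ) : ℝ) - 2 * Real.sqrt (M : ℝ) := by
      rw [div_le_iff₀ hpos]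
      nlinarith [sq_nonneg (Real.sqrt ((M + 1 : ℕ) : ℝ) - Real.sqrt (M : ℝ))]
    linarith

/-- The sum of `K / sqrt n`. -/
theorem ThFin_sumK (K : ℝ) (hK : 0 ≤ K) (N : ℕ) :
    ∑ n ∈ Finset.Ico 1 N, K / Real.sqrt n ≤ 2 * K * Real.sqrt N := by
  rcases N with _ | M
  · simp
  · have h := ThFin_sum M
    have h2 : Real.sqrt (M : ℝ) ≤ Real.sqrt ((M + 1 : ℕ) : ℝ) := by
      apply Real.sqrt_le_sqrt
      push_cast
      linarith
    have h3 : ∑ n ∈ Finset.Ico 1 (M + 1), K / Real.sqrt (n : ℝ)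
        = K * ∑ n ∈ Finset.Ico 1 (M + 1), (1 : ℝ) / Real.sqrt (n : ℝ) := by
      rw [Finset.mul_sum]
      apply Finset.sum_congr rfl
      intro n _
      ring
    rw [h3]
    calc K * ∑ n ∈ Finset.Ico 1 (M + 1), (1 : ℝ) / Real.sqrt (n : ℝ)
        ≤ K * (2 * Real.sqrt ((M + 1 : ℕ) : ℝ)) :=
          mul_le_mul_of_nonneg_left (by linarith) hK
      _ = 2 * K * Real.sqrt ((M + 1 : ℕ) : ℝ) := by ring

/-- A number below `N` is the number of its predecessors. -/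
theorem ThFin_cnt (N c : ℕ) :
    (if N ≤ c then (0 : ℝ≥0∞) else (c : ℝ≥0∞)) ≤
      ∑ n ∈ Finset.Ico 1 N, (if n ≤ c then (1 : ℝ≥0∞) else 0) := by
  split_ifs with hc
  · exact bot_le
  · push Not at hc
    have h1 : Finset.Ico 1 (c + 1) ⊆ Finset.Ico 1 N := by
      intro n hn
      rw [Finset.mem_Ico] at hn ⊢
      omega
    have h2 : ∑ n ∈ Finset.Ico 1 (c + 1), (if n ≤ c then (1 : ℝ≥0∞) else 0) = (c : ℝ≥0∞) := by
      rw [Finset.sum_congr rfl (g := fun _ => (1 : ℝ≥0∞))]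
      · simp
      · intro n hn
        rw [Finset.mem_Ico] at hn
        rw [if_pos (by omega)]
    rw [← h2]
    exact Finset.sum_le_sum_of_subset h1

/-- The truncated mean from the tail. -/
theorem trunc_le {ι : Type*} (w : ι → ℝ≥0∞) (c : ι → ℕ) (K : ℝ)
    (hK : 0 ≤ K)
    (h : ∀ n : ℕ, 1 ≤ n → ∑' i, w i * (if n ≤ c i then 1 else 0) ≤
      ENNReal.ofReal (K / Real.sqrt n)) (N : ℕ) :
    ∑' i, w i * (if N ≤ c i then 0 else (c i : ℝ≥0∞)) ≤ ENNReal.ofReal (2 * K * Real.sqrt N) := by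
  calc ∑' i, w i * (if N ≤ c i then 0 else (c i : ℝ≥0∞))
      ≤ ∑' i, ∑ n ∈ Finset.Ico 1 N, w i * (if n ≤ c i then (1 : ℝ≥0∞) else 0) := by
        apply ENNReal.tsum_le_tsum
        intro i
        rw [← Finset.mul_sum]
        exact mul_le_mul_right (ThFin_cnt N (c i)) (w i)
    _ = ∑ n ∈ Finset.Ico 1 N, ∑' i, w i * (if n ≤ c i then (1 : ℝ≥0∞) else 0) := by
        rw [Summable.tsum_finsetSum]
        intro n _
        exact ENNReal.summable
    _ ≤ ∑ n ∈ Finset.Ico 1 N, ENNReal.ofReal (K / Real.sqrt n) := by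
        apply Finset.sum_le_sum
        intro n hn
        rw [Finset.mem_Ico] at hn
        exact h n hn.1
    _ = ENNReal.ofReal (∑ n ∈ Finset.Ico 1 N, K / Real.sqrt n) := by
        rw [ENNReal.ofReal_sum_of_nonneg]
        intro n _
        positivity
    _ ≤ ENNReal.ofReal (2 * K * Real.sqrt N) := ENNReal.ofReal_le_ofReal (ThFin_sumK K hK N)

/-- The choice of `N`. -/
theorem th_num (K D s θ : ℝ) (hK : 0 < K) (hD : 1 ≤ D) (hs : 0 < s) (hs1 : 16 * D * K * s ≤ 1)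
    (hθ : 0 ≤ θ) (hθ1 : θ ≤ 1)
    (h : ∀ N : ℕ, 1 ≤ N → θ ≤ K / Real.sqrt N + 2 * D * s * θ * (2 * K * Real.sqrt N)) :
    θ ≤ 64 * D * K ^ 2 * s := by
  have hD0 : 0 < D := by linarith
  have hDKs : 0 < 8 * D * K * s := by positivity
  obtain ⟨x, hx⟩ : ∃ x : ℝ, x = 1 / (8 * D * K * s) := ⟨_, rfl⟩
  have hxm : 8 * D * K * s * x = 1 := by
    rw [hx]
    field_simp
  have hx2 : 2 ≤ x := by
    rw [hx, le_div_iff₀ hDKs]
    linarith
  have hx0 : 0 < x := by linarith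
  have hxx : 4 ≤ x ^ 2 := by nlinarith
  obtain ⟨N, hN⟩ : ∃ N : ℕ, N = ⌊x ^ 2⌋₊ := ⟨_, rfl⟩
  have hN1 : (N : ℝ) ≤ x ^ 2 := by
    rw [hN]
    exact Nat.floor_le (by positivity)
  have hN2 : x ^ 2 < (N : ℝ) + 1 := by
    rw [hN]
    exact Nat.lt_floor_add_one _
  have hN3 : 1 ≤ N := by
    have : (3 : ℝ) < (N : ℝ) := by linarith
    have h3 : (3 : ℕ) < N := by exact_mod_cast this
    omega
  have hN4 : x ^ 2 / 4 ≤ (N : ℝ) := by linarith
  have hsN : Real.sqrt N ≤ x := by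
    rw [Real.sqrt_le_left hx0.le]
    exact hN1
  have hsN2 : x / 2 ≤ Real.sqrt N := by
    apply Real.le_sqrt_of_sq_le
    linarith [show (x / 2) ^ 2 = x ^ 2 / 4 by ring]
  have hsN0 : 0 < Real.sqrt N := by linarith
  have hh := h N hN3
  have h1 : 2 * D * s * θ * (2 * K * Real.sqrt N) ≤ θ / 2 := by
    have h2 : 2 * D * s * θ * (2 * K * Real.sqrt N) ≤ 2 * D * s * θ * (2 * K * x) := by
      apply mul_le_mul_of_nonneg_left _ (by positivity)
      apply mul_le_mul_of_nonneg_left hsN (by positivity)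
    have h3 : 2 * D * s * θ * (2 * K * x) = θ / 2 * (8 * D * K * s * x) := by ring
    rw [h3, hxm] at h2
    linarith
  have h4 : K / Real.sqrt N ≤ 2 * K / x := by
    rw [div_le_div_iff₀ hsN0 hx0]
    nlinarith
  have h5 : 2 * K / x = 16 * D * K ^ 2 * s := by
    rw [div_eq_iff hx0.ne']
    have : 16 * D * K ^ 2 * s * x = 2 * K * (8 * D * K * s * x) := by ring
    rw [this, hxm]
    ring
  have h6 : 0 ≤ D * K ^ 2 * s := by positivity
  rw [h5] at h4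
  nlinarith

end SH

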