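import Pool.Agent.H29.SH.Defs
import Pool.Agent.H29.CF.Thin

/-!
PROJECT LE (MP_0d9ad5_pr), block SH, Barsky-Aizenman. `theta` above, by sprinkling.
PROOF. `pn p s` is the density of `un ω η` (`map_un`). Almost surely the cluster `B` of `0` in `ω` is finite; if
`|B| < N` and the cluster of `0` in `un ω η` is infinite then there are `a ∈ B`, `σ` with `a + step σ ∉ B`,
`η (edge a σ)` open and the cluster of `a + step σ` off `B` infinite in `un ω η` (`ThUp_dec`, from
`CF.Thin_dec`). For fixed `B`, `a`, `σ` the probability is at most `cl B * s * theta` (`ThUp_term`, from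
`indep_pair`).
-/

namespace SH

open H5DF H5CF H95LBD H95LBS MeasureTheory
open scoped ENNReal

variable {d : ℕ}

lemma ThUp_hub (ω : Cfg d) (x : V d) : hub Set.univ ω x = cluster ω x := by
  ext y
  exact Cn_univ

lemma ThUp_dec {ω η : Cfg d} (hfin : (cluster ω 0).Finite)
    (h : (cluster (un ω η) 0).Infinite) :
    ∃ a σ, a ∈ cluster ω 0 ∧ a + step σ ∉ cluster ω 0 ∧ η (edge a σ) = true ∧
      (cluster (cut (cluster ω 0)ᶜ (un ω η)) (a + step σ)).Infinite := by
  by_contra hcon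
  apply h
  have hsub : cluster (un ω η) 0 ⊆ cluster ω 0 ∪ ⋃ a ∈ cluster ω 0,
      ⋃ σ ∈ {σ : Dir d | a + step σ ∉ cluster ω 0 ∧ η (edge a σ) = true},
        cluster (cut (cluster ω 0)ᶜ (un ω η)) (a + step σ) := by
    intro x hx
    have h1 := CF.Thin_dec (S := Set.univ) (Cn_univ.2 hx)
    rw [ThUp_hub] at h1
    rcases h1 with h1 | ⟨a, σ, ha, hσ, hη, hc⟩
    · exact Or.inl (Cn_univ.1 h1)
    · right
      rw [Set.mem_iUnion₂]
      refine ⟨a, ha, ?_⟩
      rw [Set.mem_iUnion₂]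
      exact ⟨σ, ⟨hσ, hη⟩, Cn_univ.1 hc⟩
  refine Set.Finite.subset (hfin.union (hfin.biUnion fun a ha =>
    (Set.toFinite _).biUnion fun σ hσ => ?_)) hsub
  rw [← Set.not_infinite]
  intro hi
  exact hcon ⟨a, σ, ha, hσ.1, hσ.2, hi⟩

lemma ThUp_cut_congr {D : Set (V d)} {q q' : Cfg d × Cfg d}
    (h : ∀ e ∈ ins Dᶜ, q.1 e = q'.1 e ∧ q.2 e = q'.2 e) :
    cut Dᶜ (un q.1 q.2) = cut Dᶜ (un q'.1 q'.2) := by
  funext e
  by_cases he : e ∈ ins Dᶜ
  · unfold cut un
    rw [(h e he).1, (h e he).2]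
  · have h4 : ∀ ω : Cfg d, cut Dᶜ ω e = false := by
      intro ω
      rw [← Bool.not_eq_true, cut_true]
      exact fun h => he h.2
    rw [h4, h4]

lemma ThUp_meas (D : Set (V d)) (x : V d) :
    MeasurableSet {q : Cfg d × Cfg d | (cluster (cut Dᶜ (un q.1 q.2)) x).Infinite} :=
  ((measurable_cut _).comp measurable_un) (meas_inf x)

lemma ThUp_theta {q : ℝ} (h0 : 0 ≤ q) (h1 : q ≤ 1) (x : V d) :
    perc d q {ω | (cluster ω x).Infinite} = ENNReal.ofReal (theta d q) := by
  have := isProb_perc (d := d) q h0 h1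
  unfold theta
  rw [ofReal_measureReal]
  rw [← perc_shift q h0 h1 x, Measure.map_apply (measurable_shift x) (meas_inf 0)]
  rw [perc_shift q h0 h1 x]
  congr 1
  ext ω
  show (cluster ω x).Infinite ↔ (cluster (shift x ω) 0).Infinite
  rw [inf_shift, zero_add]

lemma ThUp_cl (p : ℝ) (B : Finset (V d)) :
    CF.cl p ∅ 0 B = perc d p {ω | cluster ω 0 = (B : Set (V d))} := by
  unfold CF.cl
  congr 1
  ext ζ
  have h : cut (((∅ : Finset (V d)) : Set (V d))ᶜ) ζ = ζ := by
    funext e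
    simp [cut]
  simp only [Set.mem_ofPred_eq, h]

lemma ThUp_term {p s : ℝ} (h0 : 0 ≤ p) (h1 : p ≤ 1) (hs0 : 0 ≤ s) (hs1 : s ≤ 1)
    (B : Finset (V d)) (a : V d) (ha : a ∈ B) (σ : Dir d) :
    PP d p s {q | (cluster q.1 0 = (B : Set (V d)) ∧ q.2 (edge a σ) = true) ∧
      (cluster (cut ((B : Set (V d))ᶜ) (un q.1 q.2)) (a + step σ)).Infinite} ≤
      CF.cl p ∅ 0 B * ENNReal.ofReal (s * theta d (pn p s)) := by
  have hPp := isProb_perc (d := d) p h0 h1
  have hPs := isProb_perc (d := d) s hs0 hs1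
  have hPP := isProb_PP (d := d) h0 h1 hs0 hs1
  set F : Set (Cfg d) := {η | η (edge a σ) = true} with hF
  have hFm : MeasurableSet F :=
    measurable_pi_apply (X := fun _ : Ed d => Bool) (edge a σ)
      (MeasurableSet.of_discrete (s := {true}))
  have hFs : perc d s F = ENNReal.ofReal s := by
    have h2 := bern_coord (ι := Ed d) hs0 hs1 (edge a σ) true
    rw [bern_true] at h2
    exact h2
  set S : Set (Cfg d × Cfg d) := {ω : Cfg d | cluster ω 0 = (B : Set (V d))} ×ˢ F with hS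
  set A : Set (Cfg d × Cfg d) :=
    {q | (cluster (cut ((B : Set (V d))ᶜ) (un q.1 q.2)) (a + step σ)).Infinite} with hA
  have hSm : MeasurableSet S := (meas_cluster_eq 0 _).prod hFm
  have hAm : MeasurableSet A := ThUp_meas _ _
  have hset : {q : Cfg d × Cfg d | (cluster q.1 0 = (B : Set (V d)) ∧ q.2 (edge a σ) = true) ∧
      (cluster (cut ((B : Set (V d))ᶜ) (un q.1 q.2)) (a + step σ)).Infinite} = S ∩ A := by
    ext q
    exact Iff.rfl
  have hind := indep_pair h0 h1 hs0 hs1 (ins ((B : Set (V d))ᶜ))ᶜ (ins ((B : Set (V d))ᶜ))ᶜ S A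
    hSm hAm (by
      rintro q q' h2 h3 ⟨h4, h5⟩
      refine ⟨?_, ?_⟩
      · refine cluster_congr (show cluster q.1 0 = (B : Set (V d)) from h4) ?_
        intro u hu t
        refine h2 _ ?_
        intro h6
        rw [edge_mem_ins] at h6
        exact h6.1 hu
      · show q'.2 (edge a σ) = true
        rw [← h3 (edge a σ) (by
          intro h6
          rw [edge_mem_ins] at h6
          exact h6.1 (by exact_mod_cast ha))]
        exact h5) (by
      intro q q' h2 h3 h4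
      show (cluster (cut ((B : Set (V d))ᶜ) (un q'.1 q'.2)) (a + step σ)).Infinite
      rw [← ThUp_cut_congr (D := (B : Set (V d))) (q := q) (q' := q') fun e he => ?_]
      · exact h4
      · have he' : e ∉ (ins ((B : Set (V d))ᶜ))ᶜ := fun h5 => h5 he
        exact ⟨h2 e he', h3 e he'⟩)
  have hind2 : PP d p s (S ∩ A) = PP d p s S * PP d p s A := by
    have h2 := congrArg ENNReal.ofReal hind
    rw [ENNReal.ofReal_mul measureReal_nonneg, ofReal_measureReal, ofReal_measureReal,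
      ofReal_measureReal] at h2
    exact h2
  have hSv : PP d p s S = CF.cl p ∅ 0 B * ENNReal.ofReal s := by
    rw [ThUp_cl, ← hFs]
    unfold PP
    rw [hS, Measure.prod_prod]
  have hAv : PP d p s A ≤ ENNReal.ofReal (theta d (pn p s)) := by
    rw [← ThUp_theta (h0.trans (pn_ge h1 hs0)) (pn_le h1 hs1) (a + step σ),
      ← map_un h0 h1 hs0 hs1, Measure.map_apply measurable_un (meas_inf _)]
    refine measure_mono ?_
    intro q hq
    refine Set.Infinite.mono ?_ hq
    exact cluster_cut_sub _ _ _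
  rw [hset, hind2, hSv, ENNReal.ofReal_mul hs0, mul_assoc]
  exact mul_le_mul' le_rfl (mul_le_mul' le_rfl hAv)

open Classical in
/-- the covering events -/
def ThUp_E (N : ℕ) (B : Finset (V d)) : Set (Cfg d × Cfg d) :=
  if N ≤ B.card then {q | cluster q.1 0 = (B : Set (V d))} else
    ⋃ a ∈ B, ⋃ σ ∈ (Finset.univ : Finset (Dir d)),
      {q | (cluster q.1 0 = (B : Set (V d)) ∧ q.2 (edge a σ) = true) ∧
        (cluster (cut ((B : Set (V d))ᶜ) (un q.1 q.2)) (a + step σ)).Infinite}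

lemma ThUp_E_le {p s : ℝ} (h0 : 0 ≤ p) (h1 : p ≤ 1) (hs0 : 0 ≤ s) (hs1 : s ≤ 1) (N : ℕ)
    (B : Finset (V d)) :
    PP d p s (ThUp_E N B) ≤ CF.cl p ∅ 0 B * (if N ≤ B.card then 1 else 0) +
      ENNReal.ofReal (2 * d * s * theta d (pn p s)) *
        (CF.cl p ∅ 0 B * (if N ≤ B.card then 0 else (B.card : ℝ≥0∞))) := by
  classical
  have hPs := isProb_perc (d := d) s hs0 hs1
  unfold ThUp_E
  by_cases hN : N ≤ B.card
  · rw [if_pos hN, if_pos hN, if_pos hN, mul_one, mul_zero, mul_zero, add_zero]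
    have e : {q : Cfg d × Cfg d | cluster q.1 0 = (B : Set (V d))} =
        {ω : Cfg d | cluster ω 0 = (B : Set (V d))} ×ˢ Set.univ := by
      ext q
      simp
    rw [ThUp_cl, e]
    unfold PP
    rw [Measure.prod_prod, measure_univ, mul_one]
  · rw [if_neg hN, if_neg hN, if_neg hN, mul_zero, zero_add]
    have hth : 0 ≤ theta d (pn p s) := measureReal_nonneg
    have hcard : (Fintype.card (Dir d) : ℝ≥0∞) = 2 * d := by
      rw [Fintype.card_prod, Fintype.card_fin, Fintype.card_bool]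
      push_cast
      ring
    calc PP d p s (⋃ a ∈ B, ⋃ σ ∈ (Finset.univ : Finset (Dir d)),
      {q | (cluster q.1 0 = (B : Set (V d)) ∧ q.2 (edge a σ) = true) ∧
        (cluster (cut ((B : Set (V d))ᶜ) (un q.1 q.2)) (a + step σ)).Infinite})
        ≤ ∑ a ∈ B, PP d p s (⋃ σ ∈ (Finset.univ : Finset (Dir d)),
      {q | (cluster q.1 0 = (B : Set (V d)) ∧ q.2 (edge a σ) = true) ∧
        (cluster (cut ((B : Set (V d))ᶜ) (un q.1 q.2)) (a + step σ)).Infinite}) :=
          measure_biUnion_finset_le _ _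
      _ ≤ ∑ a ∈ B, ∑ σ : Dir d, PP d p s
          {q | (cluster q.1 0 = (B : Set (V d)) ∧ q.2 (edge a σ) = true) ∧
            (cluster (cut ((B : Set (V d))ᶜ) (un q.1 q.2)) (a + step σ)).Infinite} :=
          Finset.sum_le_sum fun a _ => measure_biUnion_finset_le _ _
      _ ≤ ∑ a ∈ B, ∑ σ : Dir d, CF.cl p ∅ 0 B * ENNReal.ofReal (s * theta d (pn p s)) :=
          Finset.sum_le_sum fun a ha => Finset.sum_le_sum fun σ _ =>
            ThUp_term h0 h1 hs0 hs1 B a ha σ
      _ = ENNReal.ofReal (2 * d * s * theta d (pn p s)) *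
        (CF.cl p ∅ 0 B * (B.card : ℝ≥0∞)) := by
          rw [Finset.sum_const, Finset.sum_const, Finset.card_univ, nsmul_eq_mul, nsmul_eq_mul,
            hcard, mul_assoc (2 * (d : ℝ)) s,
            ENNReal.ofReal_mul (by positivity : (0 : ℝ) ≤ 2 * d),
            ENNReal.ofReal_mul (by norm_num : (0 : ℝ) ≤ 2), ENNReal.ofReal_natCast,
            ENNReal.ofReal_ofNat]
          ring

theorem thup {p s : ℝ} (h0 : 0 ≤ p) (h1 : p ≤ 1) (hs0 : 0 ≤ s) (hs1 : s ≤ 1)
    (hfin : ∀ᵐ ω ∂(perc d p), (cluster ω 0).Finite) (N : ℕ) :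
    ENNReal.ofReal (theta d (pn p s)) ≤
      (∑' B : Finset (V d), CF.cl p ∅ 0 B * (if N ≤ B.card then 1 else 0)) +
      ENNReal.ofReal (2 * d * s * theta d (pn p s)) *
        ∑' B : Finset (V d), CF.cl p ∅ 0 B * (if N ≤ B.card then 0 else (B.card : ℝ≥0∞)) := by
  classical
  have hPp := isProb_perc (d := d) p h0 h1
  have hPs := isProb_perc (d := d) s hs0 hs1
  rw [← ThUp_theta (h0.trans (pn_ge h1 hs0)) (pn_le h1 hs1) 0, ← map_un h0 h1 hs0 hs1,
    Measure.map_apply measurable_un (meas_inf _)]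
  have hnull : PP d p s ({ω : Cfg d | (cluster ω 0).Infinite} ×ˢ Set.univ) = 0 := by
    unfold PP
    rw [Measure.prod_prod]
    have h2 : perc d p {ω : Cfg d | (cluster ω 0).Infinite} = 0 := by
      have h3 := hfin
      rw [ae_iff] at h3
      exact h3
    rw [h2, zero_mul]
  have hsub : (fun q : Cfg d × Cfg d => un q.1 q.2) ⁻¹' {ω : Cfg d | (cluster ω 0).Infinite} ⊆
      ({ω : Cfg d | (cluster ω 0).Infinite} ×ˢ Set.univ) ∪
        ⋃ B : Finset (V d), ThUp_E N B := by
    intro q hq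
    by_cases hi : (cluster q.1 0).Infinite
    · exact Or.inl ⟨hi, Set.mem_univ _⟩
    · right
      rw [Set.not_infinite] at hi
      rw [Set.mem_iUnion]
      have hc : cluster q.1 0 = ((hi.toFinset : Finset (V d)) : Set (V d)) := by simp
      refine ⟨hi.toFinset, ?_⟩
      unfold ThUp_E
      split_ifs with hN
      · exact hc
      · obtain ⟨a, σ, ha, -, hη, hinf⟩ := ThUp_dec hi hq
        rw [Set.mem_iUnion₂]
        refine ⟨a, by simpa using ha, ?_⟩
        rw [Set.mem_iUnion₂]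
        refine ⟨σ, Finset.mem_univ _, ⟨hc, hη⟩, ?_⟩
        rw [← hc]
        exact hinf
  calc PP d p s ((fun q : Cfg d × Cfg d => un q.1 q.2) ⁻¹' {ω : Cfg d | (cluster ω 0).Infinite})
      ≤ PP d p s (({ω : Cfg d | (cluster ω 0).Infinite} ×ˢ Set.univ) ∪
        ⋃ B : Finset (V d), ThUp_E N B) := measure_mono hsub
    _ ≤ PP d p s ({ω : Cfg d | (cluster ω 0).Infinite} ×ˢ Set.univ) +
        PP d p s (⋃ B : Finset (V d), ThUp_E N B) := measure_union_le _ _
    _ = PP d p s (⋃ B : Finset (V d), ThUp_E N B) := by rw [hnull, zero_add]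
    _ ≤ ∑' B : Finset (V d), PP d p s (ThUp_E N B) := measure_iUnion_le _
    _ ≤ ∑' B : Finset (V d), (CF.cl p ∅ 0 B * (if N ≤ B.card then 1 else 0) +
      ENNReal.ofReal (2 * d * s * theta d (pn p s)) *
        (CF.cl p ∅ 0 B * (if N ≤ B.card then 0 else (B.card : ℝ≥0∞)))) :=
        ENNReal.tsum_le_tsum fun B => ThUp_E_le h0 h1 hs0 hs1 N B
    _ = _ := by rw [ENNReal.tsum_add, ENNReal.tsum_mul_left]

end SH
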