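import Pool.Agent.H29.SH.AnDbl
import Pool.Agent.H29.SH.Ineq
import Pool.Agent.H29.SH.Tail
import Pool.Agent.H29.SH.ThUp
import Pool.Agent.H29.SH.ThFin

/-!
PROJECT LE (MP_0d9ad5_pr), block SH. Main theorems: `pcc_ge`, `pcc_le_one`, `theta_zero`,
`theta_pos`, `mom_fin`, `gt_fin`, `chi_fin`, `chi_le`, `tau_mono`, `tau_cont`, `an_bound` and the
following one.
-/

namespace SH

open H5DF H5CF H95LBD H95LBS MeasureTheory
open scoped ENNReal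

variable {d : ℕ}

lemma Main_theta_mem {p : ℝ} (h0 : 0 ≤ p) (h1 : p ≤ 1) : 0 ≤ theta d p ∧ theta d p ≤ 1 := by
  have hpp : IsProbabilityMeasure (perc d p) := isProb_perc p h0 h1
  unfold theta
  exact ⟨measureReal_nonneg, measureReal_le_one⟩

/-- The bound for `theta` above, one value of the parameter. -/
lemma Main_one (hd : 2 ≤ d) {p s C0 : ℝ} (hp0 : 0 < p) (hp : p < pcc d) (hpd : p ≤ 1 / d)
    (hs0 : 0 < s) (hs1 : s ≤ 1) (hC : 2 + 12 / p ^ 3 ≤ C0) (hC0 : 0 ≤ C0)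
    (hs : 16 * (d : ℝ) * (6 * (C0 + 1)) * s ≤ 1)
    (hT : ∀ y : V d, y ≠ 0 → T3 d p y ≤ ENNReal.ofReal (1 / 2000)) :
    theta d (pn p s) ≤ 64 * (d : ℝ) * (6 * (C0 + 1)) ^ 2 * s := by
  have hd1 : 1 ≤ d := by omega
  have hp1 : p ≤ 1 := hp.le.trans (pcc_le_one hd1)
  have hfin : ∀ x : V d, ∀ᵐ ω ∂(perc d p), (cluster ω x).Finite := fun x => fin_below hd1 hp0.le hp x
  have hchi : chi d p ≠ ⊤ := (chi_fin hd1 hp0.le hp).ne
  have hM : ∀ ρ : ℝ, 0 ≤ ρ → ρ < 1 → Mz d p ρ * M1 d p ρ ≤ ENNReal.ofReal C0 := by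
    intro ρ hρ0 hρ1
    exact (ineq_main hd hp0 hpd hρ0 hρ1 hfin hchi hT).trans (ENNReal.ofReal_le_ofReal hC)
  have hK : 0 < 6 * (C0 + 1) := by linarith
  have htail : ∀ n : ℕ, 1 ≤ n → ∑' B : Finset (V d), CF.cl p ∅ 0 B * (if n ≤ B.card then 1 else 0) ≤
      ENNReal.ofReal (6 * (C0 + 1) / Real.sqrt n) := fun n hn =>
    tail hp0.le hp1 (hfin 0) hchi C0 hC0 hM n hn
  obtain ⟨hθ0, hθ1⟩ := Main_theta_mem (d := d) (hp0.le.trans (pn_ge hp1 hs0.le)) (pn_le hp1 hs1)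
  refine th_num (6 * (C0 + 1)) d s _ hK (by exact_mod_cast hd1) hs0 hs hθ0 hθ1 ?_
  intro N hN
  have h1 := thup hp0.le hp1 hs0.le hs1 (hfin 0) N
  have h2 := trunc_le (fun B : Finset (V d) => CF.cl p ∅ 0 B) (fun B => B.card) (6 * (C0 + 1)) hK.le
    htail N
  have hn0 : 0 ≤ 6 * (C0 + 1) / Real.sqrt N := by positivity
  have hn1 : 0 ≤ 2 * (d : ℝ) * s * theta d (pn p s) := by positivity
  have hn2 : 0 ≤ 2 * (6 * (C0 + 1)) * Real.sqrt N := by positivity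
  have h3 : ENNReal.ofReal (theta d (pn p s)) ≤ ENNReal.ofReal (6 * (C0 + 1) / Real.sqrt N +
      2 * (d : ℝ) * s * theta d (pn p s) * (2 * (6 * (C0 + 1)) * Real.sqrt N)) := by
    rw [ENNReal.ofReal_add hn0 (mul_nonneg hn1 hn2), ENNReal.ofReal_mul hn1]
    exact h1.trans (add_le_add (htail N hN) (mul_le_mul' le_rfl h2))
  exact (ENNReal.ofReal_le_ofReal_iff (add_nonneg hn0 (mul_nonneg hn1 hn2))).1 h3

/-- The upper bound for `theta` of Barsky and Aizenman. -/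
theorem ba_theta (hd : 2 ≤ d) (hpc1 : pcc d < 1) (hpd : pcc d ≤ 1 / d)
    (hT : ∀ p : ℝ, 1 / (4 * (d : ℝ)) ≤ p → p < pcc d → ∀ y : V d, y ≠ 0 →
      T3 d p y ≤ ENNReal.ofReal (1 / 2000)) :
    ∃ A δ : ℝ, 0 < A ∧ 0 < δ ∧ ∀ ε : ℝ, 0 < ε → ε < δ → theta d (pcc d + ε) ≤ A * ε := by
  have hd1 : 1 ≤ d := by omega
  have hdr : (2 : ℝ) ≤ (d : ℝ) := by exact_mod_cast hd
  have hd0 : (0 : ℝ) < (d : ℝ) := by linarith
  have hpc := pcc_ge hd1
  obtain ⟨C0, hC0⟩ : ∃ C0 : ℝ, C0 = 2 + 12 * (4 * (d : ℝ)) ^ 3 := ⟨_, rfl⟩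
  have hC1 : 0 ≤ C0 := by rw [hC0]; positivity
  obtain ⟨K, hK⟩ : ∃ K : ℝ, K = 6 * (C0 + 1) := ⟨_, rfl⟩
  have hK1 : 1 ≤ K := by rw [hK]; linarith
  have hK0 : 0 < K := by linarith
  have hq : 0 < 1 - pcc d := by linarith
  refine ⟨128 * d * K ^ 2 / (1 - pcc d), min (1 / (4 * (d : ℝ))) ((1 - pcc d) / (32 * d * K)),
    by positivity, by positivity, ?_⟩
  intro ε hε0 hε
  have hε1 : ε < 1 / (4 * (d : ℝ)) := hε.trans_le (min_le_left _ _)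
  have hε2 : ε < (1 - pcc d) / (32 * d * K) := hε.trans_le (min_le_right _ _)
  rw [lt_div_iff₀ (by positivity)] at hε2
  have h14 : 1 / (2 * (d : ℝ)) = 1 / (4 * (d : ℝ)) + 1 / (4 * (d : ℝ)) := by
    field_simp
    norm_num
  obtain ⟨p, hp⟩ : ∃ p : ℝ, p = pcc d - ε := ⟨_, rfl⟩
  have hp4 : 1 / (4 * (d : ℝ)) ≤ p := by rw [hp]; linarith
  have h40 : 0 < 1 / (4 * (d : ℝ)) := by positivity
  have hp0 : 0 < p := h40.trans_le hp4
  have hpp : p < pcc d := by rw [hp]; linarith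
  have h1p : 1 - pcc d < 1 - p := by linarith
  have h1p0 : 0 < 1 - p := by linarith
  obtain ⟨s, hs⟩ : ∃ s : ℝ, s = 2 * ε / (1 - p) := ⟨_, rfl⟩
  have hs0 : 0 < s := by rw [hs]; positivity
  have hsle : s ≤ 2 * ε / (1 - pcc d) := by
    rw [hs]
    gcongr
  have hs16 : 16 * (d : ℝ) * K * s ≤ 1 := by
    calc 16 * (d : ℝ) * K * s ≤ 16 * (d : ℝ) * K * (2 * ε / (1 - pcc d)) := by gcongr
      _ = (ε * (32 * d * K)) / (1 - pcc d) := by ring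
      _ ≤ 1 := by
          rw [div_le_one hq]
          exact hε2.le
  have hs1 : s ≤ 1 := by
    refine le_trans ?_ hs16
    have : 1 ≤ 16 * (d : ℝ) * K := by nlinarith
    calc s = 1 * s := by ring
      _ ≤ 16 * (d : ℝ) * K * s := by gcongr
  have hpn : pn p s = pcc d + ε := by
    unfold pn
    have : (1 - p) * s = 2 * ε := by
      rw [hs]
      field_simp
    calc 1 - (1 - p) * (1 - s) = p + (1 - p) * s := by ring
      _ = pcc d + ε := by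
          rw [this, hp]
          ring
  have hC : 2 + 12 / p ^ 3 ≤ C0 := by
    have h1 : 1 / p ≤ 4 * (d : ℝ) := by
      rw [div_le_iff₀ hp0]
      rw [div_le_iff₀ (by positivity)] at hp4
      linarith
    have h2 : (1 / p) ^ 3 ≤ (4 * (d : ℝ)) ^ 3 := by
      have : 0 ≤ 1 / p := by positivity
      gcongr
    have h3 : 12 / p ^ 3 = 12 * (1 / p) ^ 3 := by
      rw [one_div, inv_pow]
      rfl
    rw [hC0, h3]
    linarith
  have hmain := Main_one hd hp0 hpp (hpp.le.trans hpd) hs0 hs1 hC hC1 (by rw [← hK]; exact hs16)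
    (hT p hp4 hpp)
  rw [hpn, ← hK] at hmain
  calc theta d (pcc d + ε) ≤ 64 * (d : ℝ) * K ^ 2 * s := hmain
    _ ≤ 64 * (d : ℝ) * K ^ 2 * (2 * ε / (1 - pcc d)) := by gcongr
    _ = 128 * d * K ^ 2 / (1 - pcc d) * ε := by ring

end SH
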