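import Pool.Agent.H29.SH.Defs
import Pool.Agent.H95.LBD.LawA
import Pool.Agent.H5.DG.Indep

/-!
PROJECT LE (MP_0d9ad5_pr), block SH. The critical point `pcc`.
-/

namespace SH

open H5DF H5CF H95LBD H95LBS MeasureTheory
open scoped ENNReal

variable {d : ℕ}

lemma phi_nonneg (p : ℝ) (S : Finset (V d)) : 0 ≤ phi p 0 S :=
  Finset.sum_nonneg fun _ _ => measureReal_nonneg

lemma phi_mono {p q : ℝ} (h0 : 0 ≤ p) (hpq : p ≤ q) (h1 : q ≤ 1) (S : Finset (V d)) :
    phi p 0 S ≤ phi q 0 S :=
  Finset.sum_le_sum fun _ _ => perc_mono h0 hpq h1 (SCn_inc _ _ _) (meas_SCn _ _ _)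

lemma Pc_zero_mem_Box : (0 : V d) ∈ Box d 0 := by
  rw [mem_Box', nm_zero]

/-- Under `perc d 1` all edges are open. -/
lemma Pc_all_open : perc d 1 {ω : Cfg d | ∀ e, ω e = true}ᶜ = 0 := by
  have hsub : {ω : Cfg d | ∀ e, ω e = true}ᶜ ⊆ ⋃ e : Ed d, {ω : Cfg d | ω e = false} := by
    intro ω hω
    simp only [Set.mem_compl_iff, Set.mem_ofPred_eq, not_forall, Bool.not_eq_true] at hω
    obtain ⟨e, he⟩ := hω
    exact Set.mem_iUnion.2 ⟨e, he⟩
  refine measure_mono_null hsub (measure_iUnion_null fun e => ?_)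
  have h := bern_coord (p := 1) zero_le_one le_rfl e false
  rw [bern_false, sub_self, ENNReal.ofReal_zero] at h
  exact h

lemma one_mem_Sp (hd : 1 ≤ d) : (1 : ℝ) ∈ Sp d := by
  refine ⟨zero_le_one, le_rfl, fun S hS => ?_⟩
  rw [one_mul]
  have hprob : IsProbabilityMeasure (perc d 1) := by
    have := isProb_bern (p := 1) zero_le_one le_rfl
    unfold perc
    infer_instance
  set s : Dir d := (⟨0, hd⟩, true) with hs
  have hinj : Function.Injective fun k : ℕ => k • (step s : V d) := by
    intro a b hab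
    have h1 := congrFun hab ⟨0, hd⟩
    simpa [step, hs] using h1
  have hex : ∃ k : ℕ, (k + 1) • (step s : V d) ∉ S := by
    by_contra hcon
    push Not at hcon
    have hinf : (S : Set (V d)).Infinite := by
      refine Set.infinite_of_injective_forall_mem (f := fun k : ℕ => (k + 1) • (step s : V d)) ?_ ?_
      · intro a b hab
        have := hinj hab
        omega
      · intro k
        exact hcon k
    exact hinf S.finite_toSet
  classical
  set k := Nat.find hex with hk
  have hkn : (k + 1) • (step s : V d) ∉ S := Nat.find_spec hex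
  have hmem : ∀ j ≤ k, j • (step s : V d) ∈ S := by
    intro j hj
    rcases j with _ | j
    · rw [zero_nsmul]
      exact hS
    · have := Nat.find_min hex (m := j) (by omega)
      exact not_not.1 this
  have hcn : ∀ ω : Cfg d, (∀ e, ω e = true) → ∀ j ≤ k, Cn (S : Set (V d)) ω 0 (j • step s) := by
    intro ω hω j
    induction j with
    | zero =>
      intro _
      rw [zero_nsmul]
      exact Cn.refl _ _ _
    | succ j ih =>
      intro hj
      have h1 : (j + 1) • (step s : V d) = j • step s + step s := succ_nsmul _ _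
      have h2 := hmem (j + 1) hj
      rw [h1] at h2 ⊢
      exact (ih (by omega)).trans (Cn.one (hω _) (hmem j (by omega)) h2)
  have hone : (perc d 1).real (SCn (Box d 0) (S : Set (V d)) (k • step s)) = 1 := by
    have h1 : perc d 1 (SCn (Box d 0) (S : Set (V d)) (k • step s)) = 1 := by
      rw [← prob_compl_eq_zero_iff (meas_SCn _ _ _)]
      refine measure_mono_null ?_ (Pc_all_open (d := d))
      intro ω hω hall
      exact hω ⟨0, Pc_zero_mem_Box, hcn ω hall k le_rfl⟩
    rw [measureReal_def, h1, ENNReal.toReal_one]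
  have hb : (k • step s, s) ∈ bd S := by
    rw [bd, Finset.mem_filter, Finset.mem_product]
    refine ⟨⟨hmem k le_rfl, Finset.mem_univ _⟩, ?_⟩
    rw [← succ_nsmul]
    exact hkn
  calc (1 : ℝ) = (perc d 1).real (SCn (Box d 0) (S : Set (V d)) (k • step s)) := hone.symm
    _ ≤ phi 1 0 S := by
      unfold phi
      exact Finset.single_le_sum (f := fun b : V d × Dir d =>
        (perc d 1).real (SCn (Box d 0) (S : Set (V d)) b.1))
        (fun _ _ => measureReal_nonneg) hb

lemma Pc_bdd : BddBelow (Sp d) := ⟨0, fun _ hp => hp.1⟩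

theorem pcc_le_one (hd : 1 ≤ d) : pcc d ≤ 1 := csInf_le Pc_bdd (one_mem_Sp hd)

theorem pcc_ge (hd : 1 ≤ d) : 1 / (2 * (d : ℝ)) ≤ pcc d := by
  refine le_csInf ⟨1, one_mem_Sp hd⟩ fun p hp => ?_
  have hprob : IsProbabilityMeasure (perc d p) := by
    have := isProb_bern (p := p) hp.1 hp.2.1
    unfold perc
    infer_instance
  have h1 := hp.2.2 {0} (Finset.mem_singleton_self 0)
  have h2 : phi p 0 ({0} : Finset (V d)) ≤ 2 * (d : ℝ) := by
    unfold phi
    calc ∑ b ∈ bd ({0} : Finset (V d)),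
          (perc d p).real (SCn (Box d 0) (({0} : Finset (V d)) : Set (V d)) b.1)
        ≤ ∑ b ∈ bd ({0} : Finset (V d)), (1 : ℝ) :=
          Finset.sum_le_sum fun b _ => measureReal_le_one
      _ = ((bd ({0} : Finset (V d))).card : ℝ) := by simp
      _ ≤ ((({0} : Finset (V d)) ×ˢ (Finset.univ : Finset (Dir d))).card : ℝ) := by
          exact_mod_cast Finset.card_filter_le _ _
      _ = 2 * (d : ℝ) := by
          rw [Finset.card_product, Finset.card_singleton, Finset.card_univ, Fintype.card_prod,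
            Fintype.card_fin, Fintype.card_bool]
          push_cast
          ring
  have hd0 : (0 : ℝ) < 2 * d := by
    have : (1 : ℝ) ≤ d := by exact_mod_cast hd
    linarith
  rw [div_le_iff₀ hd0]
  exact h1.trans (mul_le_mul_of_nonneg_left h2 hp.1)

theorem small_of_lt (hd : 1 ≤ d) {p : ℝ} (h0 : 0 ≤ p) (hp : p < pcc d) :
    ∃ S : Finset (V d), (0 : V d) ∈ S ∧ p * phi p 0 S < 1 := by
  by_contra hcon
  push Not at hcon
  exact absurd (csInf_le Pc_bdd ⟨h0, hp.le.trans (pcc_le_one hd), hcon⟩) (not_le.2 hp)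

theorem mem_Sp_of_gt (hd : 1 ≤ d) {p : ℝ} (hp : pcc d < p) (h1 : p ≤ 1) : p ∈ Sp d := by
  obtain ⟨q, hq, hqp⟩ := exists_lt_of_csInf_lt ⟨1, one_mem_Sp hd⟩ hp
  have hp0 : 0 ≤ p := hq.1.trans hqp.le
  refine ⟨hp0, h1, fun S hS => (hq.2.2 S hS).trans ?_⟩
  exact mul_le_mul hqp.le (phi_mono hq.1 hqp.le h1 S) (phi_nonneg q S) hp0

end SH
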