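import Pool.Agent.H29.SH.Defs
import Pool.Agent.H95.LE.XiZ
import Pool.Agent.H95.LE.PrDef
import Pool.Agent.H95.LE.WtDef
import Pool.Agent.H5.CF.Ind
import Pool.Agent.H5.DF.Energy2
import Pool.Agent.H95.LBD.DecC
import Pool.Agent.H95.LBD.TreeB

/-!
PROJECT LE (MP_0d9ad5_pr), block SH. The open triangle `T3` is at most `3 (J * tau * tau * tau)`.
-/

namespace SH

open H5DF H95LBD MeasureTheory H95LE
open scoped ENNReal

variable {d : ℕ}

lemma T3J_eq (p : ℝ) (y : V d) : T3 d p y = cv (tau d p) (cv (tau d p) (tau d p)) y := by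
  unfold T3 cv
  refine tsum_congr fun a => ?_
  rw [← ENNReal.tsum_mul_left, ← (Equiv.addLeft a).tsum_eq]
  refine tsum_congr fun c => ?_
  rw [Equiv.coe_addLeft, add_sub_cancel_left, mul_assoc, sub_add_eq_sub_sub]

lemma T3J_cv (f g h : V d → ℝ≥0∞) (y : V d) :
    cv f (cv g h) y = ∑' a : V d, ∑' b : V d, f a * g (b - a) * h (y - b) := by
  unfold cv
  refine tsum_congr fun a => ?_
  rw [← ENNReal.tsum_mul_left]
  rw [← (Equiv.addLeft a).tsum_eq (fun b => f a * g (b - a) * h (y - b))]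
  refine tsum_congr fun c => ?_
  rw [Equiv.coe_addLeft, add_sub_cancel_left, mul_assoc, sub_add_eq_sub_sub]

theorem t3_jc {p : ℝ} (h0 : 0 ≤ p) (h1 : p ≤ 1) {y : V d} (hy : y ≠ 0) :
    T3 d p y ≤ 3 * jc p (cv (tau d p) (cv (tau d p) (tau d p))) y := by
  set t := tau d p with ht
  have e1 : jc p (cv t (cv t t)) y = cv (jc p t) (cv t t) y := by
    rw [jc_cv, jc_cv, ← cv_assoc, cv_comm]
  have e2 : jc p (cv t (cv t t)) y = cv t (cv (jc p t) t) y := by
    rw [jc_cv, jc_cv, cv_comm t (jc p t)]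
  have e3 : jc p (cv t (cv t t)) y = cv t (cv t (jc p t)) y := by
    rw [jc_cv, jc_cv]
  have e4 : (3 : ℝ≥0∞) * jc p (cv t (cv t t)) y =
      cv (jc p t) (cv t t) y + (cv t (cv (jc p t) t) y + cv t (cv t (jc p t)) y) := by
    rw [← e1, ← e2, ← e3]
    ring
  rw [e4, T3J_cv, T3J_cv, T3J_cv, ← ENNReal.tsum_add, ← ENNReal.tsum_add]
  unfold T3
  refine ENNReal.tsum_le_tsum fun a => ?_
  rw [← ENNReal.tsum_add, ← ENNReal.tsum_add]
  refine ENNReal.tsum_le_tsum fun b => ?_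
  by_cases ha : a = 0
  · by_cases hb : b - a = 0
    · have hyb : y - b ≠ 0 := by
        intro h
        apply hy
        rw [sub_eq_zero] at h hb
        rw [h, hb, ha]
      refine le_trans ?_ (le_trans le_add_self le_add_self)
      exact mul_le_mul' le_rfl (tau_step p h0 h1 _ hyb)
    · refine le_trans ?_ (le_trans le_self_add le_add_self)
      exact mul_le_mul' (mul_le_mul' le_rfl (tau_step p h0 h1 _ hb)) le_rfl
  · refine le_trans ?_ le_self_add
    exact mul_le_mul' (mul_le_mul' (tau_step p h0 h1 _ ha) le_rfl) le_rfl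

theorem t3_le {p : ℝ} (h0 : 0 ≤ p) (h1 : p ≤ 1) {y : V d} (hy : y ≠ 0) :
    T3 d p y ≤ 3 * jggg d p y := by
  refine (t3_jc h0 h1 hy).trans (mul_le_mul' le_rfl ?_)
  refine jc_mono p (fun x => ?_) y
  exact cv_mono (fun z => tau_le_gt p z)
    (fun z => cv_mono (fun z => tau_le_gt p z) (fun z => tau_le_gt p z) z) x

theorem t3_le_jg {w : V d → ℕ} {c : ℕ} (hw : Wt w c) {p : ℝ} (h0 : 0 ≤ p) (h1 : p ≤ 1) {y : V d}
    (hy : y ≠ 0) : T3 d p y ≤ 3 * jg p (gw w p) y := by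
  refine (t3_jc h0 h1 hy).trans (mul_le_mul' le_rfl ?_)
  refine jc_mono p (fun x => ?_) y
  exact cv_mono (fun z => tau_le_gw hw p z)
    (fun z => cv_mono (fun z => tau_le_gw hw p z) (fun z => tau_le_gw hw p z) z) x

end SH
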