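import Pool.Agent.H29.SH.ExpD

/-!
PROJECT LE (MP_0d9ad5_pr), block SH. `theta` below and above `pcc`.
-/

namespace SH

open H5DF H5CF H95LBD H95LBS MeasureTheory
open scoped ENNReal

variable {d : ℕ}

theorem fin_below (hd : 1 ≤ d) {p : ℝ} (h0 : 0 ≤ p) (hp : p < pcc d) (x : V d) :
    ∀ᵐ ω ∂(perc d p), (cluster ω x).Finite :=
  fin_ae h0 (hp.le.trans (pcc_le_one hd)) (chi_fin hd h0 hp).ne x

theorem theta_zero (hd : 1 ≤ d) {p : ℝ} (h0 : 0 ≤ p) (hp : p < pcc d) : theta d p = 0 := by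
  unfold theta
  rw [measureReal_def, ENNReal.toReal_eq_zero_iff]
  left
  exact fin_below hd h0 hp 0

lemma ZerPos_zero_mem : (0 : V d) ∈ Box d 0 := by
  rw [Box, Fintype.mem_piFinset]
  intro i
  rw [Finset.mem_Icc]
  constructor <;> simp

lemma ZerPos_eq_zero {u : V d} (hu : u ∈ Box d 0) : u = 0 := by
  rw [Box, Fintype.mem_piFinset] at hu
  funext i
  have h := hu i
  rw [Finset.mem_Icc] at h
  have h1 := h.1
  have h2 := h.2
  simp only [Pi.zero_apply]
  simp only [Nat.cast_zero, neg_zero] at h1 h2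
  exact le_antisymm h2 h1

theorem theta_pos (hd : 1 ≤ d) {p : ℝ} (hp : pcc d < p) (h1 : p < 1) : 0 < theta d p := by
  have hpc0 : 0 < pcc d := by
    have h := pcc_ge hd
    have h2 : (0 : ℝ) < 1 / (2 * (d : ℝ)) := by
      have : (0 : ℝ) < d := by exact_mod_cast hd
      positivity
    linarith
  set p0 : ℝ := (pcc d + p) / 2 with hp0
  have hp0pos : 0 < p0 := by rw [hp0]; linarith
  have hcp : pcc d < p0 := by rw [hp0]; linarith
  have hpp : p0 < p := by rw [hp0]; linarith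
  have hpr := isProb_perc (d := d) p (hp0pos.le.trans hpp.le) h1.le
  have hκ : ∀ q : ℝ, p0 ≤ q → q ≤ 1 → ∀ S : Finset (V d), Box d 0 ⊆ S → (1 : ℝ) ≤ phi q 0 S := by
    intro q hq hq1 S hS
    have hmem := mem_Sp_of_gt hd (lt_of_lt_of_le hcp hq) hq1
    have h3 := hmem.2.2 S (hS ZerPos_zero_mem)
    have h4 := phi_nonneg q S
    nlinarith
  have h5 := no_inf (d := d) p0 hp0pos 0 1 hκ p hpp.le h1
  have h6 : Real.exp (-(1 * (p - p0))) < 1 := by
    rw [Real.exp_lt_one_iff]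
    linarith
  have h7 : {ω : Cfg d | ∀ u ∈ Box d 0, (cluster ω u).Finite} =
      {ω : Cfg d | (cluster ω 0).Infinite}ᶜ := by
    ext ω
    constructor
    · intro h h'
      exact h' (h 0 ZerPos_zero_mem)
    · intro h u hu
      rw [ZerPos_eq_zero hu]
      exact Set.not_infinite.1 h
  rw [h7, probReal_compl_eq_one_sub (meas_inf 0)] at h5
  unfold theta
  linarith

end SH
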